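import Pool.Agent.L5helper1.IS.Rep

set_option autoImplicit false
set_option linter.unusedSectionVars false
set_option linter.unusedVariables false
set_option maxHeartbeats 4000000

/-! # Pointwise coefficient bounds: two blocks, products of majorants, the sieve weight -/

namespace Pool.Agent.L5helper1.IS

open Finset Pool.Agent.H256R2.SC Pool.Agent.Y831.RC

variable {n n₁ n₂ : ℕ} {κ : Type} [Fintype κ] [DecidableEq κ]

theorem fib_un_sub (D D' : Col n κ) (k : κ) : fib (un D D') k ⊆ fib D k ∪ fib D' k := by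
  intro i hi
  rw [mem_fib] at hi
  rw [Finset.mem_union, mem_fib, mem_fib]
  unfold un at hi
  cases hD : D i with
  | none => rw [hD] at hi; exact Or.inr hi
  | some l => rw [hD] at hi; left; exact hi

theorem cols_un_sub (D D' : Col n κ) : cols (un D D') ⊆ cols D ∪ cols D' := by
  intro k hk
  rw [mem_cols] at hk
  obtain ⟨i, hi⟩ := hk
  have := fib_un_sub D D' k hi
  rw [Finset.mem_union] at this ⊢
  rw [mem_cols, mem_cols]
  rcases this with h | h
  · exact Or.inl ⟨i, h⟩
  · exact Or.inr ⟨i, h⟩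

theorem cols_none : cols (fun _ => none : Col n κ) = ∅ := by
  ext k
  rw [mem_cols]
  simp only [Finset.notMem_empty, iff_false, Finset.not_nonempty_iff_eq_empty]
  ext i
  rw [mem_fib]
  simp

theorem cols_onS_sub (k : κ) (s : Finset (Fin n)) : cols (onS k s) ⊆ {k} := by
  intro l hl
  rw [mem_cols] at hl
  obtain ⟨i, hi⟩ := hl
  rw [mem_fib] at hi
  unfold onS at hi
  rw [Finset.mem_singleton]
  split_ifs at hi
  exact (Option.some.inj hi).symm

theorem qq_onS (p : Fin n → ℝ) (k : κ) (s : Finset (Fin n)) : qq p (onS k s) = ∏ i ∈ s, p i := by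
  unfold qq onS
  rw [← Finset.prod_filter_mul_prod_filter_not univ (fun i => i ∈ s)]
  have h3 : ∏ i with i ∉ s, nu1 (p i) (if i ∈ s then some k else none) = 1 := by
    apply Finset.prod_eq_one
    intro i hi
    simp only [mem_filter, mem_univ, true_and] at hi
    simp [hi, nu1]
  rw [h3, mul_one, Finset.filter_mem_eq_inter, Finset.univ_inter]
  apply Finset.prod_congr rfl
  intro i hi
  simp [hi, nu1]

/-- events of the two blocks -/
theorem ind_two (D x : Col (n₁ + n₂) κ) : ind D x = ind (fstc D) (fstc x) * ind (sndc D) (sndc x) := by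
  rw [ind_eq_prod, ind_eq_prod, ind_eq_prod, Fin.prod_univ_add]
  rfl

theorem nu_two (c₁ : Fin n₁ → ℝ) (c₂ : Fin n₂ → ℝ) (D : Col (n₁ + n₂) κ) :
    nu (fun i => Fin.append c₁ c₂ i - 1) D =
      nu (fun i => c₁ i - 1) (fstc D) * nu (fun i => c₂ i - 1) (sndc D) := by
  unfold nu
  rw [Fin.prod_univ_add]
  simp only [Fin.append_left, Fin.append_right]
  rfl

theorem app_eta (D : Col (n₁ + n₂) κ) : (Fin.append (fstc D) (sndc D) : Col (n₁ + n₂) κ) = D := by
  funext i
  refine Fin.addCases (fun j => ?_) (fun j => ?_) i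
  · rw [Fin.append_left]; rfl
  · rw [Fin.append_right]; rfl

theorem Rep_two (c₁ : Fin n₁ → ℝ) (c₂ : Fin n₂ → ℝ) (M : ℝ) (P : Col (n₁ + n₂) κ → Prop)
    (F : Col (n₁ + n₂) κ → ℝ) (g : Col n₁ κ → Col n₂ κ → ℝ)
    (h1 : ∀ x, F x = ∑ D₁, ∑ D₂, g D₁ D₂ * (ind D₁ (fstc x) * ind D₂ (sndc x)))
    (h2 : ∀ D₁ D₂, |g D₁ D₂| ≤ M * (nu (fun i => c₁ i - 1) D₁ * nu (fun i => c₂ i - 1) D₂))
    (h3 : ∀ D, g (fstc D) (sndc D) ≠ 0 → P D) :
    Rep (Fin.append c₁ c₂) M P F := by
  refine ⟨fun D => g (fstc D) (sndc D), fun x => ?_, fun D => ?_, h3⟩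
  · rw [h1, ← (Fin.appendEquiv (α := Option κ) n₁ n₂).sum_comp, Fintype.sum_prod_type]
    refine Finset.sum_congr rfl fun D₁ _ => Finset.sum_congr rfl fun D₂ _ => ?_
    simp only [Fin.appendEquiv, Equiv.coe_fn_mk]
    rw [ind_two]
    have e1 : fstc (Fin.append D₁ D₂ : Col (n₁ + n₂) κ) = D₁ := fstc_append D₁ D₂
    have e2 : sndc (Fin.append D₁ D₂ : Col (n₁ + n₂) κ) = D₂ := sndc_append D₁ D₂
    rw [e1, e2]
  · rw [nu_two]
    exact h2 _ _

theorem Rep_fst (c₁ : Fin n₁ → ℝ) (M : ℝ) (P₁ : Col n₁ κ → Prop) (P : Col (n₁ + n₂) κ → Prop)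
    (F : Col n₁ κ → ℝ) (hP : ∀ D : Col (n₁ + n₂) κ, P₁ (fstc D) → sndc D = (fun _ => none) → P D)
    (hM : 0 ≤ M) (hc : ∀ i, 1 ≤ c₁ i)
    (h : Rep c₁ M P₁ F) : Rep (Fin.append c₁ (fun _ => 1)) M P (fun x => F (fstc x)) := by
  classical
  obtain ⟨f, h1, h2, h3⟩ := h
  refine Rep_two c₁ (fun _ => 1) M P _ (fun D₁ D₂ => if D₂ = (fun _ => none) then f D₁ else 0)
    (fun x => ?_) (fun D₁ D₂ => ?_) fun D hD => ?_
  · rw [h1]
    refine Finset.sum_congr rfl fun D₁ _ => ?_
    rw [Finset.sum_eq_single (fun _ => none : Col n₂ κ)]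
    · rw [if_pos rfl]
      simp [ind]
    · intro D₂ _ hD₂
      rw [if_neg hD₂, zero_mul]
    · intro h
      exact absurd (mem_univ _) h
  · by_cases hD : D₂ = (fun _ => none)
    · subst hD
      rw [if_pos rfl, nu_noneD, mul_one]
      exact h2 D₁
    · rw [if_neg hD, abs_zero]
      exact mul_nonneg hM (mul_nonneg (nu_nn (fun i => by linarith [hc i]) _)
        (nu_nn (fun i => by norm_num) _))
  · by_cases h : sndc D = (fun _ => none)
    · rw [if_pos h] at hD
      exact hP D (h3 _ hD) h
    · rw [if_neg h] at hD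
      exact absurd rfl hD

theorem Rep_snd (c₂ : Fin n₂ → ℝ) (M : ℝ) (P₂ : Col n₂ κ → Prop) (P : Col (n₁ + n₂) κ → Prop)
    (F : Col n₂ κ → ℝ) (hP : ∀ D : Col (n₁ + n₂) κ, P₂ (sndc D) → fstc D = (fun _ => none) → P D)
    (hM : 0 ≤ M) (hc : ∀ i, 1 ≤ c₂ i)
    (h : Rep c₂ M P₂ F) : Rep (Fin.append (fun _ => 1) c₂) M P (fun x => F (sndc x)) := by
  classical
  obtain ⟨f, h1, h2, h3⟩ := h
  refine Rep_two (fun _ => 1) c₂ M P _ (fun D₁ D₂ => if D₁ = (fun _ => none) then f D₂ else 0)
    (fun x => ?_) (fun D₁ D₂ => ?_) fun D hD => ?_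
  · rw [h1, Finset.sum_eq_single (fun _ => none : Col n₁ κ)]
    · refine Finset.sum_congr rfl fun D₂ _ => ?_
      rw [if_pos rfl]
      simp [ind]
    · intro D₁ _ hD₁
      apply Finset.sum_eq_zero
      intro D₂ _
      rw [if_neg hD₁, zero_mul]
    · intro h
      exact absurd (mem_univ _) h
  · by_cases hD : D₁ = (fun _ => none)
    · subst hD
      rw [if_pos rfl, nu_noneD, one_mul]
      exact h2 D₂
    · rw [if_neg hD, abs_zero]
      exact mul_nonneg hM (mul_nonneg (nu_nn (fun i => by norm_num) _)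
        (nu_nn (fun i => by linarith [hc i]) _))
  · by_cases h : fstc D = (fun _ => none)
    · rw [if_pos h] at hD
      exact hP D (h3 _ hD) h
    · rw [if_neg h] at hD
      exact absurd rfl hD

/-- products of majorants of different colours -/
theorem Rep_prodR (p c : Fin n → ℝ) (hp : ∀ i, 1 ≤ p i) (hc : ∀ i, 1 ≤ c i) (Λ : ℝ) (hΛ : 1 ≤ Λ)
    (R : κ → Col n κ → ℝ)
    (hR : ∀ k, Rep c 1 (fun D => cols D ⊆ {k} ∧ qq p D ≤ Λ) (R k)) (S : Finset κ) :
    Rep (fun i => c i ^ S.card) 1 (fun D => cols D ⊆ S ∧ qq p D ≤ Λ ^ S.card)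
      (fun x => ∏ k ∈ S, R k x) := by
  induction S using Finset.induction_on with
  | empty =>
    simp only [Finset.prod_empty, Finset.card_empty, pow_zero]
    have := Rep_const (κ := κ) (fun _ : Fin n => (1:ℝ)) 1 (fun D => cols D ⊆ ∅ ∧ qq p D ≤ 1)
      ⟨by rw [cols_none], (qq_none p).le⟩ (fun _ => le_rfl)
    rwa [abs_one] at this
  | insert a S ha ih =>
    have h := Rep_mul (P'' := fun D => cols D ⊆ insert a S ∧ qq p D ≤ Λ ^ (insert a S).card) hc
      (fun i => one_le_pow₀ (hc i)) zero_le_one zero_le_one ?_ (hR a) ih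
    · rw [one_mul] at h
      have e1 : (fun i => c i * c i ^ S.card) = fun i => c i ^ (insert a S).card := by
        funext i
        rw [Finset.card_insert_of_notMem ha, pow_succ, mul_comm]
      have e2 : (fun x => R a x * ∏ k ∈ S, R k x) = fun x => ∏ k ∈ insert a S, R k x := by
        funext x
        rw [Finset.prod_insert ha]
      rw [e1, e2] at h
      exact h
    · rintro D D' ⟨h1, h2⟩ ⟨h3, h4⟩
      refine ⟨(cols_un_sub D D').trans ?_, (qq_un hp D D').trans ?_⟩
      · intro k hk
        rw [Finset.mem_union] at hk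
        rw [Finset.mem_insert]
        rcases hk with hk | hk
        · exact Or.inl (Finset.mem_singleton.1 (h1 hk))
        · exact Or.inr (h3 hk)
      · rw [Finset.card_insert_of_notMem ha, pow_succ, mul_comm (Λ ^ S.card)]
        exact mul_le_mul h2 h4 (zero_le_one.trans (one_le_qq hp D')) (by linarith)

theorem onS_inj (k : κ) {s t : Finset (Fin n)} (h : (onS k s : Col n κ) = onS k t) : s = t := by
  ext i
  have := congrFun h i
  unfold onS at this
  constructor
  · intro hi
    rw [if_pos hi] at this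
    by_contra hc
    rw [if_neg hc] at this
    exact absurd this (by simp)
  · intro hi
    rw [if_pos hi] at this
    by_contra hc
    rw [if_neg hc] at this
    exact absurd this (by simp)

theorem Rep_SSmask (bl : Fin n → ℕ) (j J : ℕ) (k : κ) (p : Fin n → ℝ) (b : ℝ) (hp : ∀ i, 1 ≤ p i)
    (hb : ∀ i, bl i = j → p i ≤ b) (hb1 : 1 ≤ b) :
    Rep (fun i => if bl i = j then 2 else 1) 1 (fun D => cols D ⊆ {k} ∧ qq p D ≤ b ^ J)
      (fun x : Col n κ => SS J k (mask bl j x)) := by
  classical
  set T : Finset (Finset (Fin n)) := univ.filter (fun s : Finset (Fin n) =>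
    s.card ≤ J ∧ ∀ i ∈ s, bl i = j) with hT
  refine ⟨fun D => ∑ s ∈ T, (-1 : ℝ) ^ s.card * (if onS k s = D then 1 else 0),
    fun x => ?_, fun D => ?_, fun D hD => ?_⟩
  · have e1 : ∑ D : Col n κ, (∑ s ∈ T, (-1 : ℝ) ^ s.card * (if onS k s = D then 1 else 0)) *
        ind D x = ∑ s ∈ T, (-1 : ℝ) ^ s.card * ind (onS k s) x := by
      simp_rw [Finset.sum_mul]
      rw [Finset.sum_comm]
      refine Finset.sum_congr rfl fun s _ => ?_
      rw [Finset.sum_eq_single (onS k s)]
      · rw [if_pos rfl, mul_one]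
      · intro D _ hD
        rw [if_neg (Ne.symm hD), mul_zero, zero_mul]
      · intro h
        exact absurd (mem_univ _) h
    rw [e1]
    unfold SS
    beta_reduce
    symm
    have e2 : T ⊆ univ.filter (fun s : Finset (Fin n) => s.card ≤ J) := by
      intro s hs
      rw [hT, Finset.mem_filter] at hs
      rw [Finset.mem_filter]
      exact ⟨Finset.mem_univ _, hs.2.1⟩
    rw [← Finset.sum_subset e2]
    · refine Finset.sum_congr rfl fun s hs => ?_
      rw [hT, Finset.mem_filter] at hs
      rw [ind_onS]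
      congr 1
      have e3 : (∀ i ∈ s, mask bl j x i = some k) ↔ ∀ i ∈ s, x i = some k := by
        constructor
        · intro h i hi
          exact ((mask_iff bl j x i k).1 (h i hi)).2
        · intro h i hi
          rw [mask_iff]
          exact ⟨hs.2.2 i hi, h i hi⟩
      by_cases h : ∀ i ∈ s, x i = some k
      · rw [if_pos h, if_pos (e3.2 h)]
      · rw [if_neg h, if_neg (fun h' => h (e3.1 h'))]
    · intro s hs hs'
      rw [Finset.mem_filter] at hs
      rw [hT, Finset.mem_filter] at hs'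
      rw [if_neg, mul_zero]
      intro h
      apply hs'
      exact ⟨Finset.mem_univ _, hs.2, fun i hi => ((mask_iff bl j x i k).1 (h i hi)).1⟩
  · beta_reduce
    rw [one_mul]
    by_cases hex : ∃ s ∈ T, onS k s = D
    · obtain ⟨s, hs, rfl⟩ := hex
      rw [Finset.sum_eq_single s]
      · rw [if_pos rfl, mul_one, abs_pow, abs_neg, abs_one, one_pow]
        rw [hT, Finset.mem_filter] at hs
        unfold nu
        calc (1:ℝ) = ∏ _i : Fin n, (1:ℝ) := by simp
          _ ≤ _ := Finset.prod_le_prod (fun _ _ => zero_le_one) fun i _ => ?_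
        unfold onS
        by_cases hi : i ∈ s
        · rw [if_pos hi]
          simp only [nu1]
          rw [if_pos (hs.2.2 i hi)]
          norm_num
        · rw [if_neg hi]
          simp [nu1]
      · intro t _ ht
        rw [if_neg (fun h => ht (onS_inj k h)), mul_zero]
      · intro h
        exact absurd hs h
    · push Not at hex
      rw [Finset.sum_eq_zero, abs_zero]
      · apply nu_nn
        intro i
        split_ifs <;> norm_num
      · intro s hs
        rw [if_neg (hex s hs), mul_zero]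
  · obtain ⟨s, hs, hs2⟩ := Finset.exists_ne_zero_of_sum_ne_zero hD
    have hs3 : onS k s = D := by
      by_contra h
      rw [if_neg h] at hs2
      simp at hs2
    rw [hT, Finset.mem_filter] at hs
    rw [← hs3]
    refine ⟨cols_onS_sub k s, ?_⟩
    rw [qq_onS]
    calc ∏ i ∈ s, p i ≤ ∏ i ∈ s, b := by
          apply Finset.prod_le_prod
          · intro i _
            exact le_trans zero_le_one (hp i)
          · intro i hi
            exact hb i (hs.2.2 i hi)
      _ = b ^ s.card := by rw [Finset.prod_const]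
      _ ≤ b ^ J := pow_le_pow_right₀ hb1 hs.2.1

theorem Rep_BHk (bl : Fin n → ℕ) (B : ℕ) (Mj : ℕ → ℕ) (k : κ) (p : Fin n → ℝ) (b : ℕ → ℝ)
    (hp : ∀ i, 1 ≤ p i) (hb : ∀ i, p i ≤ b (bl i)) (hb1 : ∀ j, 1 ≤ b j) :
    Rep (fun _ => 2) 1 (fun D => cols D ⊆ {k} ∧ qq p D ≤ ∏ j ∈ range B, b j ^ (Mj j))
      (BHk bl B Mj k : Col n κ → ℝ) := by
  classical
  have key : ∀ B : ℕ, Rep (fun i => ∏ j ∈ range B, if bl i = j then (2:ℝ) else 1) 1
      (fun D => cols D ⊆ {k} ∧ qq p D ≤ ∏ j ∈ range B, b j ^ (Mj j))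
      (fun x : Col n κ => ∏ j ∈ range B, SS (Mj j) k (mask bl j x)) := by
    intro B
    induction B with
    | zero =>
      simp only [Finset.range_zero, Finset.prod_empty]
      have := Rep_const (κ := κ) (fun _ : Fin n => (1:ℝ)) 1 (fun D => cols D ⊆ {k} ∧ qq p D ≤ 1)
        ⟨by rw [cols_none]; exact Finset.empty_subset _, (qq_none p).le⟩ (fun _ => le_rfl)
      rwa [abs_one] at this
    | succ B ih =>
      have h1 := Rep_SSmask bl B (Mj B) k p (b B) hp (fun i hi => hi ▸ hb i) (hb1 B)
      have h := Rep_mul (P'' := fun D : Col n κ => cols D ⊆ {k} ∧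
        qq p D ≤ ∏ j ∈ range (B + 1), b j ^ (Mj j)) (fun i => ?_) (fun i => ?_)
        zero_le_one zero_le_one ?_ ih h1
      · rw [one_mul] at h
        have e1 : (fun i => (∏ j ∈ range B, if bl i = j then (2:ℝ) else 1) *
            (if bl i = B then (2:ℝ) else 1)) =
            fun i => ∏ j ∈ range (B + 1), if bl i = j then (2:ℝ) else 1 := by
          funext i
          rw [Finset.prod_range_succ]
        have e2 : (fun x : Col n κ => (∏ j ∈ range B, SS (Mj j) k (mask bl j x)) *
            SS (Mj B) k (mask bl B x)) = fun x => ∏ j ∈ range (B + 1), SS (Mj j) k (mask bl j x) := by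
          funext x
          rw [Finset.prod_range_succ]
        rw [e1, e2] at h
        exact h
      · calc (1:ℝ) = ∏ _j ∈ range B, (1:ℝ) := by simp
          _ ≤ _ := Finset.prod_le_prod (fun _ _ => zero_le_one) fun j _ => ?_
        split_ifs <;> norm_num
      · split_ifs <;> norm_num
      · rintro D D' ⟨h3, h4⟩ ⟨h5, h6⟩
        refine ⟨(cols_un_sub D D').trans (Finset.union_subset h3 h5), (qq_un hp D D').trans ?_⟩
        rw [Finset.prod_range_succ]
        apply mul_le_mul h4 h6 (zero_le_one.trans (one_le_qq hp D'))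
        apply Finset.prod_nonneg
        intro j _
        have := hb1 j
        positivity
  have h := key B
  unfold BHk
  refine Rep_mono (fun i => ?_) (fun i => ?_) zero_le_one le_rfl (fun D hD => hD) h
  · calc (1:ℝ) = ∏ _j ∈ range B, (1:ℝ) := by simp
      _ ≤ _ := Finset.prod_le_prod (fun _ _ => zero_le_one) fun j _ => ?_
    split_ifs <;> norm_num
  · rw [Finset.prod_ite_eq]
    split_ifs <;> norm_num

/-- number of small sets of colours -/
theorem card_smallκ (r : ℕ) :
    (univ.filter (fun s : Finset κ => s.card ≤ r)).card ≤ (Fintype.card κ + 1) ^ r := by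
  induction r with
  | zero =>
    have h1 : (univ.filter (fun s : Finset κ => s.card ≤ 0)) = {∅} := by
      ext s
      simp
    rw [h1]
    simp
  | succ J ih =>
    have h1 : (univ.filter (fun s : Finset κ => s.card ≤ J + 1)) ⊆
        (univ.filter (fun s : Finset κ => s.card ≤ J)) ∪ powersetCard (J + 1) univ := by
      intro s hs
      simp only [mem_filter, mem_univ, true_and, mem_union, mem_powersetCard, subset_univ] at hs ⊢
      omega
    have h2 := (Finset.card_le_card h1).trans (Finset.card_union_le _ _)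
    rw [Finset.card_powersetCard, Finset.card_univ] at h2
    have h3 : (Fintype.card κ).choose (J + 1) ≤ (Fintype.card κ) ^ (J + 1) :=
      Nat.choose_le_pow _ (J + 1)
    have h4 : (Fintype.card κ) ^ (J + 1) ≤ (Fintype.card κ) * (Fintype.card κ + 1) ^ J := by
      rw [pow_succ, mul_comm]
      exact Nat.mul_le_mul_left _ (Nat.pow_le_pow_left (Nat.le_succ _) J)
    calc (univ.filter (fun s : Finset κ => s.card ≤ J + 1)).card
        ≤ (Fintype.card κ + 1) ^ J + (Fintype.card κ) * (Fintype.card κ + 1) ^ J := by omega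
      _ = (Fintype.card κ + 1) ^ (J + 1) := by ring

/-- sums over assignments with few colours of products with a fixed local factor -/
theorem sum_few (t : Fin n → Option κ → ℝ) (ht : ∀ i c, 0 ≤ t i c) (r : ℕ) (G : ℝ)
    (hG : ∀ A : Finset κ, A.card ≤ r → ∏ i, (t i none + ∑ k ∈ A, t i (some k)) ≤ G) (hG0 : 0 ≤ G) :
    ∑ D : Col n κ with (cols D).card ≤ r, ∏ i, t i (D i) ≤ ((Fintype.card κ : ℝ) + 1) ^ r * G := by
  classical
  have h1 : ∑ D : Col n κ with (cols D).card ≤ r, ∏ i, t i (D i) ≤
      ∑ A : Finset κ with A.card ≤ r, ∑ D : Col n κ with cols D ⊆ A, ∏ i, t i (D i) := by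
    have e1 : ∀ D ∈ (univ.filter (fun D : Col n κ => (cols D).card ≤ r)),
        cols D ∈ univ.filter (fun A : Finset κ => A.card ≤ r) := by
      intro D hD
      rw [Finset.mem_filter] at hD ⊢
      exact ⟨Finset.mem_univ _, hD.2⟩
    rw [← Finset.sum_fiberwise_of_maps_to e1]
    apply Finset.sum_le_sum
    intro A hA
    apply Finset.sum_le_sum_of_subset_of_nonneg
    · intro D hD
      rw [Finset.mem_filter] at hD ⊢
      exact ⟨Finset.mem_univ _, hD.2.le⟩
    · intro D _ _
      exact Finset.prod_nonneg fun i _ => ht i _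
  have h2 : ∀ A : Finset κ, ∑ D : Col n κ with cols D ⊆ A, ∏ i, t i (D i) ≤
      ∏ i, (t i none + ∑ k ∈ A, t i (some k)) := by
    intro A
    have e1 : ∀ i : Fin n, t i none + ∑ k ∈ A, t i (some k) =
        ∑ c ∈ insert none (A.map Function.Embedding.some), t i c := by
      intro i
      rw [Finset.sum_insert (by simp), Finset.sum_map]
      rfl
    rw [Finset.prod_congr rfl fun i _ => e1 i, Finset.prod_univ_sum]
    apply Finset.sum_le_sum_of_subset_of_nonneg
    · intro D hD
      rw [Finset.mem_filter] at hD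
      rw [Fintype.mem_piFinset]
      intro i
      rw [Finset.mem_insert, Finset.mem_map]
      cases hDi : D i with
      | none => exact Or.inl rfl
      | some k =>
        right
        refine ⟨k, hD.2 ?_, rfl⟩
        rw [mem_cols]
        exact ⟨i, mem_fib.2 hDi⟩
    · intro D _ _
      exact Finset.prod_nonneg fun i _ => ht i _
  refine h1.trans ?_
  calc ∑ A : Finset κ with A.card ≤ r, ∑ D : Col n κ with cols D ⊆ A, ∏ i, t i (D i)
      ≤ ∑ A : Finset κ with A.card ≤ r, G := by
        apply Finset.sum_le_sum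
        intro A hA
        exact (h2 A).trans (hG A (Finset.mem_filter.1 hA).2)
    _ = ((univ.filter (fun A : Finset κ => A.card ≤ r)).card : ℝ) * G := by
        rw [Finset.sum_const, nsmul_eq_mul]
    _ ≤ ((Fintype.card κ : ℝ) + 1) ^ r * G := by
        apply mul_le_mul_of_nonneg_right _ hG0
        have := card_smallκ (κ := κ) r
        exact_mod_cast this

theorem exp_prod (g : Fin n → ℝ) (a : ℝ) (ha : 0 ≤ a) (hg : ∀ i, 0 ≤ g i) :
    ∏ i, (1 + a * g i) ≤ Real.exp (a * ∑ i, g i) := by
  rw [Finset.mul_sum, Real.exp_sum]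
  apply Finset.prod_le_prod
  · intro i _
    have := mul_nonneg ha (hg i)
    linarith
  · intro i _
    rw [add_comm]
    exact Real.add_one_le_exp _

/-- the sieve weight -/
theorem Rep_V5 (g₂ : Fin n₂ → ℝ) (hg0 : ∀ i, 0 ≤ g₂ i) (p₁ : Fin n₁ → ℝ) (p : Fin n₂ → ℝ)
    (hp₁ : ∀ i, 1 ≤ p₁ i) (hp : ∀ i, 1 ≤ p i)
    (y : Col n₂ κ → ℝ) (hy : ∀ D, |y D| ≤ 1) (Q : ℝ) (hQ : ∀ D, y D ≠ 0 → qq p D ≤ Q)
    (R : κ → Col n₁ κ → ℝ) (Λ : ℝ) (hΛ : 1 ≤ Λ)
    (hR : ∀ k, Rep (fun _ => 2) 1 (fun D => cols D ⊆ {k} ∧ qq p₁ D ≤ Λ) (R k)) (r : ℕ)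
    (hr : ∀ D, y D ≠ 0 → (cols D).card ≤ r) :
    Rep (Fin.append (fun _ => (2:ℝ) ^ r) (fun _ => 2))
      (((Fintype.card κ : ℝ) + 1) ^ r * Real.exp (r * ∑ i, g₂ i))
      (fun D : Col (n₁ + n₂) κ => (cols (fstc D) ∪ cols (sndc D)).card ≤ r ∧
        qq p₁ (fstc D) ≤ Λ ^ r ∧ qq p (sndc D) ≤ Q)
      (fun x => V5 g₂ y R (fstc x) (sndc x)) := by
  classical
  have hRS := fun S : Finset κ => Rep_prodR p₁ (fun _ => 2) hp₁ (fun _ => by norm_num) Λ hΛ R hR S
  choose fR hR1 hR2 hR3 using hRS
  set M : ℝ := ((Fintype.card κ : ℝ) + 1) ^ r * Real.exp (r * ∑ i, g₂ i) with hM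
  -- nonzero coefficients
  have hcf : ∀ (D E : Col n₂ κ), ∏ i, cf (g₂ i) (D i) (E i) ≠ 0 → ∀ i, E i = D i ∨ E i = none := by
    intro D E h i
    have h4 : cf (g₂ i) (D i) (E i) ≠ 0 := fun h5 => h (Finset.prod_eq_zero (Finset.mem_univ i) h5)
    unfold cf at h4
    cases hDi : D i with
    | none =>
      rw [hDi] at h4
      by_cases h7 : E i = none
      · right; exact h7
      · simp [h7] at h4
    | some k =>
      rw [hDi] at h4
      by_cases h7 : E i = some k
      · left; exact h7
      · by_cases h8 : E i = none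
        · right; exact h8
        · simp [h7, h8] at h4
  refine Rep_two _ _ M _ _ (fun T E => ∑ D, y D * fR (cols D) T * ∏ i, cf (g₂ i) (D i) (E i))
    (fun x => ?_) (fun T E => ?_) fun D hD => ?_
  · unfold V5 VV
    have e1 : ∀ D : Col n₂ κ, y D * (∏ k ∈ cols D, R k (fstc x)) * psi g₂ D (sndc x) =
        ∑ T, ∑ E, (y D * fR (cols D) T * ∏ i, cf (g₂ i) (D i) (E i)) *
          (ind T (fstc x) * ind E (sndc x)) := by
      intro D
      have e0 : ∏ k ∈ cols D, R k (fstc x) = ∑ T, fR (cols D) T * ind T (fstc x) :=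
        hR1 (cols D) (fstc x)
      rw [e0, psi_eq, mul_assoc, Finset.sum_mul_sum, Finset.mul_sum]
      refine Finset.sum_congr rfl fun T _ => ?_
      rw [Finset.mul_sum]
      refine Finset.sum_congr rfl fun E _ => ?_
      ring
    rw [Finset.sum_congr rfl fun D _ => e1 D, Finset.sum_comm]
    refine Finset.sum_congr rfl fun T _ => ?_
    rw [Finset.sum_comm]
    refine Finset.sum_congr rfl fun E _ => ?_
    rw [Finset.sum_mul]
  · have hν0 : 0 ≤ nu (fun _ => (2:ℝ) ^ r - 1) T := nu_nn (fun _ => by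
      have : (1:ℝ) ≤ 2 ^ r := one_le_pow₀ (by norm_num)
      linarith) T
    have e1 : |∑ D, y D * fR (cols D) T * ∏ i, cf (g₂ i) (D i) (E i)| ≤
        ∑ D : Col n₂ κ with (cols D).card ≤ r, nu (fun _ => (2:ℝ) ^ r - 1) T *
          ∏ i, |cf (g₂ i) (D i) (E i)| := by
      rw [Finset.sum_filter]
      refine (Finset.abs_sum_le_sum_abs _ _).trans (Finset.sum_le_sum fun D _ => ?_)
      by_cases h0 : y D = 0
      · rw [h0, zero_mul, zero_mul, abs_zero]
        split_ifs
        · exact mul_nonneg hν0 (Finset.prod_nonneg fun i _ => abs_nonneg _)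
        · exact le_rfl
      · have hc := hr D h0
        rw [if_pos hc, abs_mul, abs_mul, Finset.abs_prod]
        apply mul_le_mul_of_nonneg_right _ (Finset.prod_nonneg fun i _ => abs_nonneg _)
        have h5 := hR2 (cols D) T
        rw [one_mul] at h5
        have h6 : nu (fun _ : Fin n₁ => (2:ℝ) ^ (cols D).card - 1) T ≤
            nu (fun _ => (2:ℝ) ^ r - 1) T := by
          apply nu_le
          · intro _
            have : (1:ℝ) ≤ 2 ^ (cols D).card := one_le_pow₀ (by norm_num)
            linarith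
          · intro _
            have : (2:ℝ) ^ (cols D).card ≤ 2 ^ r := pow_le_pow_right₀ (by norm_num) hc
            linarith
        calc |y D| * |fR (cols D) T| ≤ 1 * |fR (cols D) T| :=
              mul_le_mul_of_nonneg_right (hy D) (abs_nonneg _)
          _ ≤ _ := by
              rw [one_mul]
              exact h5.trans h6
    refine e1.trans ?_
    rw [← Finset.mul_sum]
    have e2 : ∑ D : Col n₂ κ with (cols D).card ≤ r, ∏ i, |cf (g₂ i) (D i) (E i)| ≤
        ((Fintype.card κ : ℝ) + 1) ^ r * Real.exp (r * ∑ i, g₂ i) := by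
      refine sum_few (fun i c => |cf (g₂ i) c (E i)|) (fun i c => abs_nonneg _) r _ ?_
        (Real.exp_pos _).le
      intro A hA
      calc ∏ i, (|cf (g₂ i) none (E i)| + ∑ k ∈ A, |cf (g₂ i) (some k) (E i)|)
          ≤ ∏ i, (1 + r * g₂ i) := by
            apply Finset.prod_le_prod
            · intro i _
              exact add_nonneg (abs_nonneg _) (Finset.sum_nonneg fun k _ => abs_nonneg _)
            · intro i _
              have hg := hg0 i
              cases hE : E i with
              | none =>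
                have h5 : ∀ k ∈ A, |cf (g₂ i) (some k) none| = g₂ i := by
                  intro k _
                  simp [cf, abs_of_nonneg hg]
                rw [Finset.sum_congr rfl h5, Finset.sum_const, nsmul_eq_mul]
                have h6 : |cf (κ := κ) (g₂ i) none none| = 1 := by simp [cf]
                rw [h6]
                have h7 : (A.card : ℝ) ≤ r := by exact_mod_cast hA
                have := mul_le_mul_of_nonneg_right h7 hg
                linarith
              | some l =>
                have h5 : ∀ k ∈ A, |cf (g₂ i) (some k) (some l)| = if k = l then 1 else 0 := by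
                  intro k _
                  by_cases hk : k = l
                  · subst hk
                    simp [cf]
                  · have hk' : ¬ l = k := fun h => hk h.symm
                    simp [cf, hk, hk']
                rw [Finset.sum_congr rfl h5]
                have h6 : |cf (κ := κ) (g₂ i) none (some l)| = 0 := by simp [cf]
                rw [h6, Finset.sum_ite_eq']
                have : 0 ≤ (r:ℝ) * g₂ i := by positivity
                split_ifs <;> linarith
        _ ≤ Real.exp (r * ∑ i, g₂ i) := exp_prod g₂ r (Nat.cast_nonneg _) hg0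
    calc nu (fun _ => (2:ℝ) ^ r - 1) T * ∑ D : Col n₂ κ with (cols D).card ≤ r,
          ∏ i, |cf (g₂ i) (D i) (E i)| ≤ nu (fun _ => (2:ℝ) ^ r - 1) T * M :=
          mul_le_mul_of_nonneg_left e2 hν0
      _ = M * (nu (fun _ => (2:ℝ) ^ r - 1) T * nu (fun _ => (2:ℝ) - 1) E) := by
          have : nu (fun _ : Fin n₂ => (2:ℝ) - 1) E = 1 := by
            unfold nu
            apply Finset.prod_eq_one
            intro i _
            cases E i with
            | none => simp [nu1]
            | some k => simp [nu1]; norm_num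
          rw [this]
          ring
  · obtain ⟨D', _, hD'⟩ := Finset.exists_ne_zero_of_sum_ne_zero hD
    have hy0 : y D' ≠ 0 := left_ne_zero_of_mul (left_ne_zero_of_mul hD')
    have hf0 : fR (cols D') (fstc D) ≠ 0 := right_ne_zero_of_mul (left_ne_zero_of_mul hD')
    have hc0 := hcf D' (sndc D) (right_ne_zero_of_mul hD')
    obtain ⟨h5, h6⟩ := hR3 (cols D') (fstc D) hf0
    have hr' := hr D' hy0
    refine ⟨?_, ?_, ?_⟩
    · refine (Finset.card_le_card (Finset.union_subset h5 ?_)).trans hr'
      intro k hk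
      rw [mem_cols] at hk ⊢
      obtain ⟨i, hi⟩ := hk
      rw [mem_fib] at hi
      refine ⟨i, mem_fib.2 ?_⟩
      rcases hc0 i with h7 | h7
      · rw [← h7]; exact hi
      · rw [h7] at hi; exact absurd hi (by simp)
    · exact h6.trans (pow_le_pow_right₀ hΛ hr')
    · refine le_trans ?_ (hQ D' hy0)
      unfold qq
      apply Finset.prod_le_prod
      · intro i _
        exact le_trans zero_le_one (nu1_ge_one (p i) (hp i) _)
      · intro i _
        rcases hc0 i with h7 | h7
        · rw [h7]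
        · rw [h7]
          exact nu1_ge_one (p i) (hp i) (D' i)

end Pool.Agent.L5helper1.IS
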