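import Pool.Agent.H378R2.M7m
import Pool.Agent.L5helper1.AS.Avg

set_option autoImplicit false
set_option linter.unusedSectionVars false
set_option linter.unusedVariables false
set_option maxHeartbeats 4000000

/-! # Small lemmas for the theorem on linear forms at primes -/

namespace Pool.Agent.L5helper1.IS

open Finset Filter Pool.Agent.H378R2

open scoped Classical

/-- trivial bound for the measure of a class modulo `W p` -/
theorem bad_meas (X : ℝ) (hX : 4 ≤ X) (W p a0 : ℕ) (hW : 0 < W) (hp : p.Prime) (hpW : ¬ p ∣ W) (c : ℤ) :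
    ∑ n ∈ ((Icc 1 ⌊3 * X⌋₊).filter (fun n => n ≡ a0 [MOD W])).filter (fun n : ℕ => (p : ℤ) ∣ (n : ℤ) - c),
      Phi (n / X) * ArithmeticFunction.vonMangoldt n ≤ (3 * X / (W * p) + 1) * Real.log (3 * X) := by
  set S := ((Icc 1 ⌊3 * X⌋₊).filter (fun n => n ≡ a0 [MOD W])).filter (fun n : ℕ => (p : ℤ) ∣ (n : ℤ) - c) with hS
  have hX0 : 0 < X := by linarith
  have hp0 : 0 < p := hp.pos
  have hWp : 0 < W * p := Nat.mul_pos hW hp0
  have hcop : Nat.Coprime W p := (Nat.Coprime.symm ((Nat.Prime.coprime_iff_not_dvd hp).2 hpW))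
  have hcard : (S.card : ℝ) ≤ 3 * X / (W * p) + 1 := by
    have h1 : S.card ≤ (range (⌊3 * X⌋₊ / (W * p) + 1)).card := by
      apply Finset.card_le_card_of_injOn (fun n => n / (W * p))
      · intro n hn
        have hn' : n ∈ S := hn
        rw [hS, Finset.mem_filter, Finset.mem_filter, Finset.mem_Icc] at hn'
        rw [Finset.mem_coe, Finset.mem_range]
        exact Nat.lt_succ_of_le (Nat.div_le_div_right hn'.1.1.2)
      · intro n hn m hm h
        have hn' : n ∈ S := hn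
        have hm' : m ∈ S := hm
        rw [hS, Finset.mem_filter, Finset.mem_filter] at hn' hm'
        have e1 : n ≡ m [MOD W] := hn'.1.2.trans hm'.1.2.symm
        have e2 : n ≡ m [MOD p] := by
          have : (p : ℤ) ∣ (m : ℤ) - n := by
            have := dvd_sub hm'.2 hn'.2
            have h3 : (m : ℤ) - c - ((n : ℤ) - c) = (m : ℤ) - n := by ring
            rwa [h3] at this
          exact (Nat.modEq_iff_dvd).2 this
        have e3 : n ≡ m [MOD W * p] := (Nat.modEq_and_modEq_iff_modEq_mul hcop).1 ⟨e1, e2⟩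
        simp only at h
        have e4 := Nat.div_add_mod n (W * p)
        have e5 := Nat.div_add_mod m (W * p)
        rw [← e4, ← e5, h, e3]
    rw [Finset.card_range] at h1
    have h2 : (S.card : ℝ) ≤ ((⌊3 * X⌋₊ / (W * p) : ℕ) : ℝ) + 1 := by exact_mod_cast h1
    have h3 : ((⌊3 * X⌋₊ / (W * p) : ℕ) : ℝ) ≤ (⌊3 * X⌋₊ : ℝ) / ((W * p : ℕ) : ℝ) := Nat.cast_div_le
    have h4 : (⌊3 * X⌋₊ : ℝ) ≤ 3 * X := Nat.floor_le (by positivity)
    have h5 : (⌊3 * X⌋₊ : ℝ) / ((W * p : ℕ) : ℝ) ≤ 3 * X / (W * p) := by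
      push_cast
      exact div_le_div_of_nonneg_right h4 (by positivity)
    linarith
  have hlog : 0 ≤ Real.log (3 * X) := Real.log_nonneg (by linarith)
  calc ∑ n ∈ S, Phi (n / X) * ArithmeticFunction.vonMangoldt n ≤ ∑ _n ∈ S, Real.log (3 * X) := by
        apply Finset.sum_le_sum
        intro n hn
        rw [hS, Finset.mem_filter, Finset.mem_filter, Finset.mem_Icc] at hn
        have hn1 : (1 : ℝ) ≤ n := by exact_mod_cast hn.1.1.1
        have hn2 : (n : ℝ) ≤ 3 * X :=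
          (by exact_mod_cast hn.1.1.2 : (n : ℝ) ≤ (⌊3 * X⌋₊ : ℝ)).trans (Nat.floor_le (by positivity))
        have e1 : ArithmeticFunction.vonMangoldt n ≤ Real.log (3 * X) :=
          (vonMangoldt_le_log' n).trans (Real.log_le_log (by linarith) hn2)
        calc Phi (n / X) * ArithmeticFunction.vonMangoldt n ≤ 1 * Real.log (3 * X) :=
              mul_le_mul (Phi_le_one _) e1 ArithmeticFunction.vonMangoldt_nonneg (by norm_num)
          _ = Real.log (3 * X) := one_mul _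
    _ = (S.card : ℝ) * Real.log (3 * X) := by rw [Finset.sum_const, nsmul_eq_mul]
    _ ≤ _ := mul_le_mul_of_nonneg_right hcard hlog

/-- the roots of the forms modulo the good primes -/
theorem res_exists (κ : Type) (F : κ → ℤ × ℤ) (Bad : ℕ → Prop)
    (h : ∀ p : ℕ, p.Prime → ¬ Bad p → ∀ k, ¬ (p : ℤ) ∣ (F k).1 ∧ ¬ (p : ℤ) ∣ (F k).2 ∧
        ∀ l, k ≠ l → ¬ (p : ℤ) ∣ (F k).1 * (F l).2 - (F l).1 * (F k).2) :
    ∃ res : ℕ → κ → ℤ, ∀ p : ℕ, p.Prime → ¬ Bad p →
      (∀ k, ∀ n : ℤ, (p : ℤ) ∣ n - res p k ↔ (p : ℤ) ∣ (F k).1 * n + (F k).2) ∧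
      (∀ k, ¬ (p : ℤ) ∣ res p k) ∧ (∀ k l, k ≠ l → ¬ (p : ℤ) ∣ res p k - res p l) := by
  have h1 : ∀ p : ℕ, ∀ k : κ, ∃ r : ℤ, p.Prime → ¬ Bad p →
      ∀ n : ℤ, (p : ℤ) ∣ n - r ↔ (p : ℤ) ∣ (F k).1 * n + (F k).2 := by
    intro p k
    by_cases hp : p.Prime
    · by_cases hb : Bad p
      · exact ⟨0, fun _ h => absurd hb h⟩
      · have h2 := (h p hp hb k).1
        have hpi : Prime (p : ℤ) := Nat.prime_iff_prime_int.1 hp
        have h3 : IsCoprime (p : ℤ) (F k).1 := (Prime.coprime_iff_not_dvd hpi).2 h2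
        obtain ⟨u, v, huv⟩ := h3
        refine ⟨-(F k).2 * v, fun _ _ n => ?_⟩
        constructor
        · intro hd
          have h4 : (F k).1 * n + (F k).2 = (F k).1 * (n - -(F k).2 * v) + (p : ℤ) * ((F k).2 * u) := by
            linear_combination (-(F k).2) * huv
          rw [h4]
          exact dvd_add (Dvd.dvd.mul_left hd _) (Dvd.intro _ rfl)
        · intro hd
          have h4 : n - -(F k).2 * v = v * ((F k).1 * n + (F k).2) + (p : ℤ) * (u * n) := by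
            linear_combination (-n) * huv
          rw [h4]
          exact dvd_add (Dvd.dvd.mul_left hd _) (Dvd.intro _ rfl)
    · exact ⟨0, fun h => absurd h hp⟩
  choose res hres using h1
  refine ⟨res, fun p hp hb => ⟨fun k => hres p k hp hb, fun k hd => ?_, fun k l hkl hd => ?_⟩⟩
  · have h2 := (hres p k hp hb 0).1 (by rw [zero_sub]; exact (dvd_neg).2 hd)
    rw [mul_zero, zero_add] at h2
    exact (h p hp hb k).2.1 h2
  · have h2 := (hres p k hp hb (res p k)).1 (by rw [sub_self]; exact dvd_zero _)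
    have h3 := (hres p l hp hb (res p k)).1 hd
    apply (h p hp hb k).2.2 l hkl
    have h4 : (F k).1 * (F l).2 - (F l).1 * (F k).2 =
        (F k).1 * ((F l).1 * res p k + (F l).2) - (F l).1 * ((F k).1 * res p k + (F k).2) := by ring
    rw [h4]
    exact dvd_sub (Dvd.dvd.mul_left h3 _) (Dvd.dvd.mul_left h2 _)

/-- prime factors above `w` -/
noncomputable def pfw (w : ℝ) (m : ℤ) : Finset ℕ := (m.natAbs.primeFactors).filter (fun p : ℕ => w < (p:ℝ))

theorem pfw_card (w V : ℝ) (hw : Real.exp 1 ≤ w) (m : ℤ) (hm : m ≠ 0) (hV : |(m:ℝ)| ≤ Real.exp V) :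
    ((pfw w m).card : ℝ) ≤ V := by
  unfold pfw
  apply Pool.Agent.L5helper1.AS.big_factors w V hw _ (Int.natAbs_ne_zero.2 hm)
  rw [Nat.cast_natAbs]
  push_cast
  exact hV

theorem mem_pfw {w : ℝ} {m : ℤ} {p : ℕ} (hp : p.Prime) (hw : w < p) (hm : m ≠ 0) (hd : (p : ℤ) ∣ m) :
    p ∈ pfw w m := by
  unfold pfw
  rw [Finset.mem_filter, Nat.mem_primeFactors]
  exact ⟨⟨hp, Int.natCast_dvd.1 hd, Int.natAbs_ne_zero.2 hm⟩, hw⟩

theorem exc_primes (F : Finset (ℤ × ℤ)) (w V : ℝ) (hw : Real.exp 1 ≤ w) (hV : 0 ≤ V)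
    (h0 : ∀ f ∈ F, f.1 ≠ 0 ∧ f.2 ≠ 0)
    (hF : ∀ f ∈ F, |(f.1 : ℝ)| ≤ Real.exp V ∧ |(f.2 : ℝ)| ≤ Real.exp V)
    (hp : ∀ f ∈ F, ∀ g ∈ F, f ≠ g → f.1 * g.2 - g.1 * f.2 ≠ 0) :
    ∃ E : Finset ℕ, (E.card : ℝ) ≤ ((F.card : ℝ) ^ 2 + 2 * F.card) * (2 * V + 1) ∧
      ∀ p : ℕ, p.Prime → w < p → p ∉ E → ∀ f ∈ F, ¬ (p : ℤ) ∣ f.1 ∧ ¬ (p : ℤ) ∣ f.2 ∧
        ∀ g ∈ F, f ≠ g → ¬ (p : ℤ) ∣ f.1 * g.2 - g.1 * f.2 := by
  set E₁ : Finset ℕ := F.biUnion (fun f => pfw w f.1 ∪ pfw w f.2) with hE₁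
  set E₂ : Finset ℕ := (F ×ˢ F).biUnion (fun q => if q.1 = q.2 then ∅ else
    pfw w (q.1.1 * q.2.2 - q.2.1 * q.1.2)) with hE₂
  refine ⟨E₁ ∪ E₂, ?_, ?_⟩
  · have h1 : (E₁.card : ℝ) ≤ (F.card : ℝ) * (2 * V) := by
      have e1 : (E₁.card : ℝ) ≤ ∑ f ∈ F, ((pfw w f.1 ∪ pfw w f.2).card : ℝ) := by
        exact_mod_cast Finset.card_biUnion_le
      refine e1.trans ?_
      have e2 : ∑ f ∈ F, ((pfw w f.1 ∪ pfw w f.2).card : ℝ) ≤ ∑ _f ∈ F, 2 * V := by
        apply Finset.sum_le_sum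
        intro f hf
        have e3 : ((pfw w f.1 ∪ pfw w f.2).card : ℝ) ≤ ((pfw w f.1).card : ℝ) + ((pfw w f.2).card : ℝ) := by
          exact_mod_cast Finset.card_union_le _ _
        have e4 := pfw_card w V hw f.1 (h0 f hf).1 (hF f hf).1
        have e5 := pfw_card w V hw f.2 (h0 f hf).2 (hF f hf).2
        linarith
      refine e2.trans (le_of_eq ?_)
      rw [Finset.sum_const, nsmul_eq_mul]
    have h2 : (E₂.card : ℝ) ≤ (F.card : ℝ) ^ 2 * (2 * V + 1) := by
      have e1 : (E₂.card : ℝ) ≤ ∑ q ∈ F ×ˢ F, ((if q.1 = q.2 then ∅ else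
          pfw w (q.1.1 * q.2.2 - q.2.1 * q.1.2) : Finset ℕ).card : ℝ) := by
        exact_mod_cast Finset.card_biUnion_le
      refine e1.trans ?_
      have e2 : ∑ q ∈ F ×ˢ F, ((if q.1 = q.2 then ∅ else
          pfw w (q.1.1 * q.2.2 - q.2.1 * q.1.2) : Finset ℕ).card : ℝ) ≤ ∑ _q ∈ F ×ˢ F, (2 * V + 1) := by
        apply Finset.sum_le_sum
        rintro ⟨f, g⟩ hq
        rw [Finset.mem_product] at hq
        simp only at hq ⊢
        split_ifs with h
        · rw [Finset.card_empty]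
          push_cast
          linarith
        · apply pfw_card w (2 * V + 1) hw _ (hp f hq.1 g hq.2 h)
          push_cast
          have e3 := hF f hq.1
          have e4 := hF g hq.2
          have e5 : |(f.1 : ℝ) * g.2| ≤ Real.exp V * Real.exp V := by
            rw [abs_mul]
            exact mul_le_mul e3.1 e4.2 (abs_nonneg _) (Real.exp_pos _).le
          have e6 : |(g.1 : ℝ) * f.2| ≤ Real.exp V * Real.exp V := by
            rw [abs_mul]
            exact mul_le_mul e4.1 e3.2 (abs_nonneg _) (Real.exp_pos _).le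
          have e7 : Real.exp (2 * V + 1) = Real.exp V * Real.exp V * Real.exp 1 := by
            rw [← Real.exp_add, ← Real.exp_add]
            congr 1
            ring
          have e8 : (2:ℝ) ≤ Real.exp 1 := by
            have := Real.add_one_le_exp (1:ℝ)
            linarith
          have e9 : 0 ≤ Real.exp V * Real.exp V := by positivity
          rw [e7]
          calc |(f.1 : ℝ) * g.2 - (g.1 : ℝ) * f.2| ≤ |(f.1 : ℝ) * g.2| + |(g.1 : ℝ) * f.2| := abs_sub _ _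
            _ ≤ Real.exp V * Real.exp V * 2 := by linarith
            _ ≤ _ := mul_le_mul_of_nonneg_left e8 e9
      refine e2.trans (le_of_eq ?_)
      rw [Finset.sum_const, nsmul_eq_mul, Finset.card_product]
      push_cast
      ring
    have h3 : ((E₁ ∪ E₂).card : ℝ) ≤ (E₁.card : ℝ) + (E₂.card : ℝ) := by
      exact_mod_cast Finset.card_union_le _ _
    have h4 : (0:ℝ) ≤ F.card := Nat.cast_nonneg _
    nlinarith
  · intro p hpp hwp hpE f hf
    rw [Finset.mem_union, not_or] at hpE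
    have g1 : ¬ (p : ℤ) ∣ f.1 := fun hd => hpE.1 (by
      rw [hE₁, Finset.mem_biUnion]
      exact ⟨f, hf, Finset.mem_union_left _ (mem_pfw hpp hwp (h0 f hf).1 hd)⟩)
    have g2 : ¬ (p : ℤ) ∣ f.2 := fun hd => hpE.1 (by
      rw [hE₁, Finset.mem_biUnion]
      exact ⟨f, hf, Finset.mem_union_right _ (mem_pfw hpp hwp (h0 f hf).2 hd)⟩)
    refine ⟨g1, g2, fun g hg hfg hd => hpE.2 ?_⟩
    rw [hE₂, Finset.mem_biUnion]
    refine ⟨(f, g), Finset.mem_product.2 ⟨hf, hg⟩, ?_⟩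
    simp only
    rw [if_neg hfg]
    exact mem_pfw hpp hwp (hp f hf g hg hfg) hd

end Pool.Agent.L5helper1.IS
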