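import Pool.Agent.H378R2.M7m
import Pool.Agent.L5helper1.AS.Avg

set_option autoImplicit false
set_option linter.unusedSectionVars false
set_option linter.unusedVariables false
set_option maxHeartbeats 4000000

/-! # Primitive forms, and from the measure to the number of primes -/

namespace Pool.Agent.L5helper1.IS

open Finset Filter Pool.Agent.H378R2

open scoped Classical

/-- `n / φ(n)` is monotone for divisibility -/
theorem ratio_mono {n m : ℕ} (h : n ∣ m) (hm : m ≠ 0) :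
    (n : ℝ) / (Nat.totient n : ℝ) ≤ (m : ℝ) / (Nat.totient m : ℝ) := by
  have hn : n ≠ 0 := fun h0 => hm (by rw [h0] at h; exact zero_dvd_iff.1 h)
  have hφn : (0:ℝ) < Nat.totient n := by exact_mod_cast Nat.totient_pos.2 (Nat.pos_of_ne_zero hn)
  have hφm : (0:ℝ) < Nat.totient m := by exact_mod_cast Nat.totient_pos.2 (Nat.pos_of_ne_zero hm)
  have e1 := Nat.totient_eq_mul_prod_factors n
  have e2 := Nat.totient_eq_mul_prod_factors m
  have hsub : n.primeFactors ⊆ m.primeFactors := Nat.primeFactors_mono h hm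
  have e3 : ∏ p ∈ m.primeFactors, (1 - (p : ℚ)⁻¹) ≤ ∏ p ∈ n.primeFactors, (1 - (p : ℚ)⁻¹) := by
    rw [← Finset.prod_sdiff hsub]
    have h1 : ∏ p ∈ m.primeFactors \ n.primeFactors, (1 - (p : ℚ)⁻¹) ≤ 1 := by
      apply Finset.prod_le_one
      · intro p hp
        have hp1 : 1 ≤ p := (Nat.prime_of_mem_primeFactors (Finset.sdiff_subset hp)).one_lt.le
        have : (p : ℚ)⁻¹ ≤ 1 := inv_le_one_of_one_le₀ (by exact_mod_cast hp1)
        linarith
      · intro p hp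
        have : (0 : ℚ) ≤ (p : ℚ)⁻¹ := by positivity
        linarith
    have h2 : 0 ≤ ∏ p ∈ n.primeFactors, (1 - (p : ℚ)⁻¹) := by
      apply Finset.prod_nonneg
      intro p hp
      have hp1 : 1 ≤ p := (Nat.prime_of_mem_primeFactors hp).one_lt.le
      have : (p : ℚ)⁻¹ ≤ 1 := inv_le_one_of_one_le₀ (by exact_mod_cast hp1)
      linarith
    calc _ ≤ 1 * ∏ p ∈ n.primeFactors, (1 - (p : ℚ)⁻¹) := mul_le_mul_of_nonneg_right h1 h2
      _ = _ := one_mul _
  have e4 : (Nat.totient m : ℚ) * n ≤ (Nat.totient n : ℚ) * m := by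
    rw [e1, e2]
    have h1 : (0 : ℚ) ≤ (n : ℚ) * m := by positivity
    calc (m : ℚ) * (∏ p ∈ m.primeFactors, (1 - (p : ℚ)⁻¹)) * n =
          ((n : ℚ) * m) * ∏ p ∈ m.primeFactors, (1 - (p : ℚ)⁻¹) := by ring
      _ ≤ ((n : ℚ) * m) * ∏ p ∈ n.primeFactors, (1 - (p : ℚ)⁻¹) := mul_le_mul_of_nonneg_left e3 h1
      _ = _ := by ring
  have e5 : (Nat.totient m : ℝ) * n ≤ (Nat.totient n : ℝ) * m := by exact_mod_cast e4
  rw [div_le_div_iff₀ hφn hφm]
  linarith

/-- the normalised form -/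
noncomputable def nrm (f : ℤ × ℤ) : ℤ × ℤ :=
  (f.1 / (f.1.sign * (Int.gcd f.1 f.2 : ℤ)), f.2 / (f.1.sign * (Int.gcd f.1 f.2 : ℤ)))

theorem nrm_spec (f : ℤ × ℤ) (h1 : f.1 ≠ 0) (h2 : f.2 ≠ 0) :
    ∃ t : ℤ, t ≠ 0 ∧ f.1 = t * (nrm f).1 ∧ f.2 = t * (nrm f).2 ∧ 0 < (nrm f).1 ∧ (nrm f).2 ≠ 0 ∧
      Int.gcd (nrm f).1 (nrm f).2 = 1 := by
  set t : ℤ := f.1.sign * (Int.gcd f.1 f.2 : ℤ) with ht
  have hg : 0 < Int.gcd f.1 f.2 := Int.gcd_pos_of_ne_zero_left _ h1
  have hs : f.1.sign ≠ 0 := fun h => h1 (Int.sign_eq_zero_iff_zero.1 h)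
  have ht0 : t ≠ 0 := mul_ne_zero hs (by exact_mod_cast hg.ne')
  have hs1 : f.1.sign * f.1.sign = 1 := by
    rcases lt_or_gt_of_ne h1 with h | h
    · rw [Int.sign_eq_neg_one_of_neg h]; norm_num
    · rw [Int.sign_eq_one_of_pos h]; norm_num
  have hd1 : t ∣ f.1 := by
    obtain ⟨c, hc⟩ := Int.gcd_dvd_left f.1 f.2
    refine ⟨f.1.sign * c, ?_⟩
    rw [ht]
    calc f.1 = (Int.gcd f.1 f.2 : ℤ) * c := hc
      _ = (f.1.sign * f.1.sign) * ((Int.gcd f.1 f.2 : ℤ) * c) := by rw [hs1, one_mul]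
      _ = _ := by ring
  have hd2 : t ∣ f.2 := by
    obtain ⟨c, hc⟩ := Int.gcd_dvd_right f.1 f.2
    refine ⟨f.1.sign * c, ?_⟩
    rw [ht]
    calc f.2 = (Int.gcd f.1 f.2 : ℤ) * c := hc
      _ = (f.1.sign * f.1.sign) * ((Int.gcd f.1 f.2 : ℤ) * c) := by rw [hs1, one_mul]
      _ = _ := by ring
  have e1 : f.1 = t * (nrm f).1 := by
    show f.1 = t * (f.1 / t)
    rw [Int.mul_ediv_cancel' hd1]
  have e2 : f.2 = t * (nrm f).2 := by
    show f.2 = t * (f.2 / t)
    rw [Int.mul_ediv_cancel' hd2]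
  have habs : |t| = (Int.gcd f.1 f.2 : ℤ) := by
    rw [ht, abs_mul]
    have : |f.1.sign| = 1 := by
      rcases lt_or_gt_of_ne h1 with h | h
      · rw [Int.sign_eq_neg_one_of_neg h]; norm_num
      · rw [Int.sign_eq_one_of_pos h]; norm_num
    rw [this, one_mul, abs_of_nonneg (by positivity)]
  refine ⟨t, ht0, e1, e2, ?_, ?_, ?_⟩
  · have h3 : f.1.sign * f.1 = |f.1| := Int.sign_mul_self_eq_abs _
    have h4 : 0 < |f.1| := abs_pos.2 h1
    have h5 : |f.1| = (Int.gcd f.1 f.2 : ℤ) * (nrm f).1 := by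
      rw [← h3]
      conv_lhs => rw [e1, ht]
      have h6 : (t * (nrm f).1).sign = f.1.sign := by rw [← e1]
      rw [← ht, h6, ht]
      calc f.1.sign * (f.1.sign * (Int.gcd f.1 f.2 : ℤ) * (nrm f).1) =
            (f.1.sign * f.1.sign) * ((Int.gcd f.1 f.2 : ℤ) * (nrm f).1) := by ring
        _ = _ := by rw [hs1, one_mul]
    have h6 : (0 : ℤ) < (Int.gcd f.1 f.2 : ℤ) := by exact_mod_cast hg
    rw [h5] at h4
    exact (mul_pos_iff_of_pos_left h6).1 h4
  · intro h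
    rw [h, mul_zero] at e2
    exact h2 e2
  · have h7 : Int.gcd f.1 f.2 = Int.gcd (t * (nrm f).1) (t * (nrm f).2) := by rw [← e1, ← e2]
    rw [Int.gcd_mul_left] at h7
    have h8 : t.natAbs = Int.gcd f.1 f.2 := by
      have := congrArg Int.natAbs habs
      rwa [Int.natAbs_abs, Int.natAbs_natCast] at this
    rw [h8] at h7
    have h9 : Int.gcd f.1 f.2 * 1 = Int.gcd f.1 f.2 * Int.gcd (nrm f).1 (nrm f).2 := by
      rw [mul_one]; exact h7
    exact (Nat.eq_of_mul_eq_mul_left hg h9).symm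

theorem primitive_forms (F : Finset (ℤ × ℤ)) (h0 : ∀ f ∈ F, f.1 ≠ 0 ∧ f.2 ≠ 0) :
    ∃ F' : Finset (ℤ × ℤ), (∀ f ∈ F', f.1 ≠ 0 ∧ f.2 ≠ 0) ∧
      (∀ f ∈ F', ∀ g ∈ F', f ≠ g → f.1 * g.2 - g.1 * f.2 ≠ 0) ∧
      (∀ f ∈ F', ∃ g ∈ F, |f.1| ≤ |g.1| ∧ |f.2| ≤ |g.2|) ∧
      (∀ f ∈ F, ∃ g ∈ F', ∃ t : ℤ, f.1 = t * g.1 ∧ f.2 = t * g.2) ∧
      ∑ f ∈ F', ((f.1 * f.2).natAbs : ℝ) / (Nat.totient (f.1 * f.2).natAbs : ℝ) ≤
        ∑ f ∈ F, ((f.1 * f.2).natAbs : ℝ) / (Nat.totient (f.1 * f.2).natAbs : ℝ) := by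
  refine ⟨F.image nrm, ?_, ?_, ?_, ?_, ?_⟩
  · intro f hf
    obtain ⟨g, hg, rfl⟩ := Finset.mem_image.1 hf
    obtain ⟨t, ht, _, _, h3, h4, _⟩ := nrm_spec g (h0 g hg).1 (h0 g hg).2
    exact ⟨h3.ne', h4⟩
  · intro f hf f' hf' hne heq
    obtain ⟨g, hg, rfl⟩ := Finset.mem_image.1 hf
    obtain ⟨g', hg', rfl⟩ := Finset.mem_image.1 hf'
    obtain ⟨t, ht, _, _, h3, h4, h5⟩ := nrm_spec g (h0 g hg).1 (h0 g hg).2
    obtain ⟨t', ht', _, _, h3', h4', h5'⟩ := nrm_spec g' (h0 g' hg').1 (h0 g' hg').2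
    apply hne
    set a := (nrm g).1
    set b := (nrm g).2
    set a' := (nrm g').1
    set b' := (nrm g').2
    have e1 : a * b' = a' * b := by linarith
    have c1 : IsCoprime a b := Int.isCoprime_iff_gcd_eq_one.2 h5
    have c2 : IsCoprime a' b' := Int.isCoprime_iff_gcd_eq_one.2 h5'
    have d1 : a ∣ a' := c1.dvd_of_dvd_mul_right (by rw [← e1]; exact dvd_mul_right _ _)
    have d2 : a' ∣ a := c2.dvd_of_dvd_mul_right (by rw [e1]; exact dvd_mul_right _ _)
    have d3 : a = a' := Int.dvd_antisymm h3.le h3'.le d1 d2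
    have d4 : b = b' := by
      rw [d3] at e1
      exact (mul_left_cancel₀ h3'.ne' e1).symm
    exact Prod.ext d3 d4
  · intro f hf
    obtain ⟨g, hg, rfl⟩ := Finset.mem_image.1 hf
    obtain ⟨t, ht, h1, h2, h3, h4, h5⟩ := nrm_spec g (h0 g hg).1 (h0 g hg).2
    have ht1 : 1 ≤ |t| := Int.one_le_abs ht
    refine ⟨g, hg, ?_, ?_⟩
    · conv_rhs => rw [h1]
      rw [abs_mul]
      nlinarith [abs_nonneg (nrm g).1]
    · conv_rhs => rw [h2]
      rw [abs_mul]
      nlinarith [abs_nonneg (nrm g).2]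
  · intro f hf
    obtain ⟨t, ht, h1, h2, h3, h4, h5⟩ := nrm_spec f (h0 f hf).1 (h0 f hf).2
    exact ⟨nrm f, Finset.mem_image_of_mem _ hf, t, h1, h2⟩
  · have hle : ∀ g ∈ F, (((nrm g).1 * (nrm g).2).natAbs : ℝ) /
        (Nat.totient ((nrm g).1 * (nrm g).2).natAbs : ℝ) ≤
        ((g.1 * g.2).natAbs : ℝ) / (Nat.totient (g.1 * g.2).natAbs : ℝ) := by
      intro g hg
      obtain ⟨t, ht, h1, h2, h3, h4, h5⟩ := nrm_spec g (h0 g hg).1 (h0 g hg).2
      apply ratio_mono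
      · rw [Int.natAbs_dvd_natAbs]
        refine ⟨t * t, ?_⟩
        conv_lhs => rw [h1, h2]
        ring
      · exact Int.natAbs_ne_zero.2 (mul_ne_zero (h0 g hg).1 (h0 g hg).2)
    have hsel : ∀ f ∈ F.image nrm, ∃ g ∈ F, nrm g = f := fun f hf => Finset.mem_image.1 hf
    choose! s hs1 hs2 using hsel
    calc ∑ f ∈ F.image nrm, ((f.1 * f.2).natAbs : ℝ) / (Nat.totient (f.1 * f.2).natAbs : ℝ)
        ≤ ∑ f ∈ F.image nrm, (((s f).1 * (s f).2).natAbs : ℝ) /
            (Nat.totient ((s f).1 * (s f).2).natAbs : ℝ) := by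
          apply Finset.sum_le_sum
          intro f hf
          have := hle (s f) (hs1 f hf)
          rwa [hs2 f hf] at this
      _ = ∑ g ∈ (F.image nrm).image s, ((g.1 * g.2).natAbs : ℝ) /
            (Nat.totient (g.1 * g.2).natAbs : ℝ) := by
          symm
          apply Finset.sum_image
          intro f hf f' hf' h
          rw [← hs2 f hf, ← hs2 f' hf', h]
      _ ≤ _ := by
          apply Finset.sum_le_sum_of_subset_of_nonneg
          · intro g hg
            obtain ⟨f, hf, rfl⟩ := Finset.mem_image.1 hg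
            exact hs1 f hf
          · intro g _ _
            positivity

/-- from the measure to the number of primes -/
theorem count_of (c₀ : ℝ) (hc : 0 < c₀) : ∃ X0 : ℝ, ∀ X : ℝ, X0 ≤ X → ∀ P : ℕ → Prop,
    c₀ * X ≤ ∑ n ∈ (Icc 1 ⌊3 * X⌋₊).filter P, Phi (n / X) * ArithmeticFunction.vonMangoldt n →
    c₀ / 2 * (X / Real.log X) ≤
      (((Icc 1 ⌊3 * X⌋₊).filter (fun n : ℕ => n.Prime ∧ X < (n : ℝ) ∧ P n)).card : ℝ) := by
  have h1 : ∀ᶠ X : ℝ in atTop, Real.log X ≤ (c₀ / 16) * X ^ (1 / 2 : ℝ) := by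
    have e := (isLittleO_log_rpow_atTop (show (0:ℝ) < 1 / 2 by norm_num)).def
      (show (0:ℝ) < c₀ / 16 by positivity)
    filter_upwards [e, eventually_ge_atTop (1:ℝ)] with X hX hX1
    rwa [Real.norm_of_nonneg (Real.log_nonneg hX1),
      Real.norm_of_nonneg (Real.rpow_nonneg (by linarith) _)] at hX
  obtain ⟨X₀, hX₀⟩ := Filter.eventually_atTop.1 (h1.and (eventually_ge_atTop (9:ℝ)))
  refine ⟨X₀, fun X hX P hP => ?_⟩
  obtain ⟨g1, g2⟩ := hX₀ X hX
  have hX0 : 0 < X := by linarith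
  have hlog : 0 < Real.log X := Real.log_pos (by linarith)
  have hlog3 : Real.log (3 * X) ≤ 2 * Real.log X := by
    have : Real.log (3 * X) ≤ Real.log (X ^ 2) := by
      apply Real.log_le_log (by positivity)
      nlinarith
    rwa [Real.log_pow, Nat.cast_ofNat] at this
  have hlog30 : 0 ≤ Real.log (3 * X) := Real.log_nonneg (by linarith)
  set N := ⌊3 * X⌋₊ with hN
  set T := (Icc 1 N).filter (fun n : ℕ => n.Prime ∧ X < (n : ℝ) ∧ P n) with hT
  have hNle : (N : ℝ) ≤ 3 * X := Nat.floor_le (by positivity)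
  have hsplit : ∑ n ∈ (Icc 1 N).filter P, Phi (n / X) * ArithmeticFunction.vonMangoldt n ≤
      ∑ n ∈ (Icc 1 N).filter (fun n => ¬ n.Prime), ArithmeticFunction.vonMangoldt n +
      ∑ n ∈ T, 1 / 2 * Real.log (3 * X) := by
    have e1 : ∑ n ∈ (Icc 1 N).filter P, Phi (n / X) * ArithmeticFunction.vonMangoldt n =
        ∑ n ∈ ((Icc 1 N).filter P).filter (fun n => ¬ n.Prime), Phi (n / X) * ArithmeticFunction.vonMangoldt n +
        ∑ n ∈ ((Icc 1 N).filter P).filter (fun n => ¬ ¬ n.Prime), Phi (n / X) * ArithmeticFunction.vonMangoldt n :=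
      (Finset.sum_filter_add_sum_filter_not _ _ _).symm
    rw [e1]
    apply add_le_add
    · calc ∑ n ∈ ((Icc 1 N).filter P).filter (fun n => ¬ n.Prime), Phi (n / X) * ArithmeticFunction.vonMangoldt n
          ≤ ∑ n ∈ ((Icc 1 N).filter P).filter (fun n => ¬ n.Prime), ArithmeticFunction.vonMangoldt n := by
            apply Finset.sum_le_sum
            intro n _
            calc Phi (n / X) * ArithmeticFunction.vonMangoldt n ≤ 1 * ArithmeticFunction.vonMangoldt n :=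
                  mul_le_mul_of_nonneg_right (Phi_le_one _) ArithmeticFunction.vonMangoldt_nonneg
              _ = _ := one_mul _
        _ ≤ _ := by
            apply Finset.sum_le_sum_of_subset_of_nonneg
            · intro n hn
              rw [Finset.mem_filter, Finset.mem_filter] at hn
              rw [Finset.mem_filter]
              exact ⟨hn.1.1, hn.2⟩
            · intro n _ _
              exact ArithmeticFunction.vonMangoldt_nonneg
    · rw [← Finset.sum_filter_add_sum_filter_not (((Icc 1 N).filter P).filter (fun n => ¬ ¬ n.Prime))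
        (fun n : ℕ => X < (n : ℝ))]
      have e2 : ∑ n ∈ (((Icc 1 N).filter P).filter (fun n => ¬ ¬ n.Prime)).filter (fun n : ℕ => ¬ X < (n : ℝ)),
          Phi (n / X) * ArithmeticFunction.vonMangoldt n = 0 := by
        apply Finset.sum_eq_zero
        intro n hn
        have h3 := (Finset.mem_filter.1 hn).2
        push Not at h3
        rw [Phi_eq_zero_of_le (by positivity) ((div_le_one hX0).2 h3), zero_mul]
      rw [e2, add_zero]
      have e3 : (((Icc 1 N).filter P).filter (fun n => ¬ ¬ n.Prime)).filter (fun n : ℕ => X < (n : ℝ)) = T := by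
        ext n
        simp only [hT, Finset.mem_filter, not_not]
        tauto
      rw [e3]
      apply Finset.sum_le_sum
      intro n hn
      rw [hT, Finset.mem_filter, Finset.mem_Icc] at hn
      have hn0 : (0:ℝ) < n := by exact_mod_cast hn.1.1
      have hn1 : (n : ℝ) ≤ 3 * X := (by exact_mod_cast hn.1.2 : (n : ℝ) ≤ N).trans hNle
      exact mul_le_mul (Phi_le_half _) ((vonMangoldt_le_log' n).trans (Real.log_le_log hn0 hn1))
        ArithmeticFunction.vonMangoldt_nonneg (by norm_num)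
  have hnp := sum_nonprime_le (3 * X) (by linarith)
  have hs : Real.sqrt (3 * X) ≤ 2 * Real.sqrt X := by
    rw [show 2 * Real.sqrt X = Real.sqrt (4 * X) by
      rw [Real.sqrt_mul (by norm_num), show (4:ℝ) = 2 ^ 2 by norm_num, Real.sqrt_sq (by norm_num)]]
    exact Real.sqrt_le_sqrt (by linarith)
  have hsX : Real.sqrt X * Real.sqrt X = X := Real.mul_self_sqrt hX0.le
  have hs0 : 0 ≤ Real.sqrt X := Real.sqrt_nonneg _
  rw [← Real.sqrt_eq_rpow] at g1
  rw [Finset.sum_const, nsmul_eq_mul] at hsplit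
  have e5 : 2 * Real.sqrt (3 * X) * Real.log (3 * X) ≤ c₀ / 2 * X := by
    calc 2 * Real.sqrt (3 * X) * Real.log (3 * X) ≤ 2 * (2 * Real.sqrt X) * (2 * Real.log X) :=
          mul_le_mul (by linarith) hlog3 hlog30 (by positivity)
      _ = 8 * Real.sqrt X * Real.log X := by ring
      _ ≤ 8 * Real.sqrt X * (c₀ / 16 * Real.sqrt X) := mul_le_mul_of_nonneg_left g1 (by positivity)
      _ = c₀ / 2 * (Real.sqrt X * Real.sqrt X) := by ring
      _ = c₀ / 2 * X := by rw [hsX]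
  have e6 : (T.card : ℝ) * (1 / 2 * Real.log (3 * X)) ≤ (T.card : ℝ) * Real.log X :=
    mul_le_mul_of_nonneg_left (by linarith) (Nat.cast_nonneg _)
  have e7 : c₀ / 2 * X ≤ (T.card : ℝ) * Real.log X := by linarith
  rw [← mul_div_assoc, div_le_iff₀ hlog]
  exact e7

end Pool.Agent.L5helper1.IS
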