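import Pool.Agent.L5helper11.IS.T2

set_option autoImplicit false
set_option linter.unusedSectionVars false
set_option linter.unusedVariables false
set_option maxHeartbeats 4000000

/-! Average number of surviving linear forms over the reduced classes modulo the big modulus
(after `Pool.Agent.L5helper11.IS.surv_avg`). -/

open Finset Filter Topology

namespace Pool.Agent.L5helper1.IS

open Pool.Agent.H378R2
open Pool.Agent.L5helper11.IS (gg gg_nonneg gg_prod_le BE_PW_le)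

open scoped Classical

/-- residues surviving with the value of the form -/
noncomputable def sv2 (f : ℤ × ℤ) (m : ℕ) : Finset ℕ :=
  (range m).filter (fun a => a.Coprime m ∧ Int.gcd (f.1 * (a : ℤ) + f.2) (m : ℤ) = 1)

theorem mem_sv2 {f : ℤ × ℤ} {m a : ℕ} :
    a ∈ sv2 f m ↔ a < m ∧ a.Coprime m ∧ Int.gcd (f.1 * (a : ℤ) + f.2) (m : ℤ) = 1 := by
  unfold sv2
  rw [mem_filter, mem_range]

theorem mod_sv2 {f : ℤ × ℤ} {m d a : ℕ} (hd : 0 < d) (hdm : d ∣ m) (h : a ∈ sv2 f m) :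
    a % d ∈ sv2 f d := by
  rw [mem_sv2] at h ⊢
  obtain ⟨_, h2, h3⟩ := h
  refine ⟨Nat.mod_lt _ hd, ?_, ?_⟩
  · have h4 : a.Coprime d := h2.coprime_dvd_right hdm
    have h5 := (Nat.mod_modEq a d).gcd_eq
    unfold Nat.Coprime at h4 ⊢
    rw [h5, h4]
  · have h3' : IsCoprime (f.1 * (a:ℤ) + f.2) (m:ℤ) := Int.isCoprime_iff_gcd_eq_one.mpr h3
    have h4 : IsCoprime (f.1 * (a:ℤ) + f.2) (d:ℤ) :=
      h3'.of_isCoprime_of_dvd_right (Int.natCast_dvd_natCast.mpr hdm)
    have h5 : f.1 * ((a % d : ℕ) : ℤ) + f.2 =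
        (f.1 * (a:ℤ) + f.2) + d * (-(f.1 * ((a / d : ℕ) : ℤ))) := by
      have h6 : (a:ℤ) = ((a % d : ℕ) : ℤ) + d * ((a / d : ℕ) : ℤ) := by
        exact_mod_cast (Nat.mod_add_div a d).symm
      conv_rhs => rw [h6]
      have h7 : (((a % d : ℕ) : ℤ) + d * ((a / d : ℕ) : ℤ)) = (a : ℤ) := h6.symm
      ring
    rw [← Int.isCoprime_iff_gcd_eq_one, h5]
    exact IsCoprime.add_mul_left_left h4 _

theorem sv_mul2 (f : ℤ × ℤ) (p Q : ℕ) (hp : 0 < p) (hQ : 0 < Q) (hc : p.Coprime Q) :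
    (sv2 f (p * Q)).card ≤ (sv2 f p).card * (sv2 f Q).card := by
  rw [← card_product]
  apply card_le_card_of_injOn (fun a => (a % p, a % Q))
  · intro a ha
    rw [Finset.mem_coe] at ha
    rw [Finset.mem_coe, mem_product]
    exact ⟨mod_sv2 hp (Dvd.intro _ rfl) ha, mod_sv2 hQ (Dvd.intro_left _ rfl) ha⟩
  · intro a ha a' ha' h
    rw [Finset.mem_coe, mem_sv2] at ha ha'
    simp only [Prod.mk.injEq] at h
    have h1 : a ≡ a' [MOD p * Q] := (Nat.modEq_and_modEq_iff_modEq_mul hc).mp ⟨h.1, h.2⟩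
    exact Nat.ModEq.eq_of_lt_of_lt h1 ha.1 ha'.1

theorem sv_prime2 (f : ℤ × ℤ) (p : ℕ) (hp : p.Prime) : ((sv2 f p).card : ℝ) ≤ gg (f.1 * f.2) p := by
  have hp0 := hp.pos
  have hpi : Prime (p : ℤ) := Nat.prime_iff_prime_int.1 hp
  have h0 : ∀ a ∈ sv2 f p, a ≠ 0 := by
    intro a ha h
    subst h
    rw [mem_sv2] at ha
    have h2 := ha.2.1
    rw [Nat.coprime_zero_left] at h2
    exact hp.one_lt.ne' h2
  unfold gg
  split_ifs with h
  · have h1 : sv2 f p ⊆ (range p).erase 0 := by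
      intro a ha
      rw [mem_erase, mem_range]
      exact ⟨h0 a ha, (mem_sv2.mp ha).1⟩
    have h2 := card_le_card h1
    rw [card_erase_of_mem (mem_range.mpr hp0), card_range] at h2
    have h3 : (sv2 f p).card + 1 ≤ p := by omega
    have h4 : ((sv2 f p).card : ℝ) + 1 ≤ p := by exact_mod_cast h3
    linarith
  · have hf1 : ¬ (p : ℤ) ∣ f.1 := fun hd => h (Dvd.dvd.mul_right hd _)
    have hf2 : ¬ (p : ℤ) ∣ f.2 := fun hd => h (Dvd.dvd.mul_left hd _)
    have h3 : IsCoprime (p : ℤ) f.1 := (Prime.coprime_iff_not_dvd hpi).2 hf1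
    obtain ⟨u, v, huv⟩ := h3
    set r := ((-f.2 * v) % (p:ℤ)).toNat with hr
    have hpz : (p:ℤ) ≠ 0 := by exact_mod_cast hp.ne_zero
    have hr0 : 0 ≤ (-f.2 * v) % (p:ℤ) := Int.emod_nonneg _ hpz
    have hrc : (r:ℤ) = (-f.2 * v) % (p:ℤ) := by rw [hr]; exact Int.toNat_of_nonneg hr0
    have hrp : r < p := by
      have := Int.emod_lt_of_pos (-f.2 * v) (by exact_mod_cast hp0 : (0:ℤ) < p)
      rw [← hrc] at this
      exact_mod_cast this
    have hrd : (p:ℤ) ∣ f.1 * (r:ℤ) + f.2 := by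
      have h5 := Int.mul_ediv_add_emod (-f.2 * v) p
      rw [← hrc] at h5
      refine ⟨f.2 * u - f.1 * ((-f.2 * v) / (p:ℤ)), ?_⟩
      have h6 : (r : ℤ) = -f.2 * v - p * ((-f.2 * v) / (p:ℤ)) := by linarith
      rw [h6]
      linear_combination (-f.2) * huv
    have hrne : r ≠ 0 := by
      intro h5
      rw [h5] at hrd
      apply hf2
      simpa using hrd
    have h1 : sv2 f p ⊆ ((range p).erase 0).erase r := by
      intro a ha
      rw [mem_erase, mem_erase, mem_range]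
      refine ⟨?_, h0 a ha, (mem_sv2.mp ha).1⟩
      intro h5
      subst h5
      have h6 := (mem_sv2.mp ha).2.2
      rw [Int.gcd_eq_natAbs_right hrd] at h6
      simp at h6
      exact hp.one_lt.ne' h6
    have h2 := card_le_card h1
    rw [card_erase_of_mem (by rw [mem_erase, mem_range]; exact ⟨hrne, hrp⟩),
      card_erase_of_mem (mem_range.mpr hp0), card_range] at h2
    have h3 : (sv2 f p).card + 2 ≤ p := by
      have := hp.two_le
      omega
    have h4 : ((sv2 f p).card : ℝ) + 2 ≤ p := by exact_mod_cast h3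
    linarith

theorem sv_prod2 (f : ℤ × ℤ) (P : Finset ℕ) (hP : ∀ p ∈ P, p.Prime) :
    ((sv2 f (∏ p ∈ P, p)).card : ℝ) ≤ ∏ p ∈ P, gg (f.1 * f.2) p := by
  induction P using Finset.induction_on with
  | empty =>
    simp only [prod_empty]
    have : (sv2 f 1).card ≤ 1 := by
      refine (card_filter_le _ _).trans ?_
      simp
    exact_mod_cast this
  | insert p P hp ih =>
    rw [prod_insert hp, prod_insert hp]
    have hpp := hP p (mem_insert_self _ _)
    have hPP : ∀ q ∈ P, q.Prime := fun q hq => hP q (mem_insert_of_mem hq)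
    have hQ : 0 < ∏ q ∈ P, q := prod_pos fun q hq => (hPP q hq).pos
    have hc : p.Coprime (∏ q ∈ P, q) := by
      apply Nat.Coprime.prod_right
      intro q hq
      rw [Nat.coprime_primes hpp (hPP q hq)]
      rintro rfl
      exact hp hq
    calc ((sv2 f (p * ∏ q ∈ P, q)).card : ℝ) ≤
        (((sv2 f p).card * (sv2 f (∏ q ∈ P, q)).card : ℕ) : ℝ) := by
          exact_mod_cast sv_mul2 f p _ hpp.pos hQ hc
      _ = ((sv2 f p).card : ℝ) * ((sv2 f (∏ q ∈ P, q)).card : ℝ) := by push_cast; ring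
      _ ≤ _ := mul_le_mul (sv_prime2 f p hpp) (ih hPP) (by positivity) (gg_nonneg _ p hpp)

theorem surv_avg2 : ∃ (Z : ℕ) (C₇ : ℝ), 0 < C₇ ∧ ∃ X0 : ℝ, ∀ X : ℝ, X0 ≤ X →
    ∀ (ps : ℕ) (S : Finset ℕ), GoodP Z ps → GoodS X S →
    ∀ F : Finset (ℤ × ℤ), (∀ f ∈ F, f.1 ≠ 0 ∧ f.2 ≠ 0) →
      ∑ a ∈ (range (Pool.Agent.H378R2.WW X S ps)).filter (fun a => a.Coprime (Pool.Agent.H378R2.WW X S ps)),
        ((F.filter (fun f => Int.gcd (f.1 * (a : ℤ) + f.2) (Pool.Agent.H378R2.WW X S ps : ℤ) = 1)).card : ℝ) ≤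
      (Nat.totient (Pool.Agent.H378R2.WW X S ps) : ℝ) * (C₇ / Real.log (Real.log X)) *
        ∑ f ∈ F, ((f.1 * f.2).natAbs : ℝ) / (Nat.totient (f.1 * f.2).natAbs : ℝ) := by
  obtain ⟨C, hC0, X0, hX⟩ := BE_PW_le
  refine ⟨2, C, hC0, X0, fun X hX0 ps S hps hS F hF => ?_⟩
  have hBE := hX X hX0 2 ps S hps hS
  have hPW : ∀ p ∈ PW X S ps, p.Prime := fun p hp => (mem_PW.1 hp).2.1
  have h1 : ∑ a ∈ (range (WW X S ps)).filter (fun a => a.Coprime (WW X S ps)),
      ((F.filter (fun f => Int.gcd (f.1 * (a : ℤ) + f.2) (WW X S ps : ℤ) = 1)).card : ℝ) =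
      ∑ f ∈ F, ((sv2 f (WW X S ps)).card : ℝ) := by
    have e1 : ∀ a ∈ (range (WW X S ps)).filter (fun a => a.Coprime (WW X S ps)),
        ((F.filter (fun f => Int.gcd (f.1 * (a : ℤ) + f.2) (WW X S ps : ℤ) = 1)).card : ℝ) =
        ∑ f ∈ F, (if Int.gcd (f.1 * (a : ℤ) + f.2) (WW X S ps : ℤ) = 1 then (1:ℝ) else 0) := by
      intro a _
      rw [card_filter]
      push_cast
      rfl
    rw [sum_congr rfl e1, sum_comm]
    apply sum_congr rfl
    intro f _
    unfold sv2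
    rw [← filter_filter, card_filter]
    push_cast
    rfl
  rw [h1, mul_sum]
  apply sum_le_sum
  intro f hf
  have hW : WW X S ps = ∏ p ∈ PW X S ps, p := rfl
  have h2 := sv_prod2 f (PW X S ps) hPW
  rw [← hW] at h2
  refine h2.trans ((gg_prod_le (f.1 * f.2) (mul_ne_zero (hF f hf).1 (hF f hf).2)
    (PW X S ps) hPW).trans ?_)
  have h3 : ∏ p ∈ PW X S ps, ((p:ℝ) - 1) = (Nat.totient (WW X S ps) : ℝ) := by
    rw [totient_WW]
    unfold WW BE
    push_cast
    rw [← prod_mul_distrib]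
    apply prod_congr rfl
    intro p hp
    have : (p : ℝ) ≠ 0 := by exact_mod_cast (hPW p hp).ne_zero
    field_simp
  rw [h3]
  apply mul_le_mul_of_nonneg_right _ (by positivity)
  exact mul_le_mul_of_nonneg_left hBE (by positivity)

end Pool.Agent.L5helper1.IS
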