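import Pool.Agent.L5helper11.IS.T5

set_option autoImplicit false
set_option linter.unusedSectionVars false
set_option linter.unusedVariables false
set_option maxHeartbeats 4000000

/-! The class measure and the transfer hypothesis for a general residue map (after
`Pool.Agent.L5helper11.IS.class_meas`, `Pool.Agent.L5helper11.IS.htr_of`, by helper11). -/

open Finset Filter Topology

namespace Pool.Agent.L5helper1.IS

open Pool.Agent.H256R2.SC Pool.Agent.Y831.RC Pool.Agent.H378R2 Pool.Agent.L5helper11.IS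

section
variable {PP₁ PP₂ : Finset ℕ} {κ : Type} [Fintype κ] [DecidableEq κ]

/-- the residue of an event is prime to the primes of its support -/
theorem res_ndvd2 (res : ℕ → κ → ℤ)
    (hi₁ : ∀ p ∈ PP₁, ∀ k l, k ≠ l → ¬ ((p : ℤ) ∣ res p k - res p l))
    (hi₂ : ∀ p ∈ PP₂, ∀ k l, k ≠ l → ¬ ((p : ℤ) ∣ res p k - res p l))
    (h0₁ : ∀ p ∈ PP₁, ∀ k, ¬ ((p : ℤ) ∣ res p k)) (h0₂ : ∀ p ∈ PP₂, ∀ k, ¬ ((p : ℤ) ∣ res p k))
    (D : Col (PP₁.card + PP₂.card) κ) (r : ℤ)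
    (hr : ∀ i, D i ≠ none →
      (Fin.append (colr PP₁ res r) (colr PP₂ res r) :
        Col (PP₁.card + PP₂.card) κ) i = D i) (i : Fin (PP₁.card + PP₂.card)) (hi : D i ≠ none) :
    ¬ ((PR PP₁ PP₂ i : ℕ) : ℤ) ∣ r := by
  intro hdvd
  have h := hr i hi
  obtain ⟨k, hk⟩ := Option.ne_none_iff_exists'.mp hi
  rw [hk] at h
  revert h hdvd
  refine Fin.addCases (fun j => ?_) (fun j => ?_) i
  · intro hdvd h
    rw [Fin.append_left, colr_eq hi₁] at h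
    unfold Pool.Agent.L5helper11.IS.PR at hdvd
    rw [Fin.append_left] at hdvd
    apply h0₁ _ (emb_mem PP₁ j) k
    have := dvd_sub hdvd h
    rwa [sub_sub_cancel] at this
  · intro hdvd h
    rw [Fin.append_right, colr_eq hi₂] at h
    unfold Pool.Agent.L5helper11.IS.PR at hdvd
    rw [Fin.append_right] at hdvd
    apply h0₂ _ (emb_mem PP₂ j) k
    have := dvd_sub hdvd h
    rwa [sub_sub_cancel] at this

end

open scoped Classical in
theorem class_meas2 (X : ℝ) (W a0 : ℕ) (hW : 0 < W) (ha0 : a0.Coprime W) (PP₁ PP₂ : Finset ℕ)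
    (h₁ : ∀ p ∈ PP₁, p.Prime) (h₂ : ∀ p ∈ PP₂, p.Prime) (hd : Disjoint PP₁ PP₂)
    (hW₁ : ∀ p ∈ PP₁, ¬ p ∣ W) (hW₂ : ∀ p ∈ PP₂, ¬ p ∣ W)
    (κ : Type) [Fintype κ] [DecidableEq κ] (res : ℕ → κ → ℤ)
    (hi₁ : ∀ p ∈ PP₁, ∀ k l, k ≠ l → ¬ ((p : ℤ) ∣ res p k - res p l))
    (hi₂ : ∀ p ∈ PP₂, ∀ k l, k ≠ l → ¬ ((p : ℤ) ∣ res p k - res p l))
    (h0₁ : ∀ p ∈ PP₁, ∀ k, ¬ ((p : ℤ) ∣ res p k)) (h0₂ : ∀ p ∈ PP₂, ∀ k, ¬ ((p : ℤ) ∣ res p k))
    (D : Col (PP₁.card + PP₂.card) κ) :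
    ∃ b : ℕ, b.Coprime (W * (qn PP₁ (fstc D) * qn PP₂ (sndc D))) ∧
      nu (Fin.append (fun i => 1 - 1 / ((emb PP₁ i : ℕ) : ℝ)) (fun i => 1 - 1 / ((emb PP₂ i : ℕ) : ℝ))) D *
        ∑ n ∈ (Icc 1 ⌊3 * X⌋₊).filter (fun n => n ≡ a0 [MOD W]),
          (Phi (n / X) * ArithmeticFunction.vonMangoldt n) *
            ind D (Fin.append (colr PP₁ res (n : ℤ)) (colr PP₂ res (n : ℤ)) :
              Col (PP₁.card + PP₂.card) κ) -
        LPhi X / (Nat.totient W : ℝ) *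
          nu (Fin.append (fun i => 1 / ((emb PP₁ i : ℕ) : ℝ)) (fun i => 1 / ((emb PP₂ i : ℕ) : ℝ))) D =
      ((Nat.totient (qn PP₁ (fstc D) * qn PP₂ (sndc D)) : ℝ) /
        ((qn PP₁ (fstc D) * qn PP₂ (sndc D) : ℕ) : ℝ)) *
        EPhi X (W * (qn PP₁ (fstc D) * qn PP₂ (sndc D))) b := by
  obtain ⟨r, hr⟩ := event_two h₁ h₂ hd hi₁ hi₂ D
  rw [nu_phi h₁ h₂ hd, nu_inv]
  have hQe := q_eq (PP₁ := PP₁) (PP₂ := PP₂) D
  set Q := qn PP₁ (fstc D) * qn PP₂ (sndc D) with hQ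
  have hQpos : 0 < Q := by
    rw [hQe]
    exact Finset.prod_pos fun i _ => (PR_prime h₁ h₂ i).pos
  have hrr := (hr r).mpr (by simp)
  have hnd : ∀ i, D i ≠ none → ¬ ((PR PP₁ PP₂ i : ℕ) : ℤ) ∣ r := fun i hi =>
    res_ndvd2 res hi₁ hi₂ h0₁ h0₂ D r hrr i hi
  have hWP : ∀ i, ¬ PR PP₁ PP₂ i ∣ W := by
    intro i
    have := PR_mem (PP₁ := PP₁) (PP₂ := PP₂) i
    rw [Finset.mem_union] at this
    rcases this with h | h
    · exact hW₁ _ h
    · exact hW₂ _ h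
  have hWQ : W.Coprime Q := by
    rw [hQe]
    apply Nat.Coprime.prod_right
    intro i _
    rw [Nat.coprime_comm, (PR_prime h₁ h₂ i).coprime_iff_not_dvd]
    exact hWP i
  have hQz : (0:ℤ) < (Q:ℤ) := by exact_mod_cast hQpos
  set r' : ℕ := (r % (Q:ℤ)).toNat with hr'
  have hr'c : (r' : ℤ) = r % (Q:ℤ) := Int.toNat_of_nonneg (Int.emod_nonneg _ hQz.ne')
  have hr'd : (Q:ℤ) ∣ (r':ℤ) - r := by
    rw [hr'c]
    have := Int.mul_ediv_add_emod r (Q:ℤ)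
    exact ⟨-(r / (Q:ℤ)), by linarith⟩
  obtain ⟨b, hb1, hb2⟩ := Nat.chineseRemainder hWQ a0 r'
  have hclass : ∀ n : ℕ, (n ≡ b [MOD W * Q]) ↔ (n ≡ a0 [MOD W] ∧ (Q:ℤ) ∣ (n:ℤ) - r) := by
    intro n
    rw [← Nat.modEq_and_modEq_iff_modEq_mul hWQ]
    have e1 : n ≡ b [MOD Q] ↔ (Q:ℤ) ∣ (n:ℤ) - r := by
      have e2 : (Q:ℤ) ∣ (b:ℤ) - r := by
        have h3 : (Q:ℤ) ∣ (r':ℤ) - (b:ℤ) := by
          exact (Nat.modEq_iff_dvd).mp hb2
        have h4 : (b:ℤ) - r = ((r':ℤ) - r) - ((r':ℤ) - (b:ℤ)) := by ring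
        rw [h4]
        exact dvd_sub hr'd h3
      rw [Nat.modEq_iff_dvd]
      constructor
      · intro h
        have h4 : (n:ℤ) - r = ((b:ℤ) - r) - ((b:ℤ) - (n:ℤ)) := by ring
        rw [h4]
        exact dvd_sub e2 h
      · intro h
        have h4 : (b:ℤ) - (n:ℤ) = ((b:ℤ) - r) - ((n:ℤ) - r) := by ring
        rw [h4]
        exact dvd_sub e2 h
    constructor
    · rintro ⟨h1, h2⟩
      exact ⟨h1.trans hb1, e1.mp h2⟩
    · rintro ⟨h1, h2⟩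
      exact ⟨h1.trans hb1.symm, e1.mpr h2⟩
  refine ⟨b, ?_, ?_⟩
  · apply Nat.Coprime.mul_right
    · have h5 := hb1.gcd_eq
      unfold Nat.Coprime at ha0 ⊢
      rw [h5, ha0]
    · rw [hQe]
      apply Nat.Coprime.prod_right
      intro i hi
      rw [Pool.Agent.H256R2.SC.mem_supp] at hi
      rw [Nat.coprime_comm, (PR_prime h₁ h₂ i).coprime_iff_not_dvd]
      intro hdb
      apply hnd i hi
      have h6 := ((hclass b).mp rfl).2
      have h7 : ((PR PP₁ PP₂ i : ℕ) : ℤ) ∣ (Q:ℤ) := by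
        rw [hQe]
        exact_mod_cast Finset.dvd_prod_of_mem _ (Pool.Agent.H256R2.SC.mem_supp.mpr hi)
      have h8 : ((PR PP₁ PP₂ i : ℕ) : ℤ) ∣ (b:ℤ) := by exact_mod_cast hdb
      have h9 : r = (b:ℤ) - ((b:ℤ) - r) := by ring
      rw [h9]
      exact dvd_sub h8 (h7.trans h6)
  · have hsum : ∑ n ∈ (Icc 1 ⌊3 * X⌋₊).filter (fun n => n ≡ a0 [MOD W]),
          (Phi (n / X) * ArithmeticFunction.vonMangoldt n) *
            ind D (Fin.append (colr PP₁ res (n : ℤ)) (colr PP₂ res (n : ℤ)) :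
              Col (PP₁.card + PP₂.card) κ) =
        ∑ n ∈ (Icc 1 ⌊3 * X⌋₊).filter (fun n => n ≡ b [MOD W * Q]),
          Phi (n / X) * ArithmeticFunction.vonMangoldt n := by
      rw [Finset.sum_filter, Finset.sum_filter]
      apply Finset.sum_congr rfl
      intro n _
      have h6 := hr (n:ℤ)
      unfold ind
      by_cases hc : n ≡ b [MOD W * Q]
      · have h7 := (hclass n).mp hc
        rw [if_pos hc, if_pos h7.1, if_pos (h6.mpr h7.2), mul_one]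
      · rw [if_neg hc]
        by_cases hc2 : n ≡ a0 [MOD W]
        · rw [if_pos hc2, if_neg, mul_zero]
          intro h8
          exact hc ((hclass n).mpr ⟨hc2, h6.mp h8⟩)
        · rw [if_neg hc2]
    rw [hsum, EPhi_eq, Nat.totient_mul hWQ]
    have g1 : (Nat.totient Q : ℝ) ≠ 0 := by
      have := Nat.totient_pos.mpr hQpos
      positivity
    have g2 : (Nat.totient W : ℝ) ≠ 0 := by
      have := Nat.totient_pos.mpr hW
      positivity
    have g3 : (Q : ℝ) ≠ 0 := by positivity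
    push_cast
    field_simp

open scoped Classical in
theorem htr_of2 (m B Z : ℕ) (C : ℝ) (hC : 0 ≤ C) : ∃ X0 : ℝ, ∀ X : ℝ, X0 ≤ X →
    ∃ (ps : ℕ) (S : Finset ℕ), GoodP Z ps ∧ GoodS X S ∧
      (ps : ℝ) ≤ Real.exp ((Real.log (Real.log X)) ^ 6) ∧
      ∀ PP₁ PP₂ : Finset ℕ, (∀ p ∈ PP₁, p.Prime ∧ Pool.Agent.H378R2.yy X < p ∧ p ≠ ps ∧ (p : ℝ) ≤ X) →
        (∀ p ∈ PP₂, p.Prime ∧ Pool.Agent.H378R2.yy X < p ∧ p ≠ ps ∧ (p : ℝ) ≤ X) → Disjoint PP₁ PP₂ →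
      ∀ (κ : Type) [Fintype κ] [DecidableEq κ], (Fintype.card κ : ℝ) ≤ (Real.log X) ^ 2 →
      ∀ res : ℕ → κ → ℤ, (∀ p ∈ PP₁, ∀ k l, k ≠ l → ¬ ((p : ℤ) ∣ res p k - res p l)) →
        (∀ p ∈ PP₂, ∀ k l, k ≠ l → ¬ ((p : ℤ) ∣ res p k - res p l)) →
        (∀ p ∈ PP₁, ∀ k, ¬ ((p : ℤ) ∣ res p k)) → (∀ p ∈ PP₂, ∀ k, ¬ ((p : ℤ) ∣ res p k)) →
      ∀ a0 : ℕ, a0.Coprime (Pool.Agent.H378R2.WW X S ps) →
      ∀ f : Col (PP₁.card + PP₂.card) κ → ℝ,
        (∀ D, |f D| ≤ (Real.log X) ^ B * nu (fun _ => C) D) →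
        (∀ D, f D ≠ 0 → (cols D).card ≤ m ∧
          ((qn PP₁ (fstc D) * qn PP₂ (sndc D) : ℕ) : ℝ) ≤ X ^ (1 / 100 : ℝ)) →
        |∑ D, f D * (nu (Fin.append (fun i => 1 - 1 / ((emb PP₁ i : ℕ) : ℝ))
            (fun i => 1 - 1 / ((emb PP₂ i : ℕ) : ℝ))) D *
          ∑ n ∈ (Icc 1 ⌊3 * X⌋₊).filter (fun n => n ≡ a0 [MOD Pool.Agent.H378R2.WW X S ps]),
            (Phi (n / X) * ArithmeticFunction.vonMangoldt n) *
              ind D (Fin.append (colr PP₁ res (n : ℤ))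
                (colr PP₂ res (n : ℤ)) : Col (PP₁.card + PP₂.card) κ) -
          LPhi X / (Nat.totient (Pool.Agent.H378R2.WW X S ps) : ℝ) *
            nu (Fin.append (fun i => 1 / ((emb PP₁ i : ℕ) : ℝ))
              (fun i => 1 / ((emb PP₂ i : ℕ) : ℝ))) D)| ≤
          (LPhi X / (Nat.totient (Pool.Agent.H378R2.WW X S ps) : ℝ)) / 8 := by
  set mC : ℝ := (m : ℝ) * C with hmC
  have hmC0 : 0 ≤ mC := by positivity
  obtain ⟨C5, hC5, hcoef⟩ := coef_sum mC hmC0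
  obtain ⟨CM, hCM0, hCM⟩ := sum_inv_pred
  set A : ℕ := B + 3 * m + ⌈mC⌉₊ + 1 with hA
  obtain ⟨X1, hbv⟩ := bvw A Z
  have hlog : Tendsto Real.log atTop atTop := Real.tendsto_log_atTop
  set E0 : ℝ := Real.exp (mC * CM) with hE0
  have hE0p : 0 < E0 := Real.exp_pos _
  apply eventually_atTop.mp
  filter_upwards [eventually_ge_atTop X1, eventually_ge_atTop (3:ℝ),
    hlog.eventually_ge_atTop (2:ℝ), hlog.eventually_ge_atTop (1600 * (E0 * C5)), LPhi_ge]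
    with X hX1 hX3 hL2 hLE hLP
  have hX0 : 0 < X := by linarith
  set L := Real.log X with hL
  have hL0 : 0 < L := by linarith
  have hL1 : 1 ≤ L := by linarith
  obtain ⟨ps, S, hps, hS, hpsb, hmain⟩ := hbv X hX1
  refine ⟨ps, S, hps, hS, hpsb, ?_⟩
  intro PP₁ PP₂ h₁ h₂ hd κ _ _ hκ res hi₁ hi₂ h0₁ h0₂ a0 ha0 f hf hfD
  set W := Pool.Agent.H378R2.WW X S ps with hW
  have hWpos : 0 < W := Pool.Agent.H378R2.LSBV.WW_pos X S ps
  have hφW : (0:ℝ) < Nat.totient W := by exact_mod_cast Nat.totient_pos.mpr hWpos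
  have hp₁ : ∀ p ∈ PP₁, p.Prime := fun p hp => (h₁ p hp).1
  have hp₂ : ∀ p ∈ PP₂, p.Prime := fun p hp => (h₂ p hp).1
  have hW₁ : ∀ p ∈ PP₁, ¬ p ∣ W := fun p hp => not_dvd_WW X S ps p (hp₁ p hp) (h₁ p hp).2.1
  have hW₂ : ∀ p ∈ PP₂, ¬ p ∣ W := fun p hp => not_dvd_WW X S ps p (hp₂ p hp) (h₂ p hp).2.1
  have hcm : ∀ D : Col (PP₁.card + PP₂.card) κ, _ := fun D =>
    class_meas2 X W a0 hWpos ha0 PP₁ PP₂ hp₁ hp₂ hd hW₁ hW₂ κ res hi₁ hi₂ h0₁ h0₂ D
  choose b hb1 hb2 using hcm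
  set q : Col (PP₁.card + PP₂.card) κ → ℕ := fun D => qn PP₁ (fstc D) * qn PP₂ (sndc D) with hq
  have hqpos : ∀ D, 0 < q D := by
    intro D
    simp only [hq]
    rw [q_eq]
    exact Finset.prod_pos fun i _ => (PR_prime hp₁ hp₂ i).pos
  -- the modulus is prime to `W ps`
  have hcopP : ∀ i, (PR PP₁ PP₂ i).Coprime (W * ps) := by
    intro i
    have hi := PR_mem (PP₁ := PP₁) (PP₂ := PP₂) i
    have hpr := PR_prime hp₁ hp₂ i
    have hne : PR PP₁ PP₂ i ≠ ps ∧ ¬ PR PP₁ PP₂ i ∣ W := by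
      rw [Finset.mem_union] at hi
      rcases hi with h | h
      · exact ⟨(h₁ _ h).2.2.1, hW₁ _ h⟩
      · exact ⟨(h₂ _ h).2.2.1, hW₂ _ h⟩
    apply Nat.Coprime.mul_right
    · rw [hpr.coprime_iff_not_dvd]
      exact hne.2
    · rcases hps with h | h
      · rw [h]; exact Nat.coprime_one_right _
      · rw [Nat.coprime_primes hpr h.1]
        exact hne.1
  have hqcop : ∀ D, (q D).Coprime (W * ps) := by
    intro D
    simp only [hq]
    rw [q_eq]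
    exact Nat.Coprime.prod_left fun i _ => hcopP i
  -- the constant
  set M : ℝ := L ^ B with hM
  set Sg : ℝ := ∑ p ∈ PP₁ ∪ PP₂, 1 / ((p : ℝ) - 1) with hSg
  set K : ℝ := M * ((Fintype.card κ : ℝ) + 1) ^ m * Real.exp (mC * Sg) * C5 with hK
  have hK0 : 0 ≤ K := by positivity
  have hSgle : Sg ≤ Real.log L + CM := by
    apply hCM X hX3
    intro p hp
    rw [Finset.mem_union] at hp
    rcases hp with h | h
    · exact ⟨hp₁ p h, (h₁ p h).2.2.2⟩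
    · exact ⟨hp₂ p h, (h₂ p h).2.2.2⟩
  have hexp : Real.exp (mC * Sg) ≤ E0 * L ^ ⌈mC⌉₊ := by
    calc Real.exp (mC * Sg) ≤ Real.exp (mC * CM + ⌈mC⌉₊ * Real.log L) := by
          apply Real.exp_le_exp.mpr
          have h5 : mC * Sg ≤ mC * (Real.log L + CM) := mul_le_mul_of_nonneg_left hSgle hmC0
          have h6 : mC * Real.log L ≤ (⌈mC⌉₊ : ℝ) * Real.log L :=
            mul_le_mul_of_nonneg_right (Nat.le_ceil _) (Real.log_nonneg hL1)
          linarith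
      _ = E0 * L ^ ⌈mC⌉₊ := by
          rw [Real.exp_add, Real.exp_nat_mul, Real.exp_log hL0]
  have hcard : ((Fintype.card κ : ℝ) + 1) ^ m ≤ L ^ (3 * m) := by
    rw [pow_mul]
    apply pow_le_pow_left₀ (by positivity)
    nlinarith [pow_le_pow_left₀ (by norm_num : (0:ℝ) ≤ 2) hL2 2]
  have hKle : K / L ^ A ≤ 1 / 1600 := by
    have h5 : K ≤ L ^ B * L ^ (3 * m) * (E0 * L ^ ⌈mC⌉₊) * C5 := by
      rw [hK]
      apply mul_le_mul_of_nonneg_right _ hC5.le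
      apply mul_le_mul _ hexp (Real.exp_pos _).le (by positivity)
      exact mul_le_mul_of_nonneg_left hcard (by positivity)
    have h6 : L ^ B * L ^ (3 * m) * (E0 * L ^ ⌈mC⌉₊) * C5 = (E0 * C5) * (L ^ A / L) := by
      rw [hA, pow_add, pow_add, pow_add, pow_one]
      field_simp
    rw [div_le_iff₀ (by positivity)]
    refine h5.trans ?_
    rw [h6]
    have h7 : 0 < L ^ A := by positivity
    rw [← mul_div_assoc, div_le_iff₀ hL0]
    nlinarith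
  -- Bombieri-Vinogradov
  have hbvm := hmain (Col (PP₁.card + PP₂.card) κ) f q b K hK0 (fun D hD => by
      refine ⟨hqpos D, (hfD D hD).2, ?_, hqcop D, hb1 D⟩
      simp only [hq]
      rw [q_eq]
      exact sqf_prod hp₁ hp₂ hd _) (fun d hd1 => by
      have h5 := hcoef PP₁ PP₂ hp₁ hp₂ hd κ m C M hC (by positivity) le_rfl f hf
        (fun D hD => (hfD D hD).1) d hd1
      refine le_trans (le_of_eq ?_) (h5.trans (le_of_eq ?_))
      · apply Finset.sum_congr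
        · ext D; simp [hq]
        · intro D _; rfl
      · rw [hK]; ring)
  calc _ = |∑ D, f D * ((Nat.totient (q D) : ℝ) / ((q D : ℕ) : ℝ) * EPhi X (W * q D) (b D))| := by
        congr 1
        apply Finset.sum_congr rfl
        intro D _
        rw [hb2 D]
    _ ≤ ∑ D, |f D| * |EPhi X (W * q D) (b D)| := by
        refine (Finset.abs_sum_le_sum_abs _ _).trans (Finset.sum_le_sum fun D _ => ?_)
        rw [abs_mul, abs_mul]
        apply mul_le_mul_of_nonneg_left _ (abs_nonneg _)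
        have h8 : |(Nat.totient (q D) : ℝ) / ((q D : ℕ) : ℝ)| ≤ 1 := by
          rw [abs_of_nonneg (by positivity), div_le_one (by exact_mod_cast hqpos D)]
          exact_mod_cast Nat.totient_le _
        calc _ ≤ 1 * |EPhi X (W * q D) (b D)| := mul_le_mul_of_nonneg_right h8 (abs_nonneg _)
          _ = _ := one_mul _
    _ ≤ X / (Nat.totient W : ℝ) * (K / L ^ A) := hbvm
    _ ≤ X / (Nat.totient W : ℝ) * (1 / 1600) :=
        mul_le_mul_of_nonneg_left hKle (by positivity)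
    _ = ((X / 200) / (Nat.totient W : ℝ)) / 8 := by ring
    _ ≤ _ := by
        apply div_le_div_of_nonneg_right _ (by norm_num)
        exact div_le_div_of_nonneg_right hLP hφW.le

end Pool.Agent.L5helper1.IS
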