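import Pool.Agent.L5helper1.IS.CovFix
import Pool.Agent.L5helper1.IS.T6a
import Pool.Agent.L5helper1.IS.T6b
import Pool.Agent.L5helper1.IS.T6c
import Pool.Agent.L5helper1.IS.T6d
import Pool.Agent.H378R2.M7j
import Pool.Agent.H378R2.M7r

set_option autoImplicit false
set_option linter.unusedSectionVars false
set_option linter.unusedVariables false
set_option maxHeartbeats 4000000

/-! # One reduced class modulo the big modulus -/

namespace Pool.Agent.L5helper1.IS

open Finset Filter Pool.Agent.H256R2.SC Pool.Agent.Y831.RC Pool.Agent.L5helper1.AS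
open Pool.Agent.H378R2 (Phi LPhi GoodP GoodS)

open scoped Classical

/-- the transfer property (`htr_of2`) -/
def Trf (m B : ℕ) (C X : ℝ) (ps : ℕ) (S : Finset ℕ) : Prop :=
      ∀ PP₁ PP₂ : Finset ℕ, (∀ p ∈ PP₁, p.Prime ∧ Pool.Agent.H378R2.yy X < p ∧ p ≠ ps ∧ (p : ℝ) ≤ X) →
        (∀ p ∈ PP₂, p.Prime ∧ Pool.Agent.H378R2.yy X < p ∧ p ≠ ps ∧ (p : ℝ) ≤ X) → Disjoint PP₁ PP₂ →
      ∀ (κ : Type) [Fintype κ] [DecidableEq κ], (Fintype.card κ : ℝ) ≤ (Real.log X) ^ 2 →
      ∀ res : ℕ → κ → ℤ, (∀ p ∈ PP₁, ∀ k l, k ≠ l → ¬ ((p : ℤ) ∣ res p k - res p l)) →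
        (∀ p ∈ PP₂, ∀ k l, k ≠ l → ¬ ((p : ℤ) ∣ res p k - res p l)) →
        (∀ p ∈ PP₁, ∀ k, ¬ ((p : ℤ) ∣ res p k)) → (∀ p ∈ PP₂, ∀ k, ¬ ((p : ℤ) ∣ res p k)) →
      ∀ a0 : ℕ, a0.Coprime (Pool.Agent.H378R2.WW X S ps) →
      ∀ f : Col (PP₁.card + PP₂.card) κ → ℝ,
        (∀ D, |f D| ≤ (Real.log X) ^ B * nu (fun _ => C) D) →
        (∀ D, f D ≠ 0 → (cols D).card ≤ m ∧
          ((qn PP₁ (fstc D) * qn PP₂ (sndc D) : ℕ) : ℝ) ≤ X ^ (1 / 100 : ℝ)) →
        |∑ D, f D * (nu (Fin.append (fun i => 1 - 1 / ((emb PP₁ i : ℕ) : ℝ))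
            (fun i => 1 - 1 / ((emb PP₂ i : ℕ) : ℝ))) D *
          ∑ n ∈ (Icc 1 ⌊3 * X⌋₊).filter (fun n => n ≡ a0 [MOD Pool.Agent.H378R2.WW X S ps]),
            (Phi (n / X) * ArithmeticFunction.vonMangoldt n) *
              ind D (Fin.append (colr PP₁ res (n : ℤ))
                (colr PP₂ res (n : ℤ)) : Col (PP₁.card + PP₂.card) κ) -
          LPhi X / (Nat.totient (Pool.Agent.H378R2.WW X S ps) : ℝ) *
            nu (Fin.append (fun i => 1 / ((emb PP₁ i : ℕ) : ℝ))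
              (fun i => 1 / ((emb PP₂ i : ℕ) : ℝ))) D)| ≤
          (LPhi X / (Nat.totient (Pool.Agent.H378R2.WW X S ps) : ℝ)) / 8

theorem ev_pow (K a b : ℝ) (hK : 0 < K) (hb : 0 < b) : ∃ L₀ : ℝ, ∀ L : ℝ, L₀ ≤ L → K * L ^ a ≤ Real.exp (b * L) := by
  have h := (isLittleO_rpow_exp_pos_mul_atTop a hb).def (show (0:ℝ) < 1 / K by positivity)
  obtain ⟨L₀, hL₀⟩ := Filter.eventually_atTop.1 (h.and (eventually_ge_atTop (1:ℝ)))
  refine ⟨L₀, fun L hL => ?_⟩
  obtain ⟨h1, h2⟩ := hL₀ L hL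
  rw [Real.norm_of_nonneg (Real.rpow_nonneg (by linarith) _),
    Real.norm_of_nonneg (Real.exp_pos _).le] at h1
  calc K * L ^ a ≤ K * (1 / K * Real.exp (b * L)) := mul_le_mul_of_nonneg_left h1 hK.le
    _ = Real.exp (b * L) := by field_simp

/-- the numerical conditions -/
theorem ev_cls (D e : ℝ) (hD : 0 < D) (he : 1000 ≤ e) (ce : ℝ) : ∃ L₁ : ℝ, ∀ L : ℝ, L₁ ≤ L →
    100 ≤ L ∧ ce ≤ Real.log L ∧ 1 ≤ Real.log L ∧
    (L ^ 2 + 2 * L) * (2 * (100 * L) ^ D + 1) + 1 ≤ L ^ (D + 6) / 2 ∧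
    (Real.log (100 * L)) ^ 6 < L * Real.exp (-e) / e ^ 2 ∧
    2 * Real.exp (3 * ⌈Real.exp e⌉₊ * e) * L ^ (4 * ⌈Real.exp e⌉₊ + 2) ≤
      (100 * L) ^ (4 * ⌈Real.exp e⌉₊ + 3) ∧
    L ^ (D + 6) ≤ Real.exp (L * Real.exp (-e) / e ^ 2) ∧
    ((L ^ 2 + 2 * L) * (2 * (100 * L) ^ D + 1)) * L * (200 * L) * Real.exp (e ^ 2 * Real.exp e) *
      19200 ≤ Real.exp (L * Real.exp (-e) / e ^ 2) := by
  have he0 : 0 < e := by linarith
  set b : ℝ := Real.exp (-e) / e ^ 2 with hb
  have hb0 : 0 < b := by positivity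
  have hLb : ∀ L : ℝ, L * Real.exp (-e) / e ^ 2 = b * L := fun L => by rw [hb]; ring
  set ρ : ℕ := ⌈Real.exp e⌉₊ with hρ
  set Φ : ℝ := Real.exp (e ^ 2 * Real.exp e) with hΦ
  have hΦ0 : 0 < Φ := Real.exp_pos _
  have h100 : (0:ℝ) < 100 ^ D := by positivity
  obtain ⟨L1, h1⟩ := ev_pow 1 (D + 6) b one_pos hb0
  obtain ⟨L2, h2⟩ := ev_pow ((9 * 100 ^ D) * 200 * Φ * 19200) (D + 4) b (by positivity) hb0
  have h3 : ∀ᶠ L : ℝ in atTop, ce ≤ Real.log L ∧ 1 ≤ Real.log L :=
    (Real.tendsto_log_atTop.eventually_ge_atTop _).and (Real.tendsto_log_atTop.eventually_ge_atTop _)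
  have h4 : ∀ᶠ L : ℝ in atTop, (Real.log (100 * L)) ^ 6 < b * L := by
    have e1 : (fun x : ℝ => Real.log x ^ (6:ℝ)) =o[atTop] (fun x : ℝ => x ^ (1:ℝ)) :=
      isLittleO_log_rpow_rpow_atTop 6 one_pos
    have e2 := e1.def (show (0:ℝ) < b / 200 by positivity)
    have e3 : Tendsto (fun L : ℝ => 100 * L) atTop atTop :=
      Filter.Tendsto.const_mul_atTop (by norm_num) Filter.tendsto_id
    filter_upwards [e3.eventually e2, eventually_ge_atTop (1:ℝ)] with L hL hL1
    have hl : 0 ≤ Real.log (100 * L) := Real.log_nonneg (by linarith)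
    rw [Real.norm_of_nonneg (Real.rpow_nonneg hl _), Real.rpow_one,
      Real.norm_of_nonneg (by linarith)] at hL
    have e4 : Real.log (100 * L) ^ (6:ℝ) = (Real.log (100 * L)) ^ 6 := by
      have := Real.rpow_natCast (Real.log (100 * L)) 6
      push_cast at this
      exact this
    rw [e4] at hL
    have e5 : b / 200 * (100 * L) = b * L / 2 := by ring
    rw [e5] at hL
    have e6 : 0 < b * L := by positivity
    linarith
  obtain ⟨L3, h34⟩ := Filter.eventually_atTop.1 (h3.and h4)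
  refine ⟨max (max L1 L2) (max L3 (max 100 (max (36 * 100 ^ D + 4)
    (2 * Real.exp (3 * ρ * e))))), fun L hL => ?_⟩
  have g1 : L1 ≤ L := ((le_max_left _ _).trans (le_max_left _ _)).trans hL
  have g2 : L2 ≤ L := ((le_max_right _ _).trans (le_max_left _ _)).trans hL
  have g3 : L3 ≤ L := ((le_max_left _ _).trans (le_max_right _ _)).trans hL
  have g4 : 100 ≤ L := (((le_max_left _ _).trans (le_max_right _ _)).trans (le_max_right _ _)).trans hL
  have g5 : 36 * 100 ^ D + 4 ≤ L := ((((le_max_left _ _).trans (le_max_right _ _)).trans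
    (le_max_right _ _)).trans (le_max_right _ _)).trans hL
  have g6 : 2 * Real.exp (3 * ρ * e) ≤ L := ((((le_max_right _ _).trans (le_max_right _ _)).trans
    (le_max_right _ _)).trans (le_max_right _ _)).trans hL
  have hL0 : 0 < L := by linarith
  have hL1 : 1 ≤ L := by linarith
  obtain ⟨⟨k1, k2⟩, k3⟩ := h34 L g3
  rw [hLb]
  have hD1 : (100 * L) ^ D = 100 ^ D * L ^ D := Real.mul_rpow (by norm_num) hL0.le
  have hLD : 1 ≤ L ^ D := Real.one_le_rpow hL1 hD.le
  have h100' : 1 ≤ (100:ℝ) ^ D := Real.one_le_rpow (by norm_num) hD.le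
  have hprod : 1 ≤ 100 ^ D * L ^ D := one_le_mul_of_one_le_of_one_le h100' hLD
  have m1 : (L ^ 2 + 2 * L) * (2 * (100 * L) ^ D + 1) ≤ 9 * 100 ^ D * L ^ (D + 2) := by
    have e1 : L ^ 2 + 2 * L ≤ 3 * L ^ 2 := by nlinarith
    have e2 : 2 * (100 * L) ^ D + 1 ≤ 3 * (100 ^ D * L ^ D) := by rw [hD1]; linarith
    have e3 : L ^ (D + 2) = L ^ D * L ^ 2 := by
      rw [Real.rpow_add hL0, Real.rpow_two]
    calc (L ^ 2 + 2 * L) * (2 * (100 * L) ^ D + 1) ≤ (3 * L ^ 2) * (3 * (100 ^ D * L ^ D)) :=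
          mul_le_mul e1 e2 (by positivity) (by positivity)
      _ = 9 * 100 ^ D * L ^ (D + 2) := by rw [e3]; ring
  refine ⟨g4, k1, k2, ?_, k3, ?_, ?_, ?_⟩
  · have e1 : L ^ (D + 6) = L ^ (D + 2) * L ^ 4 := by
      rw [show D + 6 = (D + 2) + 4 by ring, Real.rpow_add hL0 (D + 2) 4]
      congr 1
      have := Real.rpow_natCast L 4
      push_cast at this
      exact this
    have e2 : 1 ≤ L ^ (D + 2) := Real.one_le_rpow hL1 (by linarith)
    have e3 : L ≤ L ^ 4 := by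
      calc L = L ^ 1 := (pow_one L).symm
        _ ≤ L ^ 4 := pow_le_pow_right₀ hL1 (by norm_num)
    have e4 : (18 * 100 ^ D + 2) ≤ L ^ 4 / 2 := by linarith
    rw [e1]
    have e5 := mul_le_mul_of_nonneg_left e4 (show 0 ≤ L ^ (D + 2) by positivity)
    have e6 : 0 < L ^ (D + 2) * 100 ^ D := by positivity
    linarith
  · calc 2 * Real.exp (3 * ρ * e) * L ^ (4 * ρ + 2) ≤ L * L ^ (4 * ρ + 2) :=
          mul_le_mul_of_nonneg_right g6 (by positivity)
      _ = L ^ (4 * ρ + 3) := by ring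
      _ ≤ (100 * L) ^ (4 * ρ + 3) := pow_le_pow_left₀ hL0.le (by linarith) _
  · have := h1 L g1
    rwa [one_mul] at this
  · have e1 := h2 L g2
    refine le_trans ?_ e1
    have e3 : L ^ (D + 4) = L ^ (D + 2) * L ^ 2 := by
      rw [show D + 4 = (D + 2) + 2 by ring, Real.rpow_add hL0 (D + 2) 2, Real.rpow_two]
    have e4 : (L ^ 2 + 2 * L) * (2 * (100 * L) ^ D + 1) * L * (200 * L) * Φ * 19200 =
        ((L ^ 2 + 2 * L) * (2 * (100 * L) ^ D + 1)) * (200 * Φ * 19200 * L ^ 2) := by ring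
    rw [e4]
    have e5 := mul_le_mul_of_nonneg_right m1 (show 0 ≤ 200 * Φ * 19200 * L ^ 2 by positivity)
    refine e5.trans (le_of_eq ?_)
    rw [e3]
    ring

theorem class_thm : ∃ c e₀ : ℝ, 0 < c ∧ 1000 ≤ e₀ ∧ ∀ D : ℝ, 0 < D → ∀ e : ℝ, e₀ ≤ e →
    ∃ X₀ : ℝ, ∀ X : ℝ, X₀ ≤ X → ∀ (ps : ℕ) (S : Finset ℕ),
      (ps : ℝ) ≤ Real.exp ((Real.log (Real.log X)) ^ 6) →
      Trf (2 * ⌈Real.exp e⌉₊ + 1) (4 * ⌈Real.exp e⌉₊ + 3) (2 ^ (2 * ⌈Real.exp e⌉₊ + 3)) X ps S →
      ∀ F : Finset (ℤ × ℤ), (∀ f ∈ F, f.1 ≠ 0 ∧ f.2 ≠ 0) →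
      (∀ f ∈ F, |(f.1 : ℝ)| ≤ Real.exp ((Real.log X) ^ D) ∧
        |(f.2 : ℝ)| ≤ Real.exp ((Real.log X) ^ D)) →
      (∀ f ∈ F, ∀ g ∈ F, f ≠ g → f.1 * g.2 - g.1 * f.2 ≠ 0) →
      (F.card : ℝ) * ((D + 6) * Real.log (Real.log X)) ≤ c * e * Real.log X →
      ∀ a0 : ℕ, a0.Coprime (Pool.Agent.H378R2.WW X S ps) →
      1 / 4 * (LPhi X / (Nat.totient (Pool.Agent.H378R2.WW X S ps) : ℝ)) ≤
        (∑ n ∈ ((Icc 1 ⌊3 * X⌋₊).filter (fun n => n ≡ a0 [MOD Pool.Agent.H378R2.WW X S ps])).filter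
          (fun n : ℕ => ∀ f ∈ F, ∃ p : ℕ, p.Prime ∧ (p : ℝ) ≤ Real.exp (Real.log X / (640000 * e)) ∧
            (p : ℤ) ∣ f.1 * (n : ℤ) + f.2), Phi (n / X) * ArithmeticFunction.vonMangoldt n) *
          Real.exp (e ^ 2 * Real.exp e) := by
  obtain ⟨c, e₀, hc, he₀, hfix⟩ := covM_fix
  refine ⟨c / 100, e₀, by positivity, he₀, fun D hD e he => ?_⟩
  have hAw : (2:ℝ) ≤ D + 6 := by linarith
  obtain ⟨L₀, hL₀⟩ := hfix (D + 6) hAw e he
  have he1000 : 1000 ≤ e := he₀.trans he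
  have he0 : 0 < e := by linarith
  obtain ⟨L₁, hL₁⟩ := ev_cls D e hD he1000 (c * e)
  obtain ⟨X₁, hX₁⟩ := Filter.eventually_atTop.1 Pool.Agent.H378R2.LPhi_ge
  refine ⟨max X₁ (Real.exp (100 * max L₀ L₁)), fun X hX ps S hps htrf F h0 hF hdet hFc a0 ha0 => ?_⟩
  have hX1 : X₁ ≤ X := (le_max_left _ _).trans hX
  have hXe : Real.exp (100 * max L₀ L₁) ≤ X := (le_max_right _ _).trans hX
  have hX0 : 0 < X := lt_of_lt_of_le (Real.exp_pos _) hXe
  obtain ⟨L, hLd⟩ : ∃ L : ℝ, L = Real.log X / 100 := ⟨_, rfl⟩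
  have hlogX : Real.log X = 100 * L := by rw [hLd]; ring
  have hLL : max L₀ L₁ ≤ L := by
    have h1 : 100 * max L₀ L₁ ≤ Real.log X := by
      rw [Real.le_log_iff_exp_le hX0]
      exact hXe
    rw [hlogX] at h1
    linarith only [h1]
  obtain ⟨n1, n2, n2', n3, n4, n5, n6, n7⟩ := hL₁ L ((le_max_right _ _).trans hLL)
  have hLP := hX₁ X hX1
  have hXexp : X = Real.exp (100 * L) := by rw [← hlogX, Real.exp_log hX0]
  have hL0 : 0 < L := by linarith only [n1]
  have hL1 : 1 ≤ L := by linarith only [n1]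
  set W : ℕ := Pool.Agent.H378R2.WW X S ps with hW
  have hWpos : 0 < W := Pool.Agent.H378R2.WW_pos X S ps
  have hWpos' : (0:ℝ) < W := by exact_mod_cast hWpos
  have hX1' : 1 ≤ X := by
    rw [hXexp]
    exact Real.one_le_exp (by linarith only [hL0])
  have hWle : (W : ℝ) ≤ Real.exp L := by
    refine (Pool.Agent.H378R2.WW_le X hX1' S ps).trans (Real.exp_le_exp.2 ?_)
    rw [hlogX]
    linarith only [hL0]
  set w : ℝ := L ^ (D + 6) with hw
  set y : ℝ := Real.exp (L * Real.exp (-e) / e ^ 2) with hy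
  set z : ℝ := Real.exp ((1 / 8 : ℝ) ^ 2 * L / (100 * e)) with hz
  set Φ : ℝ := Real.exp (e ^ 2 * Real.exp e) with hΦ
  have hΦ0 : 0 < Φ := Real.exp_pos _
  have hy0 : 0 < y := Real.exp_pos _
  have hwL2 : L ^ 2 ≤ w := by
    calc L ^ 2 = L ^ (2:ℝ) := (Real.rpow_two L).symm
      _ ≤ L ^ (D + 6) := Real.rpow_le_rpow_of_exponent_le hL1 hAw
  have hw0 : 0 < w := Real.rpow_pos_of_pos hL0 _
  have hwX : Real.log X ≤ w := by
    rw [hlogX]
    have : 100 * L ≤ L * L := mul_le_mul_of_nonneg_right n1 hL0.le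
    have h2 : L ^ 2 = L * L := by ring
    linarith only [this, hwL2, h2]
  have hyyw : ∀ p : ℕ, w < (p:ℝ) → Pool.Agent.H378R2.yy X < p := by
    intro p hp
    unfold Pool.Agent.H378R2.yy
    have hl : 0 ≤ Real.log X / 1000 := by
      rw [hlogX]
      linarith only [hL0]
    have h1 : ((⌊Real.log X / 1000⌋₊ : ℕ) : ℝ) ≤ Real.log X / 1000 := Nat.floor_le hl
    have h2 : ((⌊Real.log X / 1000⌋₊ : ℕ) : ℝ) < (p:ℝ) := by linarith only [h1, hl, hwX, hp]
    exact_mod_cast h2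
  -- number of forms
  have hlogL : Real.log L ≤ Real.log (Real.log X) := by
    apply Real.log_le_log hL0
    rw [hlogX]
    linarith only [hL0]
  have hcard0 : (0:ℝ) ≤ (F.card : ℝ) := Nat.cast_nonneg _
  have hFL : (F.card : ℝ) * ((D + 6) * Real.log L) ≤ c * e * L := by
    have h1 : (F.card : ℝ) * ((D + 6) * Real.log L) ≤
        (F.card : ℝ) * ((D + 6) * Real.log (Real.log X)) := by
      apply mul_le_mul_of_nonneg_left _ hcard0
      exact mul_le_mul_of_nonneg_left hlogL (by linarith only [hAw])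
    rw [hlogX] at hFc h1
    linarith only [h1, hFc]
  have hFc1 : (F.card : ℝ) ≤ L := by
    have h1 : (F.card : ℝ) * (c * e) ≤ L * (c * e) := by
      have h2 : c * e ≤ (D + 6) * Real.log L := by
        have : 1 * Real.log L ≤ (D + 6) * Real.log L :=
          mul_le_mul_of_nonneg_right (by linarith only [hAw]) (by linarith only [n2'])
        linarith only [this, n2]
      have h3 := mul_le_mul_of_nonneg_left h2 hcard0
      linarith only [h3, hFL]
    exact le_of_mul_le_mul_right h1 (by positivity)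
  -- exceptional primes
  obtain ⟨E, hEc, hE⟩ := exc_primes F w ((100 * L) ^ D) (by
      have h1 := Real.exp_one_lt_d9
      have h2 : 3 ≤ w := by nlinarith only [hwL2, n1]
      linarith only [h1, h2]) (by positivity) h0 (by rw [← hlogX]; exact hF) hdet
  have hEc' : (E.card : ℝ) ≤ (L ^ 2 + 2 * L) * (2 * (100 * L) ^ D + 1) := by
    refine hEc.trans ?_
    apply mul_le_mul_of_nonneg_right _ (by positivity)
    have := pow_le_pow_left₀ hcard0 hFc1 2
    linarith only [this, hFc1]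
  obtain ⟨res, hres⟩ := res_exists F (fun k => (k : ℤ × ℤ))
    (fun p => ¬ (w < (p:ℝ) ∧ p ∉ E)) (by
      intro p hp hb k
      simp only [not_not] at hb
      obtain ⟨h1, h2, h3⟩ := hE p hp hb.1 hb.2 k k.2
      exact ⟨h1, h2, fun l hl => h3 l l.2 (fun h => hl (Subtype.ext h))⟩)
  have hcκ : Fintype.card F = F.card := Fintype.card_coe F
  set res' : ℕ → F → ℤ := fun p k =>
    if p ∈ E then ((Fintype.equivFin F k : ℕ) : ℤ) + 1 else res p k with hres'
  set E₁ : Finset ℕ := insert ps E with hE₁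
  set PP₁ : Finset ℕ := PS w y E₁ with hPP₁
  set PP₂ : Finset ℕ := PS y z ∅ with hPP₂
  have hwy : w ≤ y := n6
  have hz1 : z ≤ X := by
    rw [hXexp, hz]
    apply Real.exp_le_exp.2
    rw [div_le_iff₀ (by positivity)]
    have h1 : L * 1 ≤ L * (100 * e) := mul_le_mul_of_nonneg_left (by linarith only [he1000]) hL0.le
    have h2 : 0 < L * (100 * e) := by positivity
    linarith only [h1, h2]
  have hy1 : y ≤ X := by
    rw [hXexp, hy]
    apply Real.exp_le_exp.2
    have h1 : Real.exp (-e) / e ^ 2 ≤ 1 := by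
      rw [div_le_one (by positivity)]
      have e1 : Real.exp (-e) ≤ 1 := by rw [Real.exp_le_one_iff]; linarith only [he0]
      have e2 : 1 ≤ e ^ 2 := by nlinarith only [he1000]
      linarith only [e1, e2]
    have h2 : L * Real.exp (-e) / e ^ 2 = L * (Real.exp (-e) / e ^ 2) := by ring
    rw [h2]
    have h3 := mul_le_mul_of_nonneg_left h1 hL0.le
    linarith only [h3, hL0]
  have hm₁ : ∀ p ∈ PP₁, p.Prime ∧ w < (p:ℝ) ∧ (p:ℝ) ≤ y ∧ p ∉ E₁ := fun p hp => PSE_mem hy0.le hp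
  have hm₂ : ∀ p ∈ PP₂, p.Prime ∧ y < (p:ℝ) ∧ (p:ℝ) ≤ z ∧ p ∉ (∅ : Finset ℕ) := fun p hp =>
    PSE_mem (Real.exp_pos _).le hp
  have hFp : ∀ p : ℕ, w < (p:ℝ) → F.card < p := by
    intro p hp
    have h1 : (F.card : ℝ) < p := by nlinarith only [hFc1, hwL2, hp, n1]
    exact_mod_cast h1
  -- properties of the residues
  have hgood : ∀ p : ℕ, p.Prime → w < (p:ℝ) → (∀ k, ¬ (p : ℤ) ∣ res' p k) ∧
      (∀ k l, k ≠ l → ¬ (p : ℤ) ∣ res' p k - res' p l) := by
    intro p hp hwp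
    by_cases hpE : p ∈ E
    · have hcp := hFp p hwp
      refine ⟨fun k hd => ?_, fun k l hkl hd => ?_⟩
      · simp only [hres'] at hd
        rw [if_pos hpE] at hd
        have hk : (Fintype.equivFin F k : ℕ) < F.card :=
          lt_of_lt_of_le (Fintype.equivFin F k).2 hcκ.le
        have h1 := Int.le_of_dvd (by omega) hd
        omega
      · simp only [hres'] at hd
        rw [if_pos hpE, if_pos hpE] at hd
        have hk : (Fintype.equivFin F k : ℕ) < F.card :=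
          lt_of_lt_of_le (Fintype.equivFin F k).2 hcκ.le
        have hl : (Fintype.equivFin F l : ℕ) < F.card :=
          lt_of_lt_of_le (Fintype.equivFin F l).2 hcκ.le
        have h7 : ((Fintype.equivFin F k : ℕ) : ℤ) + 1 - (((Fintype.equivFin F l : ℕ) : ℤ) + 1) = 0 := by
          apply Int.eq_zero_of_abs_lt_dvd hd
          rw [abs_lt]
          constructor <;> omega
        apply hkl
        apply (Fintype.equivFin F).injective
        apply Fin.ext
        omega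
    · obtain ⟨_, h2, h3⟩ := hres p hp (by simp only [not_not]; exact ⟨hwp, hpE⟩)
      refine ⟨fun k => ?_, fun k l hkl => ?_⟩
      · simp only [hres']
        rw [if_neg hpE]
        exact h2 k
      · simp only [hres']
        rw [if_neg hpE, if_neg hpE]
        exact h3 k l hkl
  have hyw' : ∀ p : ℕ, y < (p:ℝ) → w < (p:ℝ) := fun p hp => lt_of_le_of_lt hwy hp
  have hpsy : (ps : ℝ) < y := by
    refine lt_of_le_of_lt hps ?_
    rw [hy]
    apply Real.exp_lt_exp.2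
    rw [hlogX]
    exact n4
  -- the sum over the exceptional primes of the first block
  have hEsum : ∑ p ∈ E₁.filter (fun p : ℕ => L ^ (D + 6) < (p:ℝ)), 1 / (p:ℝ) ≤ 1 / 2 := by
    have hc1 : (E₁.card : ℝ) ≤ w / 2 := by
      have h1 : E₁.card ≤ E.card + 1 := Finset.card_insert_le _ _
      have h2 : (E₁.card : ℝ) ≤ (E.card : ℝ) + 1 := by exact_mod_cast h1
      linarith only [h2, hEc', n3]
    calc ∑ p ∈ E₁.filter (fun p : ℕ => w < (p:ℝ)), 1 / (p:ℝ)
        ≤ ∑ p ∈ E₁.filter (fun p : ℕ => w < (p:ℝ)), 1 / w := by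
          apply Finset.sum_le_sum
          intro p hp
          exact one_div_le_one_div_of_le hw0 (Finset.mem_filter.1 hp).2.le
      _ = ((E₁.filter (fun p : ℕ => w < (p:ℝ))).card : ℝ) * (1 / w) := by
          rw [Finset.sum_const, nsmul_eq_mul]
      _ ≤ (w / 2) * (1 / w) := by
          apply mul_le_mul_of_nonneg_right _ (by positivity)
          refine le_trans ?_ hc1
          exact_mod_cast Finset.card_le_card (Finset.filter_subset _ _)
      _ = 1 / 2 := by field_simp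
  set 𝒜 : Finset ℕ := (Icc 1 ⌊3 * X⌋₊).filter (fun n => n ≡ a0 [MOD W]) with h𝒜
  set mu : ℕ → ℝ := fun n => Phi (n / X) * ArithmeticFunction.vonMangoldt n with hmu
  have hmu0 : ∀ n, 0 ≤ mu n := fun n =>
    mul_nonneg (Pool.Agent.H378R2.Phi_nonneg _) ArithmeticFunction.vonMangoldt_nonneg
  have hφ : (0:ℝ) < Nat.totient W := by exact_mod_cast Nat.totient_pos.2 hWpos
  have hLP0 : 0 < LPhi X := by
    have : 0 < X / 200 := by positivity
    linarith only [this, hLP]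
  set N : ℝ := LPhi X / (Nat.totient W : ℝ) with hN
  have hN0 : 0 < N := by positivity
  have hmain := hL₀ L ((le_max_left _ _).trans hLL) F (by rw [hcκ]; exact hFL) E₁ hEsum res' PP₁ PP₂
    rfl rfl (fun p hp => (hgood p (hm₁ p hp).1 (hm₁ p hp).2.1).2)
    (fun p hp => (hgood p (hm₂ p hp).1 (hyw' p (hm₂ p hp).2.1)).2) 𝒜 mu (fun a _ => hmu0 a) N hN0.le
    (by
      intro f hf1 hf2
      refine htrf PP₁ PP₂ ?_ ?_ ?_ F ?_ res' (fun p hp => (hgood p (hm₁ p hp).1 (hm₁ p hp).2.1).2)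
        (fun p hp => (hgood p (hm₂ p hp).1 (hyw' p (hm₂ p hp).2.1)).2)
        (fun p hp => (hgood p (hm₁ p hp).1 (hm₁ p hp).2.1).1)
        (fun p hp => (hgood p (hm₂ p hp).1 (hyw' p (hm₂ p hp).2.1)).1) a0 ha0 f ?_ ?_
      · intro p hp
        obtain ⟨h1, h2, h3, h4⟩ := hm₁ p hp
        refine ⟨h1, hyyw p h2, fun h => h4 ?_, h3.trans hy1⟩
        rw [hE₁, h]
        exact Finset.mem_insert_self _ _
      · intro p hp
        obtain ⟨h1, h2, h3, _⟩ := hm₂ p hp
        refine ⟨h1, hyyw p (hyw' p h2), fun h => ?_, h3.trans hz1⟩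
        rw [h] at h2
        exact lt_irrefl _ (h2.trans hpsy)
      · rw [Finset.disjoint_left]
        intro p hp hp'
        have h1 := (hm₁ p hp).2.2.1
        have h2 := (hm₂ p hp').2.1
        linarith only [h1, h2]
      · rw [hcκ, hlogX]
        nlinarith only [hFc1, hL1, n1]
      · intro D'
        refine (hf1 D').trans ?_
        apply mul_le_mul_of_nonneg_right _ (nu_nn (fun i => by positivity) _)
        rw [hlogX]
        exact n5
      · intro D' hD'
        refine ⟨(hf2 D' hD').1, (hf2 D' hD').2.trans (le_of_eq ?_)⟩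
        rw [hXexp, ← Real.exp_mul]
        congr 1
        ring)
  -- remove the fake residues
  set G : Finset ℕ := 𝒜.filter (fun n : ℕ => ∀ f ∈ F, ∃ p : ℕ, p.Prime ∧
    (p : ℝ) ≤ Real.exp (Real.log X / (640000 * e)) ∧ (p : ℤ) ∣ f.1 * (n : ℤ) + f.2) with hG
  set H : Finset ℕ := 𝒜.filter (fun x : ℕ => ∀ k : F, ∃ p ∈ PP₁ ∪ PP₂,
      (p : ℤ) ∣ (x : ℤ) - res' p k) with hH
  set T : Finset (ℕ × F) := (E.filter (fun p : ℕ => p.Prime ∧ y < (p:ℝ))) ×ˢ (univ : Finset F) with hT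
  have hsub : H ⊆ G ∪ T.biUnion (fun t => 𝒜.filter (fun n : ℕ => (t.1 : ℤ) ∣ (n : ℤ) - res' t.1 t.2)) := by
    intro n hn
    rw [hH, Finset.mem_filter] at hn
    rw [Finset.mem_union]
    by_cases hb : ∃ p ∈ E, p.Prime ∧ y < (p:ℝ) ∧ ∃ k : F, (p : ℤ) ∣ (n : ℤ) - res' p k
    · right
      obtain ⟨p, h1, h2, h3, k, h4⟩ := hb
      rw [Finset.mem_biUnion]
      refine ⟨(p, k), ?_, ?_⟩
      · rw [hT, Finset.mem_product, Finset.mem_filter]
        exact ⟨⟨h1, h2, h3⟩, Finset.mem_univ _⟩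
      · rw [Finset.mem_filter]
        exact ⟨hn.1, h4⟩
    · left
      rw [hG, Finset.mem_filter]
      refine ⟨hn.1, fun f hf => ?_⟩
      obtain ⟨p, hp, hd⟩ := hn.2 ⟨f, hf⟩
      have hpz : p.Prime ∧ w < (p:ℝ) ∧ (p:ℝ) ≤ z ∧ p ∉ E := by
        rw [Finset.mem_union] at hp
        rcases hp with hp | hp
        · obtain ⟨h1, h2, h3, h4⟩ := hm₁ p hp
          refine ⟨h1, h2, ?_, fun h => h4 (Finset.mem_insert_of_mem h)⟩
          refine h3.trans ?_
          rw [hy, hz]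
          apply Real.exp_le_exp.2
          rw [div_le_div_iff₀ (by positivity) (by positivity)]
          have e1 : 100 * (64 * Real.exp (-e)) ≤ e := by
            have e2 : Real.exp (-e) * Real.exp e = 1 := by rw [← Real.exp_add]; norm_num
            have e3 := Real.add_one_le_exp e
            have e4 := Real.exp_pos (-e)
            nlinarith only [e2, e3, e4, he1000]
          have e2 : L * Real.exp (-e) * (100 * e) = (100 * (64 * Real.exp (-e))) * (L * e) / 64 := by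
            ring
          have e3 := mul_le_mul_of_nonneg_right e1 (show 0 ≤ L * e by positivity)
          rw [e2]
          have e4 : (1 / 8 : ℝ) ^ 2 * L * e ^ 2 = e * (L * e) / 64 := by ring
          rw [e4]
          linarith only [e3]
        · obtain ⟨h1, h2, h3, _⟩ := hm₂ p hp
          exact ⟨h1, hyw' p h2, h3, fun h => hb ⟨p, h, h1, h2, _, hd⟩⟩
      obtain ⟨h1, h2, h3, h4⟩ := hpz
      refine ⟨p, h1, ?_, ?_⟩
      · have e1 : (1 / 8 : ℝ) ^ 2 * L / (100 * e) = Real.log X / (640000 * e) := by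
          rw [hlogX]
          field_simp
          ring
        rw [← e1]
        exact h3
      · simp only [hres'] at hd
        rw [if_neg h4] at hd
        have h5 := (hres p h1 (by simp only [not_not]; exact ⟨h2, h4⟩)).1 ⟨f, hf⟩ (n : ℤ)
        exact h5.1 hd
  have hsum1 : ∑ a ∈ H, mu a ≤ ∑ a ∈ G, mu a +
      ∑ t ∈ T, ∑ a ∈ 𝒜.filter (fun n : ℕ => (t.1 : ℤ) ∣ (n : ℤ) - res' t.1 t.2), mu a := by
    have e1 : ∑ a ∈ H, mu a ≤ ∑ a ∈ G ∪ T.biUnion (fun t => 𝒜.filter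
        (fun n : ℕ => (t.1 : ℤ) ∣ (n : ℤ) - res' t.1 t.2)), mu a :=
      Finset.sum_le_sum_of_subset_of_nonneg hsub fun a _ _ => hmu0 a
    have e2 : ∀ A B : Finset ℕ, ∑ a ∈ A ∪ B, mu a ≤ ∑ a ∈ A, mu a + ∑ a ∈ B, mu a := by
      intro A B
      have := Finset.sum_union_inter (s₁ := A) (s₂ := B) (f := mu)
      have h2 : 0 ≤ ∑ a ∈ A ∩ B, mu a := Finset.sum_nonneg fun a _ => hmu0 a
      linarith only [this, h2]
    have e3 : ∀ T' : Finset (ℕ × F), ∑ a ∈ T'.biUnion (fun t => 𝒜.filter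
        (fun n : ℕ => (t.1 : ℤ) ∣ (n : ℤ) - res' t.1 t.2)), mu a ≤
        ∑ t ∈ T', ∑ a ∈ 𝒜.filter (fun n : ℕ => (t.1 : ℤ) ∣ (n : ℤ) - res' t.1 t.2), mu a := by
      intro T'
      induction T' using Finset.induction_on with
      | empty => simp
      | insert t T' ht ih =>
        rw [Finset.biUnion_insert, Finset.sum_insert ht]
        exact (e2 _ _).trans (by linarith only [ih])
    exact e1.trans ((e2 _ _).trans (by linarith only [e3 T]))
  have hbad : ∀ t ∈ T, ∑ a ∈ 𝒜.filter (fun n : ℕ => (t.1 : ℤ) ∣ (n : ℤ) - res' t.1 t.2), mu a ≤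
      (3 * X / (W * y) + 1) * (200 * L) := by
    intro t ht
    rw [hT, Finset.mem_product, Finset.mem_filter] at ht
    obtain ⟨⟨h1, h2, h3⟩, _⟩ := ht
    have h4 : ¬ t.1 ∣ W := by
      intro hd
      have h5 := (Pool.Agent.H378R2.prime_dvd_WW h2).1 hd
      have h6 := (Pool.Agent.H378R2.mem_PW.1 h5).1
      have h7 := hyyw t.1 (hyw' _ h3)
      omega
    have hX4 : 4 ≤ X := by
      rw [hXexp]
      have := Real.add_one_le_exp (100 * L)
      linarith only [this, n1]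
    refine (bad_meas X hX4 W t.1 a0 hWpos h2 h4 _).trans ?_
    have h5 : Real.log (3 * X) ≤ 200 * L := by
      rw [Real.log_mul (by norm_num) hX0.ne', hlogX]
      have h6 : Real.log 3 ≤ 3 - 1 := Real.log_le_sub_one_of_pos (by norm_num)
      linarith only [h6, n1]
    have h6 : 3 * X / (W * t.1) ≤ 3 * X / (W * y) := by
      apply div_le_div_of_nonneg_left (by positivity) (by positivity)
      exact mul_le_mul_of_nonneg_left h3.le hWpos'.le
    have h7 : 0 ≤ Real.log (3 * X) := Real.log_nonneg (by linarith only [hX4])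
    exact mul_le_mul (by linarith only [h6]) h5 h7 (by positivity)
  have hTc : (T.card : ℝ) ≤ ((L ^ 2 + 2 * L) * (2 * (100 * L) ^ D + 1)) * L := by
    have e1 : T.card ≤ E.card * F.card := by
      rw [hT, Finset.card_product, Finset.card_univ, hcκ]
      exact Nat.mul_le_mul_right _ (Finset.card_le_card (Finset.filter_subset _ _))
    have e2 : (T.card : ℝ) ≤ (E.card : ℝ) * (F.card : ℝ) := by exact_mod_cast e1
    exact e2.trans (mul_le_mul hEc' hFc1 hcard0 (by positivity))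
  have hbadsum : (∑ t ∈ T, ∑ a ∈ 𝒜.filter (fun n : ℕ => (t.1 : ℤ) ∣ (n : ℤ) - res' t.1 t.2), mu a) * Φ ≤
      N / 8 := by
    have e1 : ∑ t ∈ T, ∑ a ∈ 𝒜.filter (fun n : ℕ => (t.1 : ℤ) ∣ (n : ℤ) - res' t.1 t.2), mu a ≤
        (T.card : ℝ) * ((3 * X / (W * y) + 1) * (200 * L)) := by
      have := Finset.sum_le_sum hbad
      rw [Finset.sum_const, nsmul_eq_mul] at this
      exact this
    set Q : ℝ := ((L ^ 2 + 2 * L) * (2 * (100 * L) ^ D + 1)) * L * (200 * L) * Φ with hQ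
    have hQ0 : 0 < Q := by positivity
    have e2 : (∑ t ∈ T, ∑ a ∈ 𝒜.filter (fun n : ℕ => (t.1 : ℤ) ∣ (n : ℤ) - res' t.1 t.2), mu a) * Φ ≤
        Q * (3 * X / (W * y) + 1) := by
      calc (∑ t ∈ T, ∑ a ∈ 𝒜.filter (fun n : ℕ => (t.1 : ℤ) ∣ (n : ℤ) - res' t.1 t.2), mu a) * Φ
          ≤ ((T.card : ℝ) * ((3 * X / (W * y) + 1) * (200 * L))) * Φ :=
            mul_le_mul_of_nonneg_right e1 hΦ0.le
        _ ≤ ((((L ^ 2 + 2 * L) * (2 * (100 * L) ^ D + 1)) * L) *
            ((3 * X / (W * y) + 1) * (200 * L))) * Φ := by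
            apply mul_le_mul_of_nonneg_right _ hΦ0.le
            exact mul_le_mul_of_nonneg_right hTc (by positivity)
        _ = Q * (3 * X / (W * y) + 1) := by rw [hQ]; ring
    refine e2.trans ?_
    have hQy : Q * 19200 ≤ y := n7
    have e3 : X / (200 * W) ≤ N := by
      rw [hN]
      have e4 : (Nat.totient W : ℝ) ≤ W := by exact_mod_cast Nat.totient_le W
      calc X / (200 * W) = (X / 200) / W := by rw [div_div]
        _ ≤ LPhi X / W := div_le_div_of_nonneg_right hLP hWpos'.le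
        _ ≤ LPhi X / (Nat.totient W : ℝ) := div_le_div_of_nonneg_left hLP0.le hφ e4
    have e5 : Q * (3 * X / (W * y)) ≤ X / (200 * W) / 16 := by
      have e6 : Q * (3 * X / (W * y)) = (Q * 19200) * (X / (6400 * (W * y))) := by
        field_simp
        ring
      have e7 : X / (200 * W) / 16 = y * (X / (3200 * (W * y))) := by
        field_simp
        ring
      rw [e6, e7]
      apply mul_le_mul hQy _ (by positivity) hy0.le
      apply div_le_div_of_nonneg_left hX0.le (by positivity)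
      have : 0 < (W:ℝ) * y := by positivity
      linarith only [this]
    have e8 : Q * 1 ≤ X / (200 * W) / 16 := by
      rw [div_div, le_div_iff₀ (by positivity)]
      have e9 : Q * 1 * (200 * W * 16) = (Q * 3200) * W := by ring
      rw [e9]
      have e10 : Q * 3200 ≤ y := by linarith only [hQy, hQ0]
      have e11 : y ≤ Real.exp L := by
        rw [hy]
        apply Real.exp_le_exp.2
        have h1 : Real.exp (-e) / e ^ 2 ≤ 1 := by
          rw [div_le_one (by positivity)]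
          have e1 : Real.exp (-e) ≤ 1 := by rw [Real.exp_le_one_iff]; linarith only [he0]
          have e2 : 1 ≤ e ^ 2 := by nlinarith only [he1000]
          linarith only [e1, e2]
        have h2 : L * Real.exp (-e) / e ^ 2 = L * (Real.exp (-e) / e ^ 2) := by ring
        rw [h2]
        have h3 := mul_le_mul_of_nonneg_left h1 hL0.le
        linarith only [h3]
      calc (Q * 3200) * W ≤ Real.exp L * Real.exp L :=
            mul_le_mul (e10.trans e11) hWle hWpos'.le (Real.exp_pos _).le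
        _ = Real.exp (2 * L) := by rw [← Real.exp_add]; congr 1; ring
        _ ≤ X := by
            rw [hXexp]
            apply Real.exp_le_exp.2
            linarith only [hL0]
    linarith only [e3, e5, e8]
  have hfin := mul_le_mul_of_nonneg_right hsum1 hΦ0.le
  rw [add_mul] at hfin
  linarith only [hmain, hfin, hbadsum]

end Pool.Agent.L5helper1.IS
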