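import Pool.Agent.L5helper1.IS.Rep2

set_option autoImplicit false
set_option linter.unusedSectionVars false
set_option linter.unusedVariables false
set_option maxHeartbeats 4000000

/-! # The covering sieve: the weight, with pointwise coefficient bounds; transfer to a measure -/

namespace Pool.Agent.L5helper1.IS

open Finset Pool.Agent.H256R2.SC Pool.Agent.Y831.RC

variable {n₁ n₂ : ℕ} {κ : Type} [Fintype κ] [DecidableEq κ]

theorem cols_two (D : Col (n₁ + n₂) κ) : cols D ⊆ cols (fstc D) ∪ cols (sndc D) := by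
  intro k hk
  rw [mem_cols] at hk
  obtain ⟨i, hi⟩ := hk
  rw [mem_fib] at hi
  rw [Finset.mem_union, mem_cols, mem_cols]
  revert hi
  refine Fin.addCases (fun j hj => ?_) (fun j hj => ?_) i
  · left
    exact ⟨j, mem_fib.2 hj⟩
  · right
    exact ⟨j, mem_fib.2 hj⟩

theorem fstc_un (D D' : Col (n₁ + n₂) κ) : fstc (un D D') = un (fstc D) (fstc D') := rfl

theorem sndc_un (D D' : Col (n₁ + n₂) κ) : sndc (un D D') = un (sndc D) (sndc D') := rfl

/-- the weight -/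
theorem coreF {p g₂ : Fin n₂ → ℝ} {h : Finset (Fin n₂) → ℝ} {z K v₀ : ℝ} (H : HypS p g₂ h z K v₀)
    (g₁ : Fin n₁ → ℝ) (R : κ → Col n₁ κ → ℝ) (m τ : ℝ) (HR : BHyp g₁ R m τ)
    (hτ0 : 0 ≤ τ) (hτ1 : τ ≤ 1) (p₁ : Fin n₁ → ℝ) (hp₁ : ∀ i, 1 ≤ p₁ i) (Λ : ℝ) (hΛ : 1 ≤ Λ)
    (hRep : ∀ k, Rep (fun _ => 2) 1 (fun D => cols D ⊆ {k} ∧ qq p₁ D ≤ Λ) (R k))
    (zz : ℝ) (hzz1 : 1 ≤ zz) (hzz : ∀ i, p i ≤ zz)
    (Q δ η R₂ : ℝ) (J m₀ r : ℕ) (hJ : Even J) (hm₀ : m₀ ≤ J)
    (hQz : 1 ≤ Q) (hη0 : 0 < η) (hη1 : η ≤ 1)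
    (hg₁ : ∀ i, 0 ≤ g₁ i) (hg₁u : ∀ i, (Fintype.card κ : ℝ) * g₁ i ≤ 1 / 2)
    (hρ1 : 0 ≤ rho g₁ 1)
    (hg1 : ∀ i, g₂ i ≤ 1) (htg : ∀ i, 3 * 3 * g₂ i ≤ 1)
    (hug : ∀ i, (Fintype.card κ : ℝ) * g₂ i ≤ 1)
    (hδ : ∀ D : Col n₂ κ, qq p D ≤ Q → 2 * ∑ i with D i ≠ none, g₂ i ≤ δ)
    (hug4 : (Fintype.card κ : ℝ) * δ ≤ 1 / 4)
    (hr : Real.log Q / v₀ ≤ r) (hrm : (r:ℝ) + 1 ≤ m) (hR₂ : 1 ≤ R₂)
    (hcard : ∀ s, h s ≠ 0 → s.card ≤ m₀)
    (hE8 : Real.exp (η * ((1 + η) * (Fintype.card κ : ℝ) *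
      (rho g₁ 1 * K) / Real.log z - Real.log (Q / z) / Real.log z)) ≤ 1 / 8)
    (htail : 4 * ((Fintype.card κ : ℝ) * rho g₁ 1) * (τ + (δ ^ 2 +
      Real.exp (η * ((1 + η) * (Fintype.card κ : ℝ) *
      (rho g₁ 1 * K) / Real.log z - Real.log (Q / z) / Real.log z)))) ≤ 1 / 12)
    (hmom : 2 * ((Fintype.card κ : ℝ) * rho g₁ 1) * ((1 / 3) ^ J *
      Real.exp (20 * ∑ i, g₂ i)) ≤ 1 / 12)
    (hpen : 2 * ((Fintype.card κ : ℝ) * rho g₁ 1) * Real.exp (20 * ∑ i, g₂ i) ≤ R₂ / 12) :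
    ∃ F : Col (n₁ + n₂) κ → ℝ, 1 / 2 ≤ EE (Fin.append g₁ g₂) F ∧
      (∀ x, F x ≤ if (∀ k, ∃ i, x i = some k) then
        (3 * (1 + 3 * Real.exp (∑ i, g₂ i) * ((J : ℝ) + 2) ^ (2 * J) * (R₂ + 1)) ^ r) ^ 2 else 0) ∧
      Rep (fun _ => (2:ℝ) ^ (2 * r + 3))
        ((((Fintype.card κ : ℝ) + 1) ^ r * Real.exp (r * ∑ i, g₂ i)) ^ 2 *
          (1 + 2 * (Fintype.card κ : ℝ)))
        (fun D => (cols D).card ≤ 2 * r + 1 ∧ qq p₁ (fstc D) ≤ Λ ^ (2 * r + 1) ∧
          qq p (sndc D) ≤ Q ^ 2 * zz ^ J) F := by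
  set u : ℝ := (Fintype.card κ : ℝ) with hu
  have hu0 : 0 ≤ u := Nat.cast_nonneg _
  have hQ0 : 0 < Q := by linarith
  have hz0 : 0 < z := by linarith [H.z1]
  have hw : ∀ i (c : Option κ), 0 ≤ wt (g₂ i) c := fun i c => wt_nonneg (H.g0 i).le (hug i) c
  have hw₁ : ∀ i (c : Option κ), 0 ≤ wt (g₁ i) c := fun i c =>
    wt_nonneg (hg₁ i) (by linarith [hg₁u i]) c
  set E : ℝ := Real.exp (η * ((1 + η) * u * (rho g₁ 1 * K) / Real.log z -
    Real.log (Q / z) / Real.log z)) with hE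
  set Z : ℝ := Zw (om g₁ : Col n₂ κ → ℝ) g₂ h with hZ
  have hZ1 : 1 ≤ Z := Zw_ge_one H hg₁ hg₁u
  have hE0 : 0 < E := Real.exp_pos _
  have hp1 : ∀ i, 1 ≤ p i := fun i => (H.p1 i).le
  have hT : ∑ D : Col n₂ κ with Q / z < qq p D, om g₁ D * ((yy h D) ^ 2 * nu g₂ D) ≤ E * Z :=
    tail_rho H (om g₁) (om_nonneg hg₁ hg₁u) (rho g₁ 1) hρ1
      (fun D k hD => om_step hg₁ hg₁u D k hD) η hη0 hη1 (Q / z) (by positivity)
  have hT8 : E * Z ≤ 1 / 8 * Z := by nlinarith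
  have hm1 : Real.log Q / v₀ + 1 ≤ m := by linarith
  set V : Col n₁ κ → Col n₂ κ → ℝ := V5 g₂ (yT p h Q) R with hV
  have hlow : 3 / 4 * Z ≤ EE g₁ (fun x₁ => EE g₂ (fun x₂ => (V x₁ x₂) ^ 2)) :=
    lower5 H HR hg₁ hg₁u Q δ (E * Z) hug hδ hug4 hQ0 hT hT8 (by linarith)
  set G : Col (n₁ + n₂) κ → ℝ := fun x => V (fstc x) (sndc x) with hG
  set B : κ → Col (n₁ + n₂) κ → ℝ := fun k x => R k (fstc x) * (SS J k (sndc x) + 1 / R₂) with hB
  set e20 : ℝ := Real.exp (20 * ∑ i, g₂ i) with he20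
  have he0 : 0 < e20 := Real.exp_pos _
  -- the majorants
  have hup : ∀ k, EE (Fin.append g₁ g₂) (fun x => (G x) ^ 2 * B k x) ≤
      4 * rho g₁ 1 * (τ * Z + (δ ^ 2 * Z + E * Z)) + ((1 / 3) ^ J + 1 / R₂) *
        (2 * rho g₁ 1 * e20 * Z) := by
    intro k
    rw [EE_append]
    have h1 := avoid5 H HR hτ0 hτ1 hg₁ hg₁u hρ1 Q δ (E * Z) hug hδ hQ0 hm1 hT k
    have h2 := moment5 H HR hτ1 hg₁ hg₁u hρ1 Q hug htg hm1 k
    have h3 : EE g₁ (fun x₁ => EE g₂ (fun x₂ =>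
        (G (Fin.append x₁ x₂)) ^ 2 * B k (Fin.append x₁ x₂))) ≤
        EE g₁ (fun x₁ : Col n₁ κ => EE g₂ (fun x₂ : Col n₂ κ =>
          R k x₁ * ((if (∀ i, x₂ i ≠ some k) then 1 else 0) * (V x₁ x₂) ^ 2)) +
          ((1 / 3) ^ J + 1 / R₂) * EE g₂ (fun x₂ : Col n₂ κ => R k x₁ *
            ((∏ i, if x₂ i = some k then (1:ℝ) + 3 else 1) * (V x₁ x₂) ^ 2))) := by
      apply EE_mono hw₁
      intro x₁
      rw [← EE_smul, ← EE_add]
      apply EE_mono hw
      intro x₂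
      have h4 := SS_upper J hJ 3 (by norm_num) k x₂
      have h6 : G (Fin.append x₁ x₂) = V x₁ x₂ := by
        simp only [hG]
        rw [fstc_append, sndc_append]
      have h6' : B k (Fin.append x₁ x₂) = R k x₁ * (SS J k x₂ + 1 / R₂) := by
        simp only [hB]
        rw [fstc_append, sndc_append]
      rw [h6, h6']
      have h8 : (1:ℝ) ≤ ∏ i, if x₂ i = some k then (1:ℝ) + 3 else 1 := by
        have e0 : (1:ℝ) = ∏ _i : Fin n₂, (1:ℝ) := by simp
        refine le_trans (le_of_eq e0) ?_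
        apply Finset.prod_le_prod (fun _ _ => zero_le_one)
        intro i _
        split_ifs <;> norm_num
      have h9 : 0 ≤ 1 / R₂ := by positivity
      have h10 : SS J k x₂ + 1 / R₂ ≤ (if ∀ i, x₂ i ≠ some k then (1 : ℝ) else 0) +
          ((1 / 3) ^ J + 1 / R₂) * ∏ i, (if x₂ i = some k then 1 + 3 else 1) := by
        have := mul_le_mul_of_nonneg_left h8 h9
        nlinarith
      have h11 : 0 ≤ R k x₁ * (V x₁ x₂) ^ 2 := mul_nonneg (HR.nn k x₁) (sq_nonneg _)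
      have h7 := mul_le_mul_of_nonneg_left h10 h11
      refine le_trans (le_of_eq ?_) (h7.trans (le_of_eq ?_))
      · ring
      · ring
    refine h3.trans ?_
    rw [EE_add, EE_smul]
    have h9 := mul_le_mul_of_nonneg_left h2 (show (0:ℝ) ≤ (1 / 3) ^ J + 1 / R₂ by positivity)
    exact add_le_add h1 h9
  set F : Col (n₁ + n₂) κ → ℝ := fun x => G x ^ 2 * (1 - ∑ k, B k x) with hF
  have hEF : Z / 2 ≤ EE (Fin.append g₁ g₂) F := by
    have e1 : EE (Fin.append g₁ g₂) F = EE (Fin.append g₁ g₂) (fun x => (G x) ^ 2) -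
        ∑ k, EE (Fin.append g₁ g₂) (fun x => (G x) ^ 2 * B k x) := by
      rw [← EE_sum, ← EE_sub]
      congr 1
      funext x
      rw [hF]
      simp only
      rw [← Finset.mul_sum]
      ring
    have e0 : EE (Fin.append g₁ g₂) (fun x => (G x) ^ 2) =
        EE g₁ (fun x₁ => EE g₂ (fun x₂ => (V x₁ x₂) ^ 2)) := by
      rw [EE_append]
      simp only [hG, fstc_append, sndc_append]
    rw [e1, e0]
    have e2 : ∑ k : κ, EE (Fin.append g₁ g₂) (fun x => (G x) ^ 2 * B k x) ≤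
        u * (4 * rho g₁ 1 * (τ * Z + (δ ^ 2 * Z + E * Z)) + ((1 / 3) ^ J + 1 / R₂) *
        (2 * rho g₁ 1 * e20 * Z)) := by
      refine (Finset.sum_le_sum (fun k _ => hup k)).trans ?_
      rw [Finset.sum_const, Finset.card_univ, nsmul_eq_mul]
    have hZ0 : 0 ≤ Z := by linarith
    have e3 : u * (4 * rho g₁ 1 * (τ * Z + (δ ^ 2 * Z + E * Z))) ≤ 1 / 12 * Z := by
      have := mul_le_mul_of_nonneg_right htail hZ0
      linarith
    have e4 : u * ((1 / 3) ^ J * (2 * rho g₁ 1 * e20 * Z)) ≤ 1 / 12 * Z := by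
      have := mul_le_mul_of_nonneg_right hmom hZ0
      linarith
    have e5 : u * (1 / R₂ * (2 * rho g₁ 1 * e20 * Z)) ≤ 1 / 12 * Z := by
      have h0 : 2 * (u * rho g₁ 1) * e20 * (1 / R₂) ≤ R₂ / 12 * (1 / R₂) :=
        mul_le_mul_of_nonneg_right hpen (by positivity)
      have h1 : R₂ / 12 * (1 / R₂) = 1 / 12 := by
        have : R₂ ≠ 0 := by positivity
        field_simp
      rw [h1] at h0
      have := mul_le_mul_of_nonneg_right h0 hZ0
      linarith
    nlinarith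
  have hyy1 : ∀ D : Col n₂ κ, |yT p h Q D| ≤ 1 := by
    intro D
    unfold yT
    split_ifs
    · exact yy_abs_le H.h0 H.h1 D
    · simp
  have hcolr : ∀ D : Col n₂ κ, yT p h Q D ≠ 0 → (cols D).card ≤ r := by
    intro D hD
    have := (card_cols H Q D hD).trans hr
    exact_mod_cast this
  have hp1' : ∀ i, 1 ≤ p i := hp1
  have hyQ : ∀ D : Col n₂ κ, yT p h Q D ≠ 0 → qq p D ≤ Q := by
    intro D hD
    by_contra hc
    exact hD (by unfold yT; rw [if_neg hc])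
  set MG : ℝ := ((Fintype.card κ : ℝ) + 1) ^ r * Real.exp (r * ∑ i, g₂ i) with hMG
  have hMG0 : 0 ≤ MG := by rw [hMG]; positivity
  have hGR := Rep_V5 (n₁ := n₁) (κ := κ) g₂ (fun i => (H.g0 i).le) p₁ p hp₁ hp1' (yT p h Q) hyy1 Q hyQ
    R Λ hΛ hRep r hcolr
  have hBR : ∀ k, Rep (fun _ => (2:ℝ)) 2 (fun D : Col (n₁ + n₂) κ => (cols D).card ≤ 1 ∧
      qq p₁ (fstc D) ≤ Λ ∧ qq p (sndc D) ≤ zz ^ J) (B k) := by
    intro k
    have e1 := Rep_fst (n₂ := n₂) (fun _ : Fin n₁ => (2:ℝ)) 1 (fun D => cols D ⊆ {k} ∧ qq p₁ D ≤ Λ)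
      (fun D : Col (n₁ + n₂) κ => cols D ⊆ {k} ∧ qq p₁ (fstc D) ≤ Λ ∧ qq p (sndc D) ≤ 1) (R k)
      (fun D h1 h2 => ⟨(cols_two D).trans (Finset.union_subset h1.1 (by rw [h2, cols_none]; simp)),
        h1.2, by rw [h2, qq_none]⟩) zero_le_one (fun _ => by norm_num) (hRep k)
    have hzJ : 1 ≤ zz ^ J := one_le_pow₀ hzz1
    have e2 := Rep_SSmask (κ := κ) (fun _ : Fin n₂ => 0) 0 J k p zz hp1' (fun i _ => hzz i) hzz1
    have e3 : (fun x : Col n₂ κ => SS J k (mask (fun _ : Fin n₂ => 0) 0 x)) = fun x => SS J k x := by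
      funext x
      congr 1
    rw [e3] at e2
    simp only [if_true] at e2
    have e4 := Rep_add e2 (Rep_const (κ := κ) (fun _ : Fin n₂ => (2:ℝ)) (1 / R₂)
      (fun D => cols D ⊆ {k} ∧ qq p D ≤ zz ^ J)
      ⟨by rw [cols_none]; simp, by rw [qq_none]; exact hzJ⟩ (fun _ => by norm_num))
    have hR20 : |1 / R₂| ≤ 1 := by
      rw [abs_of_nonneg (by positivity)]
      rw [div_le_one (by linarith)]
      exact hR₂
    have e5 := Rep_snd (n₁ := n₁) (fun _ : Fin n₂ => (2:ℝ)) (1 + |1 / R₂|)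
      (fun D => cols D ⊆ {k} ∧ qq p D ≤ zz ^ J)
      (fun D : Col (n₁ + n₂) κ => cols D ⊆ {k} ∧ qq p₁ (fstc D) ≤ 1 ∧ qq p (sndc D) ≤ zz ^ J) _
      (fun D h1 h2 => ⟨(cols_two D).trans (Finset.union_subset (by rw [h2, cols_none]; simp) h1.1),
        by rw [h2, qq_none], h1.2⟩) (by positivity) (fun _ => by norm_num) e4
    have c1 : ∀ i, 1 ≤ (Fin.append (fun _ : Fin n₁ => (2:ℝ)) (fun _ : Fin n₂ => (1:ℝ))) i := by
      intro i
      refine Fin.addCases (fun j => ?_) (fun j => ?_) i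
      · rw [Fin.append_left]; norm_num
      · rw [Fin.append_right]
    have c2 : ∀ i, 1 ≤ (Fin.append (fun _ : Fin n₁ => (1:ℝ)) (fun _ : Fin n₂ => (2:ℝ))) i := by
      intro i
      refine Fin.addCases (fun j => ?_) (fun j => ?_) i
      · rw [Fin.append_left]
      · rw [Fin.append_right]; norm_num
    have e6 := Rep_mul (P'' := fun D : Col (n₁ + n₂) κ => cols D ⊆ {k} ∧ qq p₁ (fstc D) ≤ Λ ∧
      qq p (sndc D) ≤ zz ^ J) c1 c2 zero_le_one (by positivity) ?_ e1 e5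
    · refine Rep_mono (fun i => ?_) (fun i => ?_) (by positivity) (by linarith) (fun D hD =>
        ⟨(Finset.card_le_card hD.1).trans (by simp), hD.2⟩) e6
      · exact one_le_mul_of_one_le_of_one_le (c1 i) (c2 i)
      · refine Fin.addCases (fun j => ?_) (fun j => ?_) i
        · rw [Fin.append_left, Fin.append_left]; norm_num
        · rw [Fin.append_right, Fin.append_right]; norm_num
    · rintro D D' ⟨h1, h2, h3⟩ ⟨h4, h5, h6⟩
      refine ⟨(cols_un_sub D D').trans (Finset.union_subset h1 h4), ?_, ?_⟩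
      · rw [fstc_un]
        refine (qq_un hp₁ _ _).trans ?_
        calc qq p₁ (fstc D) * qq p₁ (fstc D') ≤ Λ * 1 :=
              mul_le_mul h2 h5 (zero_le_one.trans (one_le_qq hp₁ _)) (by linarith)
          _ = Λ := mul_one _
      · rw [sndc_un]
        refine (qq_un hp1' _ _).trans ?_
        calc qq p (sndc D) * qq p (sndc D') ≤ 1 * zz ^ J :=
              mul_le_mul h3 h6 (zero_le_one.trans (one_le_qq hp1' _)) zero_le_one
          _ = zz ^ J := one_mul _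
  have hzJ : 1 ≤ zz ^ J := one_le_pow₀ hzz1
  have hsum := Rep_sum (univ : Finset κ) (fun _ => (2:ℝ)) 2 _ (fun k => B k) (fun k _ => hBR k)
  have hone := Rep_sub (Rep_const (κ := κ) (fun _ : Fin (n₁ + n₂) => (2:ℝ)) 1
    (fun D : Col (n₁ + n₂) κ => (cols D).card ≤ 1 ∧
      qq p₁ (fstc D) ≤ Λ ∧ qq p (sndc D) ≤ zz ^ J) ⟨by rw [cols_none]; simp,
        by
          have : fstc (fun _ => none : Col (n₁ + n₂) κ) = fun _ => none := rfl
          rw [this, qq_none]; exact hΛ,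
        by
          have : sndc (fun _ => none : Col (n₁ + n₂) κ) = fun _ => none := rfl
          rw [this, qq_none]; exact hzJ⟩ (fun _ => by norm_num)) hsum
  have cG : ∀ i, 1 ≤ (Fin.append (fun _ : Fin n₁ => (2:ℝ) ^ r) (fun _ : Fin n₂ => (2:ℝ))) i := by
    intro i
    refine Fin.addCases (fun j => ?_) (fun j => ?_) i
    · rw [Fin.append_left]; exact one_le_pow₀ (by norm_num)
    · rw [Fin.append_right]; norm_num
  have hΛr : 1 ≤ Λ ^ r := one_le_pow₀ hΛ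
  have hG2 := Rep_mul (P'' := fun D : Col (n₁ + n₂) κ => (cols D).card ≤ 2 * r ∧
      qq p₁ (fstc D) ≤ Λ ^ (2 * r) ∧ qq p (sndc D) ≤ Q ^ 2) cG cG hMG0 hMG0 (by
    rintro D D' ⟨h1, h2, h3⟩ ⟨h4, h5, h6⟩
    refine ⟨?_, ?_, ?_⟩
    · have a1 := Finset.card_le_card (cols_un_sub D D')
      have a2 := Finset.card_union_le (cols D) (cols D')
      have a3 := (Finset.card_le_card (cols_two D)).trans h1
      have a4 := (Finset.card_le_card (cols_two D')).trans h4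
      omega
    · rw [fstc_un]
      refine (qq_un hp₁ _ _).trans ?_
      calc qq p₁ (fstc D) * qq p₁ (fstc D') ≤ Λ ^ r * Λ ^ r :=
            mul_le_mul h2 h5 (zero_le_one.trans (one_le_qq hp₁ _)) (by linarith)
        _ = Λ ^ (2 * r) := by rw [two_mul, pow_add]
    · rw [sndc_un]
      refine (qq_un hp1' _ _).trans ?_
      calc qq p (sndc D) * qq p (sndc D') ≤ Q * Q :=
            mul_le_mul h3 h6 (zero_le_one.trans (one_le_qq hp1' _)) (by linarith)
        _ = Q ^ 2 := by ring) hGR hGR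
  have hF2 := Rep_mul (P'' := fun D : Col (n₁ + n₂) κ => (cols D).card ≤ 2 * r + 1 ∧
      qq p₁ (fstc D) ≤ Λ ^ (2 * r + 1) ∧ qq p (sndc D) ≤ Q ^ 2 * zz ^ J)
    (fun i => one_le_mul_of_one_le_of_one_le (cG i) (cG i)) (fun _ => by norm_num)
    (mul_nonneg hMG0 hMG0) (by positivity) (by
    rintro D D' ⟨h1, h2, h3⟩ ⟨h4, h5, h6⟩
    refine ⟨?_, ?_, ?_⟩
    · have a1 := Finset.card_le_card (cols_un_sub D D')
      have a2 := Finset.card_union_le (cols D) (cols D')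
      omega
    · rw [fstc_un]
      refine (qq_un hp₁ _ _).trans ?_
      calc qq p₁ (fstc D) * qq p₁ (fstc D') ≤ Λ ^ (2 * r) * Λ :=
            mul_le_mul h2 h5 (zero_le_one.trans (one_le_qq hp₁ _)) (by positivity)
        _ = Λ ^ (2 * r + 1) := by rw [pow_succ]
    · rw [sndc_un]
      refine (qq_un hp1' _ _).trans ?_
      exact mul_le_mul h3 h6 (zero_le_one.trans (one_le_qq hp1' _)) (by positivity)) hG2 hone
  have hFR : Rep (fun _ => (2:ℝ) ^ (2 * r + 3)) (MG ^ 2 * (1 + 2 * (Fintype.card κ : ℝ)))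
        (fun D => (cols D).card ≤ 2 * r + 1 ∧ qq p₁ (fstc D) ≤ Λ ^ (2 * r + 1) ∧
          qq p (sndc D) ≤ Q ^ 2 * zz ^ J) F := by
    have e2 : F = fun x => V (fstc x) (sndc x) * V (fstc x) (sndc x) * (1 - ∑ k, B k x) := by
      rw [hF]; funext x; simp only [hG]; ring
    rw [e2]
    refine Rep_mono (fun i => ?_) (fun i => ?_) ?_ ?_ (fun D hD => hD) hF2
    · exact one_le_mul_of_one_le_of_one_le (one_le_mul_of_one_le_of_one_le (cG i) (cG i)) (by norm_num)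
    · refine Fin.addCases (fun j => ?_) (fun j => ?_) i
      · rw [Fin.append_left]
        calc (2:ℝ) ^ r * 2 ^ r * 2 = 2 ^ (2 * r + 1) := by rw [pow_succ, two_mul, pow_add]
          _ ≤ 2 ^ (2 * r + 3) := pow_le_pow_right₀ (by norm_num) (by omega)
      · rw [Fin.append_right]
        calc (2:ℝ) * 2 * 2 = 2 ^ 3 := by norm_num
          _ ≤ 2 ^ (2 * r + 3) := pow_le_pow_right₀ (by norm_num) (by omega)
    · positivity
    · rw [abs_one, Finset.card_univ]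
      have : MG * MG * (1 + (Fintype.card κ : ℝ) * 2) = MG ^ 2 * (1 + 2 * (Fintype.card κ : ℝ)) := by
        ring
      exact this.le
  set Bd : ℝ := 3 * (1 + 3 * Real.exp (∑ i, g₂ i) * ((J : ℝ) + 2) ^ (2 * J) * (R₂ + 1)) ^ r
    with hBd
  have hpt : ∀ xx : Col (n₁ + n₂) κ, F xx ≤ if (∀ k, ∃ i, xx i = some k) then Bd ^ 2 else 0 := by
    intro xx
    have hV0 : 0 ≤ G xx ^ 2 := sq_nonneg _
    have hSS0 : ∀ l, 0 ≤ SS J l (sndc xx) := by
      intro l
      refine le_trans ?_ (SS_lower J hJ l (sndc xx))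
      split_ifs <;> norm_num
    have hR0 : ∀ l, 0 ≤ R l (fstc xx) := fun l => HR.nn l _
    have hiR : 0 < 1 / R₂ := by positivity
    have hB0 : ∀ l, 0 ≤ B l xx := by
      intro l
      simp only [hB]
      have := hSS0 l
      exact mul_nonneg (hR0 l) (by linarith)
    by_cases h1 : 1 ≤ ∑ k, B k xx
    · have h2 : F xx ≤ 0 := mul_nonpos_of_nonneg_of_nonpos hV0 (by linarith)
      refine h2.trans ?_
      split_ifs
      · exact sq_nonneg _
      · exact le_rfl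
    · push Not at h1
      have hk1 : ∀ k, B k xx < 1 := fun k =>
        lt_of_le_of_lt (Finset.single_le_sum (fun l _ => hB0 l) (Finset.mem_univ k)) h1
      have hall : ∀ k, ∃ i, xx i = some k := by
        intro k
        by_contra hk
        push Not at hk
        have h3 := SS_lower J hJ k (sndc xx)
        have hk2 : ∀ i, sndc xx i ≠ some k := fun i => hk (Fin.natAdd n₁ i)
        rw [if_pos hk2] at h3
        have h4 : R k (fstc xx) = 1 := HR.one k _ (fun i => hk (Fin.castAdd n₂ i))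
        have h5 := hk1 k
        simp only [hB] at h5
        rw [h4] at h5
        linarith
      rw [if_pos hall]
      have hs1 : ∑ k, R k (fstc xx) * SS J k (sndc xx) ≤ 1 := by
        refine le_trans (Finset.sum_le_sum fun k _ => ?_) h1.le
        simp only [hB]
        exact mul_le_mul_of_nonneg_left (by linarith) (hR0 k)
      have hs2 : ∑ k, R k (fstc xx) ≤ R₂ := by
        have e1 : (1 / R₂) * ∑ k, R k (fstc xx) ≤ 1 := by
          rw [Finset.mul_sum]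
          refine le_trans (Finset.sum_le_sum fun k _ => ?_) h1.le
          simp only [hB]
          rw [mul_comm]
          exact mul_le_mul_of_nonneg_left (by linarith [hSS0 k]) (hR0 k)
        have e2 := mul_le_mul_of_nonneg_left e1 (show (0:ℝ) ≤ R₂ by linarith)
        have e3 : R₂ * (1 / R₂ * ∑ k, R k (fstc xx)) = ∑ k, R k (fstc xx) := by
          have : R₂ ≠ 0 := by positivity
          field_simp
        rw [e3, mul_one] at e2
        exact e2
      have hVb : |G xx| ≤ Bd := by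
        rw [hBd]
        refine V5_le g₂ (fun i => (H.g0 i).le) (yT p h Q) hyy1 R J m₀ r hJ hm₀ ?_
          (fstc xx) (sndc xx) hR0 R₂ hs2 hs1
        intro D hD
        refine ⟨hcolr D hD, fun k => ?_⟩
        by_cases hf : (fib D k).Nonempty
        · apply hcard
          intro h0
          apply hD
          unfold yT
          split_ifs
          · unfold yy
            apply Finset.prod_eq_zero (Finset.mem_univ k)
            unfold al
            rw [if_neg hf.ne_empty, h0]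
            simp
          · rfl
        · rw [Finset.not_nonempty_iff_eq_empty] at hf
          rw [hf, Finset.card_empty]
          exact Nat.zero_le _
      have h7 : G xx ^ 2 ≤ Bd ^ 2 := by
        rw [← sq_abs]
        exact pow_le_pow_left₀ (abs_nonneg _) hVb 2
      have h8 : 0 ≤ ∑ k, B k xx := Finset.sum_nonneg fun k _ => hB0 k
      calc F xx = G xx ^ 2 * (1 - ∑ k, B k xx) := rfl
        _ ≤ G xx ^ 2 * 1 := mul_le_mul_of_nonneg_left (by linarith) hV0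
        _ ≤ Bd ^ 2 := by linarith
  refine ⟨F, ?_, hpt, hFR⟩
  linarith

end Pool.Agent.L5helper1.IS
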