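import Pool.Agent.L5helper1.IS.CovM2
import Pool.Agent.L5helper1.AS.Fake

set_option autoImplicit false
set_option linter.unusedSectionVars false
set_option linter.unusedVariables false
set_option maxHeartbeats 4000000

/-! # The covering theorem for a measure with a fixed parameter -/

namespace Pool.Agent.L5helper1.IS

open Finset Filter Pool.Agent.H256R2.SC Pool.Agent.Y831.RC Pool.Agent.L5helper1.AS

open scoped Classical

theorem mem_PS' {w z : ℝ} {E : Finset ℕ} {p : ℕ} (hp : p.Prime) (h1 : w < (p:ℝ)) (h2 : (p:ℝ) ≤ z)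
    (h3 : p ∉ E) : p ∈ PS w z E := by
  unfold PS
  rw [Finset.mem_filter, Finset.mem_Icc]
  exact ⟨⟨hp.one_lt.le, Nat.le_floor h2⟩, hp, h1, h3⟩

theorem covM_fix : ∃ c e₀ : ℝ, 0 < c ∧ 1000 ≤ e₀ ∧ ∀ Aw : ℝ, 2 ≤ Aw → ∀ e : ℝ, e₀ ≤ e →
    ∃ L₀ : ℝ, ∀ L : ℝ, L₀ ≤ L →
    ∀ (κ : Type) [Fintype κ] [DecidableEq κ],
    (Fintype.card κ : ℝ) * (Aw * Real.log L) ≤ c * e * L →
    ∀ E : Finset ℕ, ∑ p ∈ E.filter (fun p : ℕ => L ^ Aw < (p:ℝ)), 1 / (p:ℝ) ≤ 1 / 2 →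
    ∀ (res : ℕ → κ → ℤ) (PP₁ PP₂ : Finset ℕ),
    PP₁ = PS (L ^ Aw) (Real.exp (L * Real.exp (-e) / e ^ 2)) E →
    PP₂ = PS (Real.exp (L * Real.exp (-e) / e ^ 2))
      (Real.exp ((1 / 8 : ℝ) ^ 2 * L / (100 * e))) ∅ →
    (∀ p ∈ PP₁, ∀ k l, k ≠ l → ¬ ((p : ℤ) ∣ res p k - res p l)) →
    (∀ p ∈ PP₂, ∀ k l, k ≠ l → ¬ ((p : ℤ) ∣ res p k - res p l)) →
    ∀ (𝒜 : Finset ℕ) (mu : ℕ → ℝ), (∀ a ∈ 𝒜, 0 ≤ mu a) → ∀ N : ℝ, 0 ≤ N →
    (∀ f : Col (PP₁.card + PP₂.card) κ → ℝ,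
      (∀ D, |f D| ≤ (2 * Real.exp (3 * ⌈Real.exp e⌉₊ * e) * L ^ (4 * ⌈Real.exp e⌉₊ + 2)) *
        nu (fun _ => (2:ℝ) ^ (2 * ⌈Real.exp e⌉₊ + 3)) D) →
      (∀ D, f D ≠ 0 → (cols D).card ≤ 2 * ⌈Real.exp e⌉₊ + 1 ∧
        ((qn PP₁ (fstc D) * qn PP₂ (sndc D) : ℕ) : ℝ) ≤ Real.exp L) →
      |∑ D, f D * (nu (Fin.append (fun i => 1 - 1 / ((emb PP₁ i : ℕ) : ℝ))
          (fun i => 1 - 1 / ((emb PP₂ i : ℕ) : ℝ))) D *
        ∑ a ∈ 𝒜, mu a * ind D (Fin.append (colr PP₁ res (a : ℤ))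
          (colr PP₂ res (a : ℤ)) : Col (PP₁.card + PP₂.card) κ) -
        N * nu (Fin.append (fun i => 1 / ((emb PP₁ i : ℕ) : ℝ))
          (fun i => 1 / ((emb PP₂ i : ℕ) : ℝ))) D)| ≤ N / 8) →
    3 / 8 * N ≤ (∑ a ∈ 𝒜.filter (fun x : ℕ => ∀ k : κ, ∃ p ∈ PP₁ ∪ PP₂,
      (p : ℤ) ∣ (x : ℤ) - res p k), mu a) * Real.exp (e ^ 2 * Real.exp e) := by
  obtain ⟨c, C, hc, hcC, hWb⟩ := WW_bounds
  obtain ⟨CR, hCR0, hSR⟩ := sum_ratio
  obtain ⟨C₁, hC₁, hBH⟩ := BHyp_PSE_Rep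
  have hC : 0 < C := hc.trans_le hcC
  obtain ⟨ε, hε⟩ : ∃ ε : ℝ, ε = 1 / 8 := ⟨_, rfl⟩
  have hε0 : 0 < ε := by rw [hε]; norm_num
  have hε8 : ε ≤ 1 / 8 := hε.le
  have h0a : 0 < 100 / ε ^ 2 := by positivity
  have h0b : 0 < 300 / ε := by positivity
  have h0c : 0 < 64 / (c * ε) := by positivity
  have h0d : 0 < 200 / ε := by positivity
  have hE₁ := Real.exp_pos C₁
  obtain ⟨e₀, he₀⟩ := ev_e (1000 + 100 / ε ^ 2 + 300 / ε + 64 / (c * ε) + 72 * C)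
    (by linarith only [h0a, h0b, h0c, hC])
  refine ⟨c / 16, max e₀ 1000, by positivity, le_max_right _ _, fun Aw hAw e he => ?_⟩
  obtain ⟨L₀, hL₀⟩ := ev_L5 ε (8 + 200 / ε + C + Real.exp C₁ + 2 * CR + Aw) hε0
    (by linarith only [hε8]) (by linarith only [h0d, hC, hE₁, hCR0, hAw])
  obtain ⟨L₁, hL₁⟩ := Filter.eventually_atTop.1
    (Real.tendsto_log_atTop.eventually_ge_atTop (e / (7 / 8)))
  refine ⟨max L₀ L₁, fun L hL κ _ _ hκ E hE res PP₁ PP₂ hPP₁ hPP₂ hr₁ hr₂ 𝒜 mu hmu N hN htr => ?_⟩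
  obtain ⟨he1, he3, helog⟩ := he₀ e ((le_max_left _ _).trans he)
  have he1000 : 1000 ≤ e := (le_max_right _ _).trans he
  obtain ⟨a1, a2, a3, a4, a5⟩ := hL₀ L ((le_max_left _ _).trans hL)
  have heu : e ≤ (1 - ε) * Real.log L := by
    have h1 := hL₁ L ((le_max_right _ _).trans hL)
    rw [div_le_iff₀ (by norm_num)] at h1
    rw [hε]
    linarith only [h1]
  have b1 := a5 e (by linarith only [he1000]) heu
  have hL8 : 8 ≤ L := by linarith only [a1, h0d, hC, hE₁, hCR0, hAw]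
  have hL0 : 0 < L := by linarith only [hL8]
  have hL1 : 1 ≤ L := by linarith only [hL8]
  have he0 : 0 < e := by linarith only [he1000]
  have hw2 : (2:ℝ) ≤ L ^ Aw := by
    calc (2:ℝ) ≤ L := by linarith only [hL8]
      _ = L ^ (1:ℝ) := (Real.rpow_one L).symm
      _ ≤ L ^ Aw := Real.rpow_le_rpow_of_exponent_le hL1 (by linarith only [hAw])
  have hκ' : (Fintype.card κ : ℝ) ≤ (1 / 2 - 3 * ε) * (e * L * (WW (L ^ Aw) / 2)) := by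
    have h1 := (hWb (L ^ Aw) hw2).1
    rw [Real.log_rpow hL0] at h1
    have hAl : 0 < Aw * Real.log L := by
      have : 0 < Real.log L := by linarith only [a2]
      positivity
    have h2 : (Fintype.card κ : ℝ) * (Aw * Real.log L) ≤
        (1 / 16 * (e * L * WW (L ^ Aw))) * (Aw * Real.log L) := by
      refine hκ.trans ?_
      have h3 : c * (e * L) ≤ WW (L ^ Aw) * (Aw * Real.log L) * (e * L) :=
        mul_le_mul_of_nonneg_right h1 (by positivity)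
      linarith only [h3]
    have h4 := le_of_mul_le_mul_right h2 hAl
    rw [hε]
    linarith only [h4]
  have hZ : (1 / 8 : ℝ) ^ 2 * L / (100 * e) = ε ^ 2 * L / (100 * e) := by rw [hε]
  rw [hZ] at hPP₂
  refine covM_at Aw ε c C CR C₁ (1000 + 100 / ε ^ 2 + 300 / ε + 64 / (c * ε) + 72 * C)
    (8 + 200 / ε + C + Real.exp C₁ + 2 * CR + Aw) hAw
    (by linarith only [h0d, hC, hE₁, hCR0]) hε0 hε8 hc hC hC₁ hCR0 hWb hSR hBH
    (by linarith only [h0a, h0b, h0c, hC]) (by linarith only [h0a, h0b, h0c, hC])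
    (by linarith only [h0a, h0b, h0c, hC]) (by linarith only [h0a, h0b, h0c, hC])
    (by linarith only [h0a, h0b, h0c, hC]) (by linarith only [h0d, hC, hE₁, hCR0, hAw])
    (by linarith only [h0d, hC, hE₁, hCR0, hAw]) (by linarith only [h0d, hC, hE₁, hCR0, hAw])
    (by linarith only [h0d, hC, hE₁, hCR0, hAw]) (by linarith only [h0d, hC, hE₁, hCR0, hAw])
    L e he1 he3 helog a1 a2 a3 a4 heu b1 κ hκ' E hE res ?_ ?_ 𝒜 mu hmu N hN PP₁ PP₂ hPP₁ hPP₂ ?_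
  · intro p hp h1 h2 h3
    exact hr₁ p (by rw [hPP₁]; exact mem_PS' hp h1 h2 h3)
  · intro p hp h1 h2
    exact hr₂ p (by rw [hPP₂]; exact mem_PS' hp h1 h2 (Finset.notMem_empty p))
  · intro f hf1 hf2
    refine htr f hf1 fun D hD => ⟨(hf2 D hD).1, (hf2 D hD).2.trans ?_⟩
    apply Real.exp_le_exp.2
    have : 0 ≤ ε * L := by positivity
    linarith only [this]

end Pool.Agent.L5helper1.IS
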