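import Pool.Agent.L5helper1.IS.CoreF

set_option autoImplicit false
set_option linter.unusedSectionVars false
set_option linter.unusedVariables false
set_option maxHeartbeats 4000000

/-! # Thinning and transfer to a measure -/

namespace Pool.Agent.L5helper1.IS

open Finset Pool.Agent.H256R2.SC Pool.Agent.Y831.RC

variable {n n₁ n₂ : ℕ} {κ : Type} [Fintype κ] [DecidableEq κ]

/-- the colouring restricted to a set of indices -/
def kp (s : Finset (Fin n)) (x : Col n κ) : Col n κ := fun i => if i ∈ s then x i else none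

theorem thin_ind (t : Fin n → ℝ) (D x : Col n κ) :
    nu t D * ind D x = ∑ s : Finset (Fin n), ((∏ i ∈ s, t i) * ∏ i ∈ univ \ s, (1 - t i)) *
      ind D (kp s x) := by
  classical
  have h1 : ∀ s : Finset (Fin n), ((∏ i ∈ s, t i) * ∏ i ∈ univ \ s, (1 - t i)) * ind D (kp s x) =
      (∏ i ∈ s, t i * (if D i ≠ none → x i = D i then (1:ℝ) else 0)) *
        ∏ i ∈ univ \ s, (1 - t i) * (if D i = none then (1:ℝ) else 0) := by
    intro s
    rw [Finset.prod_mul_distrib, Finset.prod_mul_distrib]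
    have e1 : ind D (kp s x) = (∏ i ∈ s, (if D i ≠ none → x i = D i then (1:ℝ) else 0)) *
        ∏ i ∈ univ \ s, (if D i = none then (1:ℝ) else 0) := by
      rw [ind_eq_prod, ← Finset.prod_sdiff (Finset.subset_univ s), mul_comm]
      congr 1
      · apply Finset.prod_congr rfl
        intro i hi
        unfold kp
        rw [if_pos hi]
      · apply Finset.prod_congr rfl
        intro i hi
        rw [Finset.mem_sdiff] at hi
        unfold kp
        rw [if_neg hi.2]
        by_cases hD : D i = none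
        · rw [if_pos hD, if_pos (fun h => absurd hD h)]
        · rw [if_neg hD, if_neg (fun h => hD (h hD).symm)]
    rw [e1]
    ring
  rw [Finset.sum_congr rfl fun s _ => h1 s, ← Finset.powerset_univ, ← Finset.prod_add]
  rw [ind_eq_prod]
  unfold nu
  rw [← Finset.prod_mul_distrib]
  apply Finset.prod_congr rfl
  intro i _
  cases hD : D i with
  | none => simp [nu1]
  | some k => simp [nu1]

theorem thin_one (t : Fin n → ℝ) :
    ∑ s : Finset (Fin n), ((∏ i ∈ s, t i) * ∏ i ∈ univ \ s, (1 - t i)) = 1 := by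
  rw [← Finset.powerset_univ, ← Finset.prod_add]
  simp

/-- thinned weights have the same pointwise upper bound -/
theorem thin_le (t : Fin n → ℝ) (ht0 : ∀ i, 0 ≤ t i) (ht1 : ∀ i, t i ≤ 1) (f : Col n κ → ℝ)
    (F : Col n κ → ℝ) (hF : ∀ x, F x = ∑ D, f D * ind D x) (Bd : ℝ) (hBd : 0 ≤ Bd)
    (hpt : ∀ x, F x ≤ if (∀ k, ∃ i, x i = some k) then Bd else 0) (x : Col n κ) :
    ∑ D, f D * (nu t D * ind D x) ≤ if (∀ k, ∃ i, x i = some k) then Bd else 0 := by
  classical
  have h0 : ∀ s : Finset (Fin n), 0 ≤ (∏ i ∈ s, t i) * ∏ i ∈ univ \ s, (1 - t i) := fun s =>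
    mul_nonneg (Finset.prod_nonneg fun i _ => ht0 i)
      (Finset.prod_nonneg fun i _ => by linarith [ht1 i])
  have h1 : ∑ D, f D * (nu t D * ind D x) =
      ∑ s : Finset (Fin n), ((∏ i ∈ s, t i) * ∏ i ∈ univ \ s, (1 - t i)) * F (kp s x) := by
    simp_rw [thin_ind t _ x, hF, Finset.mul_sum]
    rw [Finset.sum_comm]
    refine Finset.sum_congr rfl fun s _ => Finset.sum_congr rfl fun D _ => ?_
    ring
  rw [h1]
  have h2 : ∀ s : Finset (Fin n), F (kp s x) ≤ if (∀ k, ∃ i, x i = some k) then Bd else 0 := by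
    intro s
    refine (hpt (kp s x)).trans ?_
    by_cases h : ∀ k, ∃ i, kp s x i = some k
    · rw [if_pos h, if_pos]
      intro k
      obtain ⟨i, hi⟩ := h k
      refine ⟨i, ?_⟩
      unfold kp at hi
      split_ifs at hi
      exact hi
    · rw [if_neg h]
      split_ifs
      · exact hBd
      · exact le_rfl
  calc ∑ s : Finset (Fin n), ((∏ i ∈ s, t i) * ∏ i ∈ univ \ s, (1 - t i)) * F (kp s x)
      ≤ ∑ s : Finset (Fin n), ((∏ i ∈ s, t i) * ∏ i ∈ univ \ s, (1 - t i)) *
        (if (∀ k, ∃ i, x i = some k) then Bd else 0) :=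
        Finset.sum_le_sum fun s _ => mul_le_mul_of_nonneg_left (h2 s) (h0 s)
    _ = _ := by rw [← Finset.sum_mul, thin_one, one_mul]

/-- transfer to a measure -/
theorem measure_of {α : Type} (𝒜 : Finset α) (mu : α → ℝ) (hmu : ∀ a ∈ 𝒜, 0 ≤ mu a)
    (col : α → Col n κ) (g t : Fin n → ℝ) (ht0 : ∀ i, 0 ≤ t i) (ht1 : ∀ i, t i ≤ 1)
    (c : Fin n → ℝ) (M : ℝ) (P : Col n κ → Prop) (N Bd : ℝ) (hBd : 0 ≤ Bd) (hN : 0 ≤ N)
    (F : Col n κ → ℝ) (hE : 1 / 2 ≤ EE g F)
    (hpt : ∀ x, F x ≤ if (∀ k, ∃ i, x i = some k) then Bd else 0) (hR : Rep c M P F)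
    (htr : ∀ f : Col n κ → ℝ, (∀ D, |f D| ≤ M * nu (fun i => c i - 1) D) → (∀ D, f D ≠ 0 → P D) →
      |∑ D, f D * (nu t D * ∑ a ∈ 𝒜, mu a * ind D (col a) - N * nu g D)| ≤ N / 8) :
    3 / 8 * N ≤ (∑ a ∈ 𝒜.filter (fun a => ∀ k, ∃ i, col a i = some k), mu a) * Bd := by
  classical
  obtain ⟨f, h1, h2, h3⟩ := hR
  have h4 := htr f h2 h3
  have h5 : EE g F = ∑ D, f D * nu g D := by
    have e1 : EE g F = ∑ D, f D * EE g (fun x => ind D x) := by
      unfold EE
      simp_rw [h1, Finset.mul_sum]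
      rw [Finset.sum_comm]
      apply Finset.sum_congr rfl
      intro D _
      apply Finset.sum_congr rfl
      intro x _
      ring
    rw [e1]
    apply Finset.sum_congr rfl
    intro D _
    rw [EE_ind]
  have h6 : ∑ D, f D * (nu t D * ∑ a ∈ 𝒜, mu a * ind D (col a) - N * nu g D) =
      ∑ a ∈ 𝒜, mu a * (∑ D, f D * (nu t D * ind D (col a))) - N * EE g F := by
    rw [h5, Finset.mul_sum]
    simp_rw [Finset.mul_sum]
    rw [Finset.sum_comm, ← Finset.sum_sub_distrib]
    refine Finset.sum_congr rfl fun D _ => ?_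
    rw [mul_sub, Finset.mul_sum]
    congr 1
    · refine Finset.sum_congr rfl fun a _ => ?_
      ring
    · ring
  rw [h6] at h4
  have h7 : 3 / 8 * N ≤ ∑ a ∈ 𝒜, mu a * (∑ D, f D * (nu t D * ind D (col a))) := by
    have e1 := (abs_le.1 h4).1
    have e2 := mul_le_mul_of_nonneg_left hE hN
    linarith
  refine h7.trans ?_
  calc ∑ a ∈ 𝒜, mu a * (∑ D, f D * (nu t D * ind D (col a)))
      ≤ ∑ a ∈ 𝒜, mu a * (if (∀ k, ∃ i, col a i = some k) then Bd else 0) :=
        Finset.sum_le_sum fun a ha => mul_le_mul_of_nonneg_left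
          (thin_le t ht0 ht1 f F h1 Bd hBd hpt (col a)) (hmu a ha)
    _ = _ := by
        rw [Finset.sum_filter, Finset.sum_mul]
        refine Finset.sum_congr rfl fun a _ => ?_
        split_ifs <;> ring

end Pool.Agent.L5helper1.IS
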