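import Pool.Agent.L5helper1.IS.Blk
import Pool.Agent.L5helper1.IS.Trans
import Pool.Agent.L5helper1.AS.Apply

set_option autoImplicit false
set_option linter.unusedSectionVars false
set_option linter.unusedVariables false
set_option maxHeartbeats 4000000

/-! # The covering theorem for a measure -/

namespace Pool.Agent.L5helper1.IS

open Finset Filter Pool.Agent.H256R2.SC Pool.Agent.Y831.RC Pool.Agent.L5helper1.AS

open scoped Classical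

theorem cover5M (E : Finset ℕ) (w y z K Q δ η G₂ v₀ m τ Λ R₂ ρ₁ : ℝ) (J m₀ r : ℕ) (hJ : Even J)
    (hm₀ : m₀ ≤ J)
    (hw2 : 2 ≤ w) (hwy : w ≤ y) (hyz : y ≤ z)
    (hy9 : 9 ≤ y) (hz1 : 1 < z) (hQ : 1 ≤ Q) (hη0 : 0 < η) (hη1 : η ≤ 1)
    (hG₂ : ∑ i, 1 / ((emb (PS y z ∅) i : ℕ) : ℝ) ≤ G₂)
    (hH : ∃ h, HypS (fun i => ((emb (PS y z ∅) i : ℕ) : ℝ))
      (fun i => 1 / ((emb (PS y z ∅) i : ℕ) : ℝ)) h z K v₀ ∧ ∀ s, h s ≠ 0 → s.card ≤ m₀)
    (hδ : 2 * (Real.log Q / Real.log y) / y ≤ δ)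
    (κ : Type) [Fintype κ] [DecidableEq κ] (u : ℝ) (hu : (Fintype.card κ : ℝ) = u)
    (hτ0 : 0 ≤ τ) (hτ1 : τ ≤ 1) (hΛ : 1 ≤ Λ)
    (hρ : rho (fun i => 1 / ((emb (PS w y E) i : ℕ) : ℝ)) 1 ≤ ρ₁) (hK0 : 0 ≤ K)
    (hR : ∃ R : κ → Col (PS w y E).card κ → ℝ,
      BHyp (fun i => 1 / ((emb (PS w y E) i : ℕ) : ℝ)) R m τ ∧
      ∀ k, Rep (fun _ => 2) 1 (fun D => cols D ⊆ {k} ∧
        qq (fun i => ((emb (PS w y E) i : ℕ) : ℝ)) D ≤ Λ) (R k))
    (hr : Real.log Q / v₀ ≤ r) (hrm : (r:ℝ) + 1 ≤ m) (hR₂ : 1 ≤ R₂)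
    (huw : 2 * u ≤ w) (huy : u ≤ y) (huδ : u * δ ≤ 1 / 4) (hv₀ : 0 < v₀)
    (hE8 : Real.exp (η * ((1 + η) * u * (ρ₁ * K) / Real.log z -
      Real.log (Q / z) / Real.log z)) ≤ 1 / 8)
    (htail : 4 * (u * ρ₁) * (τ + (δ ^ 2 +
      Real.exp (η * ((1 + η) * u * (ρ₁ * K) / Real.log z -
      Real.log (Q / z) / Real.log z)))) ≤ 1 / 12)
    (hmom : 2 * (u * ρ₁) * ((1 / 3) ^ J * Real.exp (20 * G₂)) ≤ 1 / 12)
    (hpen : 2 * (u * ρ₁) * Real.exp (20 * G₂) ≤ R₂ / 12)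
    (res : ℕ → κ → ℤ)
    (hres₁ : ∀ p : ℕ, p.Prime → w < p → (p : ℝ) ≤ y → p ∉ E → ∀ k l, k ≠ l →
      ¬ ((p : ℤ) ∣ res p k - res p l))
    (hres₂ : ∀ p : ℕ, p.Prime → y < p → (p : ℝ) ≤ z → ∀ k l, k ≠ l →
      ¬ ((p : ℤ) ∣ res p k - res p l))
    (𝒜 : Finset ℕ) (mu : ℕ → ℝ) (hmu : ∀ a ∈ 𝒜, 0 ≤ mu a) (N : ℝ) (hN : 0 ≤ N)
    (htr : ∀ f : Col ((PS w y E).card + (PS y z ∅).card) κ → ℝ,
      (∀ D, |f D| ≤ (((u + 1) ^ r * Real.exp (r * G₂)) ^ 2 * (1 + 2 * u)) *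
        nu (fun _ => (2:ℝ) ^ (2 * r + 3)) D) →
      (∀ D, f D ≠ 0 → (cols D).card ≤ 2 * r + 1 ∧
        ((qn (PS w y E) (fstc D) * qn (PS y z ∅) (sndc D) : ℕ) : ℝ) ≤
          Λ ^ (2 * r + 1) * (Q ^ 2 * z ^ J)) →
      |∑ D, f D * (nu (Fin.append (fun i => 1 - 1 / ((emb (PS w y E) i : ℕ) : ℝ))
          (fun i => 1 - 1 / ((emb (PS y z ∅) i : ℕ) : ℝ))) D *
        ∑ a ∈ 𝒜, mu a * ind D (Fin.append (colr (PS w y E) res (a : ℤ))
          (colr (PS y z ∅) res (a : ℤ)) : Col ((PS w y E).card + (PS y z ∅).card) κ) -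
        N * nu (Fin.append (fun i => 1 / ((emb (PS w y E) i : ℕ) : ℝ))
          (fun i => 1 / ((emb (PS y z ∅) i : ℕ) : ℝ))) D)| ≤ N / 8) :
    3 / 8 * N ≤ (∑ a ∈ 𝒜.filter (fun x : ℕ => ∀ k : κ, ∃ p ∈ PS w y E ∪ PS y z ∅,
      (p : ℤ) ∣ (x : ℤ) - res p k), mu a) *
      (3 * (1 + 3 * Real.exp G₂ * ((J : ℝ) + 2) ^ (2 * J) * (R₂ + 1)) ^ r) ^ 2 := by
  obtain ⟨h, H, hcard⟩ := hH
  have hzpos : 0 < z := zero_lt_one.trans hz1
  have hu0 : 0 ≤ u := by rw [← hu]; positivity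
  have hy0 : 0 < y := by linarith
  have hw0 : 0 < w := by linarith
  have hlogy : 0 < Real.log y := Real.log_pos (by linarith)
  set PP₁ : Finset ℕ := PS w y E with hPP₁
  set PP₂ : Finset ℕ := PS y z ∅ with hPP₂
  obtain ⟨R, HR, hRL⟩ := hR
  have hm₁ : ∀ p ∈ PP₁, p.Prime ∧ w < (p:ℝ) ∧ (p:ℝ) ≤ y := fun p hp => PS_mem hy0.le (PS_sub w y E hp)
  have hm₂ : ∀ p ∈ PP₂, p.Prime ∧ y < (p:ℝ) ∧ (p:ℝ) ≤ z := fun p hp => PS_mem hzpos.le hp
  have hd : Disjoint PP₁ PP₂ := by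
    rw [Finset.disjoint_left]
    intro p hp hp'
    have h1 := (hm₁ p hp).2.2
    have h2 := (hm₂ p hp').2.1
    linarith
  have hinj₁ : ∀ p ∈ PP₁, ∀ k l : κ, k ≠ l → ¬ ((p : ℤ) ∣ res p k - res p l) := by
    intro p hp
    obtain ⟨h1, h2, h4, h5⟩ := PSE_mem hy0.le hp
    exact hres₁ p h1 h2 h4 h5
  have hinj₂ : ∀ p ∈ PP₂, ∀ k l : κ, k ≠ l → ¬ ((p : ℤ) ∣ res p k - res p l) := by
    intro p hp
    obtain ⟨h1, h2, h4⟩ := hm₂ p hp
    exact hres₂ p h1 h2 h4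
  have hPw : ∀ i, w < ((emb PP₁ i : ℕ) : ℝ) := fun i => (hm₁ _ (emb_mem PP₁ i)).2.1
  have hP₁0 : ∀ i, 0 < ((emb PP₁ i : ℕ) : ℝ) := fun i => hw0.trans (hPw i)
  have hPy : ∀ i, y < ((emb PP₂ i : ℕ) : ℝ) := fun i => (hm₂ _ (emb_mem PP₂ i)).2.1
  have hP0 : ∀ i, 0 < ((emb PP₂ i : ℕ) : ℝ) := fun i => hy0.trans (hPy i)
  have hgy : ∀ i, 1 / ((emb PP₂ i : ℕ) : ℝ) ≤ 1 / y := fun i =>
    one_div_le_one_div_of_le hy0 (hPy i).le
  have h9 : (1:ℝ) / y ≤ 1 / 9 := one_div_le_one_div_of_le (by norm_num) hy9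
  have hG0 : 0 ≤ ∑ i, 1 / ((emb PP₂ i : ℕ) : ℝ) := Finset.sum_nonneg fun i _ => by positivity
  have hG₂0 : 0 ≤ G₂ := hG0.trans hG₂
  -- sizes of supports
  have hsupp : ∀ D : Col PP₂.card κ, qq (fun i => ((emb PP₂ i : ℕ) : ℝ)) D ≤ Q →
      2 * ∑ i with D i ≠ none, 1 / ((emb PP₂ i : ℕ) : ℝ) ≤ δ := by
    intro D hD
    have h1 : Real.exp (((Pool.Agent.H256R2.SC.supp D).card : ℝ) * Real.log y) ≤
        qq (fun i => ((emb PP₂ i : ℕ) : ℝ)) D := by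
      unfold qq
      rw [prod_nu1]
      have : Real.exp (((Pool.Agent.H256R2.SC.supp D).card : ℝ) * Real.log y) =
          ∏ i ∈ Pool.Agent.H256R2.SC.supp D, Real.exp (Real.log y) := by
        rw [Finset.prod_const, ← Real.exp_nat_mul]
      rw [this]
      apply Finset.prod_le_prod
      · intro i _; exact (Real.exp_pos _).le
      · intro i _
        rw [Real.exp_log hy0]
        exact (hPy i).le
    have h2 := h1.trans hD
    have h3 : ((Pool.Agent.H256R2.SC.supp D).card : ℝ) * Real.log y ≤ Real.log Q := by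
      rw [Real.le_log_iff_exp_le (by linarith)]
      exact h2
    have h4 : ((Pool.Agent.H256R2.SC.supp D).card : ℝ) ≤ Real.log Q / Real.log y := by
      rw [le_div_iff₀ hlogy]
      exact h3
    have h5 : ∑ i with D i ≠ none, 1 / ((emb PP₂ i : ℕ) : ℝ) ≤
        (Pool.Agent.H256R2.SC.supp D).card * (1 / y) := by
      have : ∑ i ∈ Pool.Agent.H256R2.SC.supp D, 1 / ((emb PP₂ i : ℕ) : ℝ) ≤
          ∑ i ∈ Pool.Agent.H256R2.SC.supp D, (1 / y) :=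
        Finset.sum_le_sum (fun i _ => hgy i)
      rw [Finset.sum_const, nsmul_eq_mul] at this
      exact this
    refine le_trans ?_ hδ
    calc 2 * ∑ i with D i ≠ none, 1 / ((emb PP₂ i : ℕ) : ℝ) ≤
          2 * ((Pool.Agent.H256R2.SC.supp D).card * (1 / y)) :=
          mul_le_mul_of_nonneg_left h5 (by norm_num)
      _ ≤ 2 * (Real.log Q / Real.log y * (1 / y)) := by
          apply mul_le_mul_of_nonneg_left _ (by norm_num)
          exact mul_le_mul_of_nonneg_right h4 (by positivity)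
      _ = 2 * (Real.log Q / Real.log y) / y := by ring
  have c1 : ∀ i, 1 / ((emb PP₂ i : ℕ) : ℝ) ≤ 1 := fun i => (hgy i).trans (by linarith)
  have c2 : ∀ i, 3 * 3 * (1 / ((emb PP₂ i : ℕ) : ℝ)) ≤ 1 := fun i => by
    have := hgy i
    linarith
  have c3 : ∀ i, (Fintype.card κ : ℝ) * (1 / ((emb PP₂ i : ℕ) : ℝ)) ≤ 1 := fun i => by
    rw [hu, mul_one_div, div_le_one (hP0 i)]
    exact huy.trans (hPy i).le
  have c3' : ∀ i, (Fintype.card κ : ℝ) * (1 / ((emb PP₁ i : ℕ) : ℝ)) ≤ 1 / 2 := fun i => by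
    rw [hu, mul_one_div, div_le_div_iff₀ (hP₁0 i) (by norm_num)]
    have := (hPw i).le
    linarith
  have c9 : 0 ≤ rho (fun i => 1 / ((emb PP₁ i : ℕ) : ℝ)) 1 := by
    unfold rho
    apply Finset.prod_nonneg
    intro i _
    have h1 := hPw i
    have h2 : 1 / ((emb PP₁ i : ℕ) : ℝ) ≤ 1 / 2 := one_div_le_one_div_of_le (by norm_num) (by linarith)
    push_cast
    linarith
  have hρ₁0 : 0 ≤ ρ₁ := c9.trans hρ
  have hρ0 : 0 ≤ u * ρ₁ := by positivity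
  have huρ : u * rho (fun i => 1 / ((emb PP₁ i : ℕ) : ℝ)) 1 ≤ u * ρ₁ :=
    mul_le_mul_of_nonneg_left hρ hu0
  have hG20 : Real.exp (20 * ∑ i, 1 / ((emb PP₂ i : ℕ) : ℝ)) ≤ Real.exp (20 * G₂) := by
    apply Real.exp_le_exp.2
    linarith
  have c5 : 2 * ((Fintype.card κ : ℝ) * rho (fun i => 1 / ((emb PP₁ i : ℕ) : ℝ)) 1) *
      ((1 / 3) ^ J * Real.exp (20 * ∑ i, 1 / ((emb PP₂ i : ℕ) : ℝ))) ≤ 1 / 12 := by
    refine le_trans ?_ hmom
    rw [hu]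
    apply mul_le_mul (by linarith) _ (by positivity) (by positivity)
    exact mul_le_mul_of_nonneg_left hG20 (by positivity)
  have c5' : 2 * ((Fintype.card κ : ℝ) * rho (fun i => 1 / ((emb PP₁ i : ℕ) : ℝ)) 1) *
      Real.exp (20 * ∑ i, 1 / ((emb PP₂ i : ℕ) : ℝ)) ≤ R₂ / 12 := by
    refine le_trans ?_ hpen
    rw [hu]
    exact mul_le_mul (by linarith) hG20 (by positivity) (by positivity)
  have hlogQ : 0 ≤ Real.log Q := Real.log_nonneg hQ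
  have hlogz : 0 < Real.log z := Real.log_pos hz1
  have hexp : Real.exp (η * ((1 + η) * (Fintype.card κ : ℝ) *
      (rho (fun i => 1 / ((emb PP₁ i : ℕ) : ℝ)) 1 * K) / Real.log z -
        Real.log (Q / z) / Real.log z)) ≤
      Real.exp (η * ((1 + η) * u * (ρ₁ * K) / Real.log z - Real.log (Q / z) / Real.log z)) := by
    rw [hu]
    apply Real.exp_le_exp.2
    apply mul_le_mul_of_nonneg_left _ hη0.le
    apply sub_le_sub_right
    apply div_le_div_of_nonneg_right _ hlogz.le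
    have e1 : rho (fun i => 1 / ((emb PP₁ i : ℕ) : ℝ)) 1 * K ≤ ρ₁ * K :=
      mul_le_mul_of_nonneg_right hρ hK0
    exact mul_le_mul_of_nonneg_left e1 (by positivity)
  have c7 : 4 * ((Fintype.card κ : ℝ) * rho (fun i => 1 / ((emb PP₁ i : ℕ) : ℝ)) 1) * (τ + (δ ^ 2 +
      Real.exp (η * ((1 + η) * (Fintype.card κ : ℝ) *
      (rho (fun i => 1 / ((emb PP₁ i : ℕ) : ℝ)) 1 * K) / Real.log z -
        Real.log (Q / z) / Real.log z)))) ≤ 1 / 12 := by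
    refine le_trans ?_ htail
    have e1 : 0 ≤ (Fintype.card κ : ℝ) * rho (fun i => 1 / ((emb PP₁ i : ℕ) : ℝ)) 1 :=
      mul_nonneg (Nat.cast_nonneg _) c9
    apply mul_le_mul _ (by linarith) (by positivity) (by positivity)
    rw [hu]
    linarith
  have c7' : Real.exp (η * ((1 + η) * (Fintype.card κ : ℝ) *
      (rho (fun i => 1 / ((emb PP₁ i : ℕ) : ℝ)) 1 * K) / Real.log z -
        Real.log (Q / z) / Real.log z)) ≤ 1 / 8 := hexp.trans hE8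
  have c8 : (Fintype.card κ : ℝ) * δ ≤ 1 / 4 := by rw [hu]; exact huδ
  have hP1 : ∀ i, 1 ≤ ((emb PP₁ i : ℕ) : ℝ) := fun i => by
    have := hPw i
    linarith
  have hP2 : ∀ i, 1 ≤ ((emb PP₂ i : ℕ) : ℝ) := fun i => by
    have := hPy i
    linarith
  have hPz : ∀ i, ((emb PP₂ i : ℕ) : ℝ) ≤ z := fun i => (hm₂ _ (emb_mem PP₂ i)).2.2
  obtain ⟨F, hF1, hF2, hF3⟩ := coreF (κ := κ) H (fun i => 1 / ((emb PP₁ i : ℕ) : ℝ)) R m τ HR hτ0 hτ1
    (fun i => ((emb PP₁ i : ℕ) : ℝ)) hP1 Λ hΛ hRL z hz1.le hPz Q δ η R₂ J m₀ r hJ hm₀ hQ hη0 hη1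
    (fun i => by have := hP₁0 i; positivity) c3' c9 c1 c2 c3 hsupp c8
    hr hrm hR₂ hcard c7' c7 c5 c5'
  have hGe : Real.exp (r * ∑ i, 1 / ((emb PP₂ i : ℕ) : ℝ)) ≤ Real.exp (r * G₂) := by
    apply Real.exp_le_exp.2
    exact mul_le_mul_of_nonneg_left hG₂ (Nat.cast_nonneg _)
  have hmain := measure_of 𝒜 mu hmu
    (fun a : ℕ => (Fin.append (colr PP₁ res (a:ℤ)) (colr PP₂ res (a:ℤ)) : Col (PP₁.card + PP₂.card) κ))
    (Fin.append (fun i => 1 / ((emb PP₁ i : ℕ) : ℝ)) (fun i => 1 / ((emb PP₂ i : ℕ) : ℝ)))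
    (Fin.append (fun i => 1 - 1 / ((emb PP₁ i : ℕ) : ℝ)) (fun i => 1 - 1 / ((emb PP₂ i : ℕ) : ℝ)))
    ?_ ?_ _ _ _ N _ ?_ hN F hF1 hF2 hF3 ?_
  rotate_left
  · intro i
    refine Fin.addCases (fun j => ?_) (fun j => ?_) i
    · rw [Fin.append_left]
      have := hP1 j
      have h2 : 1 / ((emb PP₁ j : ℕ) : ℝ) ≤ 1 := by rw [div_le_one (by linarith)]; exact this
      linarith
    · rw [Fin.append_right]
      have := c1 j
      linarith
  · intro i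
    refine Fin.addCases (fun j => ?_) (fun j => ?_) i
    · rw [Fin.append_left]
      have h2 : 0 ≤ 1 / ((emb PP₁ j : ℕ) : ℝ) := by positivity
      linarith
    · rw [Fin.append_right]
      have h2 : 0 ≤ 1 / ((emb PP₂ j : ℕ) : ℝ) := by positivity
      linarith
  · positivity
  · intro f hf1 hf2
    refine htr f (fun D => (hf1 D).trans ?_) (fun D hD => ?_)
    · have e1 : nu (fun _ => (2:ℝ) ^ (2 * r + 3) - 1) D ≤ nu (fun _ => (2:ℝ) ^ (2 * r + 3)) D := by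
        apply nu_le
        · intro i
          have : (1:ℝ) ≤ 2 ^ (2 * r + 3) := one_le_pow₀ (by norm_num)
          linarith
        · intro i
          linarith
      have e2 : 0 ≤ nu (fun _ => (2:ℝ) ^ (2 * r + 3) - 1) D := by
        apply nu_nn
        intro i
        have : (1:ℝ) ≤ 2 ^ (2 * r + 3) := one_le_pow₀ (by norm_num)
        linarith
      apply mul_le_mul _ e1 e2 (by positivity)
      rw [hu]
      apply mul_le_mul_of_nonneg_right _ (by positivity)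
      apply pow_le_pow_left₀ (by positivity)
      exact mul_le_mul_of_nonneg_left hGe (by positivity)
    · obtain ⟨e1, e2, e3⟩ := hf2 D hD
      refine ⟨e1, ?_⟩
      push_cast
      rw [qn_cast, qn_cast]
      refine mul_le_mul e2 e3 ?_ (by positivity)
      exact zero_le_one.trans (one_le_qq hP2 _)
  refine hmain.trans ?_
  have hA1 : ∑ a ∈ 𝒜.filter (fun a : ℕ => ∀ k, ∃ i,
      (Fin.append (colr PP₁ res (a:ℤ)) (colr PP₂ res (a:ℤ)) : Col (PP₁.card + PP₂.card) κ) i =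
        some k), mu a ≤
      ∑ a ∈ 𝒜.filter (fun x : ℕ => ∀ k : κ, ∃ p ∈ PS w y E ∪ PS y z ∅,
      (p : ℤ) ∣ (x : ℤ) - res p k), mu a := by
    apply Finset.sum_le_sum_of_subset_of_nonneg
    · intro a ha
      rw [Finset.mem_filter] at ha ⊢
      refine ⟨ha.1, fun k => ?_⟩
      obtain ⟨i, hi⟩ := ha.2 k
      revert hi
      refine Fin.addCases (fun j hj => ?_) (fun j hj => ?_) i
      · rw [Fin.append_left] at hj
        have h1 := (colr_eq hinj₁ a j k).mp hj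
        exact ⟨emb PP₁ j, Finset.mem_union_left _ (emb_mem PP₁ j), h1⟩
      · rw [Fin.append_right] at hj
        have h1 := (colr_eq hinj₂ a j k).mp hj
        exact ⟨emb PP₂ j, Finset.mem_union_right _ (emb_mem PP₂ j), h1⟩
    · intro a ha _
      exact hmu a (Finset.mem_filter.1 ha).1
  have hA0 : 0 ≤ ∑ a ∈ 𝒜.filter (fun x : ℕ => ∀ k : κ, ∃ p ∈ PS w y E ∪ PS y z ∅,
      (p : ℤ) ∣ (x : ℤ) - res p k), mu a :=
    Finset.sum_nonneg fun a ha => hmu a (Finset.mem_filter.1 ha).1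
  apply mul_le_mul hA1 _ (by positivity) hA0
  have hR20 : 0 ≤ R₂ + 1 := by linarith
  apply pow_le_pow_left₀ (by positivity)
  apply mul_le_mul_of_nonneg_left _ (by norm_num)
  apply pow_le_pow_left₀ (by positivity)
  have h5 : Real.exp (∑ i, 1 / ((emb PP₂ i : ℕ) : ℝ)) ≤ Real.exp G₂ := Real.exp_le_exp.2 hG₂
  have h6 : 0 ≤ ((J : ℝ) + 2) ^ (2 * J) * (R₂ + 1) := by positivity
  have h7 := mul_le_mul_of_nonneg_right h5 h6
  linarith


end Pool.Agent.L5helper1.IS
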