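import Pool.Agent.L5helper1.IS.CovM
import Pool.Agent.L5helper1.AS.Cov

set_option autoImplicit false
set_option linter.unusedSectionVars false
set_option linter.unusedVariables false
set_option maxHeartbeats 4000000

/-! # The covering theorem for a measure: numerical conditions -/

namespace Pool.Agent.L5helper1.IS

open Finset Filter Pool.Agent.H256R2.SC Pool.Agent.Y831.RC Pool.Agent.L5helper1.AS

open scoped Classical

theorem p_lev {ε e L Y Z : ℝ} (hε : 0 < ε) (hε8 : ε ≤ 1 / 8) (hL0 : 0 < L) (he : 300 / ε ≤ e)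
    (he1 : 1000 ≤ e)
    (hY : Y = L * Real.exp (-e) / e ^ 2) (hZ : Z = ε ^ 2 * L / (100 * e))
    (b₀ J r : ℕ) (hb₀ : (b₀:ℝ) ≤ 4 * e + 2)
    (hJ : (J:ℝ) ≤ 30 * e + 2) (hr : (r:ℝ) ≤ Real.exp e / 2 + 1) :
    (Real.exp (Y * (2 * b₀ + 4))) ^ (2 * r + 1) * ((Real.exp ((1 / 2 - ε) * L)) ^ 2 *
      (Real.exp Z) ^ J) ≤ Real.exp ((1 - ε) * L) := by
  have he0 : 0 < e := by linarith
  have hE := Real.exp_pos e
  have hE1 : 1001 ≤ Real.exp e := by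
    have := Real.add_one_le_exp e
    linarith
  have hY0 : 0 < Y := by rw [hY]; positivity
  have hZ0 : 0 < Z := by rw [hZ]; positivity
  have hYe : Y * Real.exp e * e = L / e := by
    rw [hY, Real.exp_neg]
    field_simp
  have h1 : Y * (2 * b₀ + 4) ≤ 9 * (Y * e) := by
    have : 2 * (b₀:ℝ) + 4 ≤ 9 * e := by linarith
    calc Y * (2 * b₀ + 4) ≤ Y * (9 * e) := mul_le_mul_of_nonneg_left this hY0.le
      _ = _ := by ring
  have h0 : 0 ≤ Y * (2 * b₀ + 4) := by positivity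
  have h2 : ((2 * r + 1 : ℕ) : ℝ) * (Y * (2 * b₀ + 4)) ≤ 10 * (L / e) := by
    have e1 : ((2 * r + 1 : ℕ) : ℝ) ≤ 10 / 9 * Real.exp e := by
      push_cast
      linarith
    calc ((2 * r + 1 : ℕ) : ℝ) * (Y * (2 * b₀ + 4)) ≤ (10 / 9 * Real.exp e) * (9 * (Y * e)) :=
          mul_le_mul e1 h1 h0 (by positivity)
      _ = 10 * (Y * Real.exp e * e) := by ring
      _ = 10 * (L / e) := by rw [hYe]
  have h3 : L / e ≤ ε / 300 * L := by
    rw [div_le_iff₀ he0]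
    rw [div_le_iff₀ hε] at he
    have : ε / 300 * L * e = (e * ε) * L / 300 := by ring
    rw [this]
    have := mul_le_mul_of_nonneg_right he hL0.le
    linarith
  have h4 : (J:ℝ) * Z ≤ 31 / 100 * (ε ^ 2 * L) := by
    have h4 : (J:ℝ) * Z ≤ 31 * e * Z := mul_le_mul_of_nonneg_right (by linarith) hZ0.le
    refine h4.trans (le_of_eq ?_)
    rw [hZ]
    field_simp
  have h5 : ε ^ 2 * L ≤ 1 / 8 * (ε * L) := by
    have : ε ^ 2 * L = ε * (ε * L) := by ring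
    rw [this]
    exact mul_le_mul_of_nonneg_right hε8 (by positivity)
  rw [← Real.exp_nat_mul, ← Real.exp_nat_mul, ← Real.exp_nat_mul, ← Real.exp_add, ← Real.exp_add]
  apply Real.exp_le_exp.2
  have h6 : ((2:ℕ):ℝ) * ((1 / 2 - ε) * L) = L - 2 * (ε * L) := by push_cast; ring
  rw [h6]
  have h7 : 0 < ε * L := by positivity
  nlinarith

theorem p_M {e L : ℝ} (hL2 : 2 ≤ L) (he0 : 0 < e) (u : ℝ) (hu0 : 0 ≤ u) (hu : u ≤ L ^ 2 / 2)
    (r ρ : ℕ) (hr : r ≤ ρ) :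
    (((u + 1) ^ r * Real.exp (r * (11 / 10 * e))) ^ 2 * (1 + 2 * u)) ≤
      2 * Real.exp (3 * ρ * e) * L ^ (4 * ρ + 2) := by
  have hL0 : 0 < L := by linarith
  have hL1 : 1 ≤ L := by linarith
  have hL4 : 4 ≤ L ^ 2 := by nlinarith
  have h1 : u + 1 ≤ L ^ 2 := by linarith
  have h2 : (u + 1) ^ r ≤ (L ^ 2) ^ ρ :=
    (pow_le_pow_left₀ (by linarith) h1 r).trans (pow_le_pow_right₀ (by linarith) hr)
  have hrρ : (r:ℝ) ≤ ρ := by exact_mod_cast hr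
  have h3 : Real.exp (r * (11 / 10 * e)) ≤ Real.exp (ρ * (11 / 10 * e)) := by
    apply Real.exp_le_exp.2
    exact mul_le_mul_of_nonneg_right hrρ (by positivity)
  have h4 : (u + 1) ^ r * Real.exp (r * (11 / 10 * e)) ≤
      (L ^ 2) ^ ρ * Real.exp (ρ * (11 / 10 * e)) :=
    mul_le_mul h2 h3 (Real.exp_pos _).le (by positivity)
  have h5 := pow_le_pow_left₀ (by positivity) h4 2
  have h6 : 1 + 2 * u ≤ 2 * L ^ 2 := by linarith
  have h7 : (((u + 1) ^ r * Real.exp (r * (11 / 10 * e))) ^ 2 * (1 + 2 * u)) ≤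
      ((L ^ 2) ^ ρ * Real.exp (ρ * (11 / 10 * e))) ^ 2 * (2 * L ^ 2) :=
    mul_le_mul h5 h6 (by linarith) (by positivity)
  refine h7.trans ?_
  have h8 : ((L ^ 2) ^ ρ * Real.exp (ρ * (11 / 10 * e))) ^ 2 * (2 * L ^ 2) =
      2 * Real.exp (2 * (ρ * (11 / 10 * e))) * L ^ (4 * ρ + 2) := by
    rw [mul_pow, ← Real.exp_nat_mul, ← pow_mul, ← pow_mul]
    push_cast
    have e1 : L ^ (4 * ρ + 2) = L ^ (2 * ρ * 2) * L ^ 2 := by
      rw [← pow_add]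
      congr 1
      ring
    rw [e1]
    ring
  rw [h8]
  apply mul_le_mul_of_nonneg_right _ (by positivity)
  apply mul_le_mul_of_nonneg_left _ (by norm_num)
  apply Real.exp_le_exp.2
  have : (0:ℝ) ≤ ρ * e := by positivity
  nlinarith

theorem covM_at (Aw ε c C CR C₁ K₀ M₀ : ℝ) (hAw : 2 ≤ Aw) (hM6 : Aw ≤ M₀) (hε : 0 < ε) (hε4 : ε ≤ 1 / 8) (hc : 0 < c) (hC : 0 < C)
    (hC₁ : 0 < C₁) (hCR0 : 0 ≤ CR)
    (hWb : ∀ y : ℝ, 2 ≤ y → c ≤ WW y * Real.log y ∧ WW y * Real.log y ≤ C)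
    (hSR : ∀ a b : ℝ, 2 ≤ a → a ≤ b →
    ∑ p ∈ (Finset.Ioc ⌊a⌋₊ ⌊b⌋₊).filter Nat.Prime, (1 : ℝ) / p ≤
      Real.log (Real.log b / Real.log a) + CR / Real.log a)
    (hBH : ∀ (E : Finset ℕ) (w y : ℝ) (b₀ : ℕ) (m τ : ℝ) (κ : Type) [Fintype κ]
    [DecidableEq κ], 2 ≤ w → C₁ ≤ Real.log w → w ≤ y → Even b₀ →
    2 * (Fintype.card κ : ℝ) ≤ w → 0 ≤ m → τ ≤ 1 → m * (1 / 3) ^ b₀ ≤ Real.exp (-130) * τ →
    ∃ R : κ → Col (PS w y E).card κ → ℝ,
      BHyp (fun i => 1 / ((emb (PS w y E) i : ℕ) : ℝ)) R m τ ∧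
      ∀ k, Rep (fun _ => 2) 1 (fun D => cols D ⊆ {k} ∧
        qq (fun i => ((emb (PS w y E) i : ℕ) : ℝ)) D ≤ Real.exp (Real.log y * (2 * b₀ + 4)))
        (R k))
    (hK1 : 1000 ≤ K₀) (hK2 : 100 / ε ^ 2 ≤ K₀) (hK3 : 300 / ε ≤ K₀) (hK4 : 64 / (c * ε) ≤ K₀)
    (hK5 : 72 * C ≤ K₀) (hM1 : 8 ≤ M₀) (hM2 : 200 / ε ≤ M₀) (hM3 : C ≤ M₀)
    (hM4 : Real.exp C₁ ≤ M₀) (hM5 : 2 * CR ≤ M₀)
    (L e : ℝ) (he1 : K₀ ≤ e) (he3 : K₀ * e ^ 3 ≤ Real.exp e) (helog : Real.log (K₀ * e) ≤ e / K₀)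
    (a1 : M₀ ≤ L) (a2 : 1 ≤ Real.log L) (a3 : M₀ ≤ L ^ ε) (a4 : Real.log L * M₀ ≤ L)
    (heu : e ≤ (1 - ε) * Real.log L)
    (b1 : M₀ * Real.log L ≤ L * Real.exp (-e) / e ^ 2)
    (κ : Type) [Fintype κ] [DecidableEq κ]
    (hκ : (Fintype.card κ : ℝ) ≤ (1 / 2 - 3 * ε) * (e * L * (WW (L ^ Aw) / 2)))
    (E : Finset ℕ) (hE : ∑ p ∈ E.filter (fun p : ℕ => L ^ Aw < (p:ℝ)), 1 / (p:ℝ) ≤ 1 / 2)
    (res : ℕ → κ → ℤ)
    (hres₁ : ∀ p : ℕ, p.Prime → L ^ Aw < p →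
      (p : ℝ) ≤ Real.exp (L * Real.exp (-e) / e ^ 2) → p ∉ E → ∀ k l, k ≠ l →
      ¬ ((p : ℤ) ∣ res p k - res p l))
    (hres₂ : ∀ p : ℕ, p.Prime → Real.exp (L * Real.exp (-e) / e ^ 2) < p →
      (p : ℝ) ≤ Real.exp (ε ^ 2 * L / (100 * e)) → ∀ k l, k ≠ l →
      ¬ ((p : ℤ) ∣ res p k - res p l))
    (𝒜 : Finset ℕ) (mu : ℕ → ℝ) (hmu : ∀ a ∈ 𝒜, 0 ≤ mu a) (N : ℝ) (hN : 0 ≤ N)
    (PP₁ PP₂ : Finset ℕ) (hPP₁ : PP₁ = PS (L ^ Aw) (Real.exp (L * Real.exp (-e) / e ^ 2)) E)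
    (hPP₂ : PP₂ = PS (Real.exp (L * Real.exp (-e) / e ^ 2)) (Real.exp (ε ^ 2 * L / (100 * e))) ∅)
    (htr : ∀ f : Col (PP₁.card + PP₂.card) κ → ℝ,
      (∀ D, |f D| ≤ (2 * Real.exp (3 * ⌈Real.exp e⌉₊ * e) * L ^ (4 * ⌈Real.exp e⌉₊ + 2)) *
        nu (fun _ => (2:ℝ) ^ (2 * ⌈Real.exp e⌉₊ + 3)) D) →
      (∀ D, f D ≠ 0 → (cols D).card ≤ 2 * ⌈Real.exp e⌉₊ + 1 ∧
        ((qn PP₁ (fstc D) * qn PP₂ (sndc D) : ℕ) : ℝ) ≤ Real.exp ((1 - ε) * L)) →
      |∑ D, f D * (nu (Fin.append (fun i => 1 - 1 / ((emb PP₁ i : ℕ) : ℝ))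
          (fun i => 1 - 1 / ((emb PP₂ i : ℕ) : ℝ))) D *
        ∑ a ∈ 𝒜, mu a * ind D (Fin.append (colr PP₁ res (a : ℤ))
          (colr PP₂ res (a : ℤ)) : Col (PP₁.card + PP₂.card) κ) -
        N * nu (Fin.append (fun i => 1 / ((emb PP₁ i : ℕ) : ℝ))
          (fun i => 1 / ((emb PP₂ i : ℕ) : ℝ))) D)| ≤ N / 8) :
    3 / 8 * N ≤ (∑ a ∈ 𝒜.filter (fun x : ℕ => ∀ k : κ, ∃ p ∈ PP₁ ∪ PP₂,
      (p : ℤ) ∣ (x : ℤ) - res p k), mu a) * Real.exp (e ^ 2 * Real.exp e) := by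
  subst hPP₁ hPP₂
  have he1000 : 1000 ≤ e := by linarith only [hK1, he1]
  have he0 : 0 < e := by linarith only [he1000]
  have he1' : 1 ≤ e := by linarith only [he1000]
  have hε4' : ε ≤ 1 / 4 := by linarith only [hε4]
  set l : ℝ := Real.log L with hl
  have hL2 : 2 ≤ L := by linarith only [hM1, a1]
  have hL0 : 0 < L := by linarith only [hL2]
  have hL1 : 1 ≤ L := by linarith only [hL2]
  have hl0 : 0 ≤ l := by linarith only [a2]
  have hel : e ≤ l := by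
    have : 0 ≤ ε * l := mul_nonneg hε.le hl0
    linarith only [this, heu]
  have hM0 : 0 < M₀ := by linarith only [hM1]
  have hlL : l ≤ L := by
    have h1 : 8 * l ≤ M₀ * l := q_mul hM1 hl0
    linarith only [h1, a4, hl0]
  have hExpL : Real.exp e ≤ L := by
    rw [← Real.exp_log hL0]
    exact Real.exp_le_exp.2 hel
  have he3' : e ^ 3 ≤ Real.exp e := q_cube hK1 he1' he3
  have he30 : 0 ≤ e ^ 3 := by positivity
  have h72 : 72 * C * e ^ 3 ≤ Real.exp e := (q_mul hK5 he30).trans he3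
  have h12 : 12 * C * e ^ 3 ≤ Real.exp e := by
    have : 12 * C ≤ K₀ := by linarith only [hK5, hC]
    exact (q_mul this he30).trans he3
  set Y : ℝ := L * Real.exp (-e) / e ^ 2 with hY
  set Z : ℝ := ε ^ 2 * L / (100 * e) with hZ
  obtain ⟨hYZ, hvZ, hZ0, hY0, _, _⟩ := p_YZ hε hε4' hL0 (hK2.trans he1) he3' hY hZ
  have hYM : M₀ ≤ Y := by
    have : M₀ * 1 ≤ M₀ * l := mul_le_mul_of_nonneg_left a2 hM0.le
    linarith only [this, b1]
  have hlog1 : Real.log e ≤ e / 20 := q_log1 hK1 he1' helog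
  have hlog2 : Real.log (100 * e / ε ^ 2) ≤ ε / 4 * e := q_log2 hε hK1 he1' helog hK2 hK3
  have hCRY : CR / Y ≤ 1 / 2 := by
    rw [div_le_iff₀ hY0]
    linarith only [hM5, hYM]
  have h64 : 64 / ε ≤ 200 / ε := div_le_div_of_nonneg_right (by norm_num) hε.le
  set m₀ : ℕ := ⌈20 * e⌉₊ with hm₀
  have hm₀1 : 20 * e ≤ m₀ := Nat.le_ceil _
  have hm₀2 : (m₀ : ℝ) < 20 * e + 1 := Nat.ceil_lt_add_one (by positivity)
  obtain ⟨hG₂, hprof⟩ := blk2_prof ε c C CR hε hε4' hc hWb hSR L e Y Z hL1 he1' hY0 hY hZ hYZ hvZ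
    hlog1 hlog2 hCRY he1000 (hK4.trans he1) (hM1.trans hYM) (h64.trans (hM2.trans hYM)) m₀ hm₀1
  set w : ℝ := L ^ Aw with hw
  have hwL : L ≤ w := by
    calc L = L ^ (1:ℝ) := (Real.rpow_one L).symm
      _ ≤ L ^ Aw := Real.rpow_le_rpow_of_exponent_le hL1 (by linarith only [hAw])
  have hwL2 : L ^ 2 ≤ w := by
    calc L ^ 2 = L ^ (2:ℝ) := (Real.rpow_two L).symm
      _ ≤ L ^ Aw := Real.rpow_le_rpow_of_exponent_le hL1 hAw
  have hw2 : 2 ≤ w := by linarith only [hwL, hL2]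
  have hlw : Real.log w = Aw * l := by rw [hw, Real.log_rpow hL0]
  have hwy : w ≤ Real.exp Y := by
    have hw0 : 0 < w := by linarith only [hw2]
    rw [← Real.log_le_iff_le_exp hw0, hlw]
    have e1 : Aw * l ≤ M₀ * l := mul_le_mul_of_nonneg_right hM6 hl0
    exact e1.trans b1
  set y : ℝ := Real.exp Y with hy
  set z : ℝ := Real.exp Z with hz
  have hly : Real.log y = Y := Real.log_exp Y
  have hlz : Real.log z = Z := Real.log_exp Z
  have hyY : Y + 1 ≤ y := Real.add_one_le_exp Y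
  have hyz : y ≤ z := Real.exp_le_exp.2 hYZ
  have hy9 : 9 ≤ y := by linarith only [hyY, hYM, hM1]
  have hz1 : 1 < z := by linarith only [hy9, hyz]
  -- Mertens
  obtain ⟨hWy1, hWy2⟩ := hWb y (by linarith only [hy9])
  rw [hly] at hWy1 hWy2
  have hV0 := WW_pos y
  have hWW0 := WW_pos w
  have hWW1 := WW_le_one w
  set V : ℝ := WW y with hV
  set W : ℝ := WW w / 2 with hW
  have hW0 : 0 < W := by rw [hW]; linarith only [hWW0]
  have hW1 : W ≤ 1 := by rw [hW]; linarith only [hWW1, hWW0]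
  have hρ := rho_PSE w y E hw2 hwy hE
  have hVW : 2 * (WW y / WW w) = V / W := by
    rw [hW, hV]
    field_simp
  rw [hVW] at hρ
  set u : ℝ := (Fintype.card κ : ℝ) with hu
  have hu0 : 0 ≤ u := Nat.cast_nonneg _
  have hu2 : u ≤ L ^ 2 / 2 := p_u2 hL2 hlL he0.le hel hW0 hW1 hε u hκ
  obtain ⟨hlam0, hlam1, hlam2⟩ := p_lam hε hε4' hL1 he1' hV0 hW0 hWy2 hY u hu0 hκ
  have huw : 2 * u ≤ w := by linarith only [hu2, hwL2]
  set v₀ : ℝ := L * Real.exp (-e) with hv₀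
  have hv₀0 : 0 < v₀ := by positivity
  -- the parameters
  set J : ℕ := 2 * ⌈15 * e⌉₊ with hJ
  have hJe : Even J := even_two_mul _
  have hJ1 : 30 * e ≤ J := by
    have := Nat.le_ceil (15 * e)
    rw [hJ]; push_cast; linarith only [this]
  have hJ2 : (J:ℝ) ≤ 30 * e + 2 := by
    have := (Nat.ceil_lt_add_one (show 0 ≤ 15 * e by positivity)).le
    rw [hJ]; push_cast; linarith only [this]
  have hm₀J : m₀ ≤ J := by
    have : (m₀:ℝ) ≤ J := by linarith only [hm₀2, hJ1, he1000]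
    exact_mod_cast this
  set b₀ : ℕ := 2 * ⌈2 * e⌉₊ with hb₀
  have hb₀e : Even b₀ := even_two_mul _
  have hb₀1 : 4 * e ≤ b₀ := by
    have := Nat.le_ceil (2 * e)
    rw [hb₀]; push_cast; linarith only [this]
  have hb₀2 : (b₀:ℝ) ≤ 4 * e + 2 := by
    have := (Nat.ceil_lt_add_one (show 0 ≤ 2 * e by positivity)).le
    rw [hb₀]; push_cast; linarith only [this]
  set Q : ℝ := Real.exp ((1 / 2 - ε) * L) with hQ
  have hlQ : Real.log Q = (1 / 2 - ε) * L := Real.log_exp _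
  have hhalf : 0 ≤ 1 / 2 - ε := by linarith only [hε4]
  have hlQ0 : 0 ≤ (1 / 2 - ε) * L := mul_nonneg hhalf hL0.le
  have hQ1 : 1 ≤ Q := Real.one_le_exp hlQ0
  set r : ℕ := ⌈Real.log Q / v₀⌉₊ with hr
  have hr1 : Real.log Q / v₀ ≤ r := Nat.le_ceil _
  have hrv : Real.log Q / v₀ ≤ Real.exp e / 2 := by
    rw [hlQ, hv₀]
    exact q_rv hε hL0
  have hexp1000 : 1001 ≤ Real.exp e := by
    have := Real.add_one_le_exp e
    linarith only [this, he1000]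
  have hr2 : (r:ℝ) ≤ Real.exp e / 2 + 1 := by
    have := (Nat.ceil_lt_add_one (show 0 ≤ Real.log Q / v₀ by
      apply div_nonneg _ hv₀0.le
      rw [hlQ]
      exact hlQ0)).le
    linarith only [this, hrv]
  have hrm : (r:ℝ) + 1 ≤ Real.exp e := by linarith only [hr2, hexp1000]
  have hre : (r:ℝ) ≤ Real.exp e := by linarith only [hrm]
  have hC1l : C₁ ≤ l := by
    rw [hl, Real.le_log_iff_exp_le hL0]
    exact hM4.trans a1
  have hAl : l ≤ Aw * l := by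
    have : 1 * l ≤ Aw * l := mul_le_mul_of_nonneg_right (by linarith only [hAw]) hl0
    linarith only [this]
  -- the first block
  obtain ⟨R, hR1, hR2⟩ := hBH E w y b₀ (Real.exp e) (Real.exp (-(2 * e))) κ hw2
    (by rw [hlw]; linarith only [hC1l, hAl]) hwy hb₀e huw (Real.exp_pos e).le
    (by rw [Real.exp_le_one_iff]; linarith only [he0]) (q_τ he1000 b₀ hb₀1)
  have hQz : Real.log (Q / z) = (1 / 2 - ε) * L - Z := by
    rw [Real.log_div (Real.exp_pos _).ne' (Real.exp_pos _).ne', hlQ, hlz]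
  have hEE : Real.exp (ε * ((1 + ε) * u * (V / W * (1 / ((1 - ε) * V * e))) / Real.log z -
      Real.log (Q / z) / Real.log z)) ≤ Real.exp (-(20 * e)) := by
    apply Real.exp_le_exp.2
    rw [hlz, hQz]
    have h1 := p_exp hε hε4' hL1 he1' hV0 hZ (u * (V / W)) hlam1
    have h2 : (1 + ε) * u * (V / W * (1 / ((1 - ε) * V * e))) =
        (1 + ε) * (u * (V / W) * (1 / ((1 - ε) * V * e))) := by ring
    rw [h2]
    exact h1
  have c1 : 2 * (Real.log Q / Real.log y) / y ≤ 1 / L ^ 4 := by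
    rw [hlQ, hly]
    exact p_δ hε hε4' hL2 (by linarith only [hM1, hYM])
      ((q_mul (by linarith only [hM1]) hl0).trans b1)
  have c2 : u ≤ y := by
    have e1 := p_pow (L := L) (Y := Y) hL1 2
      (le_trans (q_mul (by push_cast; linarith only [hM1]) hl0) b1)
    have e2 : 0 ≤ L ^ 2 := by positivity
    linarith only [e1, e2, hu2]
  have hΛ : 1 ≤ Real.exp (Y * (2 * b₀ + 4)) := Real.one_le_exp (by positivity)
  have hR3 : ∀ k, Rep (fun _ => 2) 1 (fun D => cols D ⊆ {k} ∧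
        qq (fun i => ((emb (PS w y E) i : ℕ) : ℝ)) D ≤ Real.exp (Y * (2 * b₀ + 4)))
        (R k) := by
    intro k
    have := hR2 k
    rw [hly] at this
    exact this
  have hK0 : 0 ≤ 1 / ((1 - ε) * V * e) := by
    have : 0 < 1 - ε := by linarith only [hε4]
    positivity
  set ρ : ℕ := ⌈Real.exp e⌉₊ with hρd
  have hrρ : r ≤ ρ := by
    have e1 : (r:ℝ) ≤ ρ := hre.trans (Nat.le_ceil _)
    exact_mod_cast e1
  have hlev := p_lev hε hε4 hL0 (hK3.trans he1) he1000 hY hZ b₀ J r hb₀2 hJ2 hr2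
  have hMc := p_M hL2 he0 u hu0 hu2 r ρ hrρ
  have hmain := cover5M E w y z (1 / ((1 - ε) * V * e)) Q (1 / L ^ 4) ε
    (11 / 10 * e) v₀ (Real.exp e)
    (Real.exp (-(2 * e))) (Real.exp (Y * (2 * b₀ + 4))) (Real.exp (24 * e)) (V / W) J m₀ r hJe hm₀J
    hw2 hwy hyz hy9 hz1 hQ1 hε (by linarith only [hε4]) hG₂ hprof
    c1 κ u rfl (Real.exp_pos _).le (by rw [Real.exp_le_one_iff]; linarith only [he0])
    hΛ hρ hK0 ⟨R, hR1, hR3⟩
    hr1 hrm (Real.one_le_exp (by positivity)) huw c2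
    (p_uδ hL2 u hu2) hv₀0
    (q_E8 he1' hEE)
    (p_tail he1' hC.le h72 (u * (V / W)) hlam0 hlam2 hExpL _ hEE)
    (p_mom he1' hC.le h12 (u * (V / W)) hlam0 hlam2 J hJ1)
    (p_pen he1' hC.le h12 (u * (V / W)) hlam0 hlam2)
    res hres₁ hres₂ 𝒜 mu hmu N hN
    (by
      intro f hf1 hf2
      refine htr f (fun D => (hf1 D).trans ?_) (fun D hD => ?_)
      · have e1 : nu (fun _ => (2:ℝ) ^ (2 * r + 3)) D ≤ nu (fun _ => (2:ℝ) ^ (2 * ρ + 3)) D := by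
          apply nu_le
          · intro i
            positivity
          · intro i
            apply pow_le_pow_right₀ (by norm_num)
            omega
        have e2 : 0 ≤ nu (fun _ => (2:ℝ) ^ (2 * r + 3)) D := by
          apply nu_nn
          intro i
          positivity
        exact mul_le_mul hMc e1 e2 (by positivity)
      · obtain ⟨e1, e2⟩ := hf2 D hD
        exact ⟨e1.trans (by omega), e2.trans hlev⟩)
  refine hmain.trans ?_
  apply mul_le_mul_of_nonneg_left _ (Finset.sum_nonneg fun a ha => hmu a (Finset.mem_filter.1 ha).1)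
  exact p_loss K₀ hK1 he1000 helog J r hJ2 hre


end Pool.Agent.L5helper1.IS
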