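import Pool.Agent.L5helper1.IS.Cls

set_option autoImplicit false
set_option linter.unusedSectionVars false
set_option linter.unusedVariables false
set_option maxHeartbeats 4000000

/-! # Arbitrary linear forms at a positive proportion of the primes -/

namespace Pool.Agent.L5helper1.IS

open Finset Filter Pool.Agent.H256R2.SC Pool.Agent.Y831.RC
open Pool.Agent.H378R2 (Phi LPhi GoodP GoodS)

open scoped Classical

/-- the weight of a family of linear forms -/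
noncomputable def wf (F : Finset (ℤ × ℤ)) : ℝ :=
  ∑ f ∈ F, ((f.1 * f.2).natAbs : ℝ) / (Nat.totient (f.1 * f.2).natAbs : ℝ)

theorem wf_ge (F : Finset (ℤ × ℤ)) (h0 : ∀ f ∈ F, f.1 ≠ 0 ∧ f.2 ≠ 0) : (F.card : ℝ) ≤ wf F := by
  unfold wf
  calc (F.card : ℝ) = ∑ _f ∈ F, (1:ℝ) := by simp
    _ ≤ _ := Finset.sum_le_sum fun f hf => ?_
  obtain ⟨h1, h2⟩ := h0 f hf
  have h3 : 0 < (f.1 * f.2).natAbs := Int.natAbs_pos.2 (mul_ne_zero h1 h2)
  have h4 : 0 < Nat.totient (f.1 * f.2).natAbs := Nat.totient_pos.2 h3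
  rw [le_div_iff₀ (by exact_mod_cast h4), one_mul]
  exact_mod_cast Nat.totient_le _

/-- good classes -/
theorem good_classes {α : Type} [DecidableEq α] (R : Finset α) (g : α → ℝ) (hg : ∀ a ∈ R, 0 ≤ g a) (A : ℝ) (hA : 0 < A)
    (h : ∑ a ∈ R, g a ≤ (R.card : ℝ) * A) :
    (R.card : ℝ) / 2 ≤ ((R.filter (fun a => g a ≤ 2 * A)).card : ℝ) := by
  have h1 : ((R.filter (fun a => ¬ g a ≤ 2 * A)).card : ℝ) * (2 * A) ≤ (R.card : ℝ) * A := by
    refine le_trans ?_ h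
    calc ((R.filter (fun a => ¬ g a ≤ 2 * A)).card : ℝ) * (2 * A) =
          ∑ _a ∈ R.filter (fun a => ¬ g a ≤ 2 * A), 2 * A := by
          rw [Finset.sum_const, nsmul_eq_mul]
      _ ≤ ∑ a ∈ R.filter (fun a => ¬ g a ≤ 2 * A), g a := by
          apply Finset.sum_le_sum
          intro a ha
          have := (Finset.mem_filter.1 ha).2
          push Not at this
          exact this.le
      _ ≤ ∑ a ∈ R, g a := Finset.sum_le_sum_of_subset_of_nonneg (Finset.filter_subset _ _)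
          fun a ha _ => hg a ha
  have h2 : (R.card : ℝ) = ((R.filter (fun a => g a ≤ 2 * A)).card : ℝ) +
      ((R.filter (fun a => ¬ g a ≤ 2 * A)).card : ℝ) := by
    have := Finset.card_filter_add_card_filter_not (s := R) (fun a => g a ≤ 2 * A)
    exact_mod_cast this.symm
  have h3 : ((R.filter (fun a => ¬ g a ≤ 2 * A)).card : ℝ) ≤ (R.card : ℝ) / 2 := by
    have h4 : ((R.filter (fun a => ¬ g a ≤ 2 * A)).card : ℝ) * (2 * A) ≤
        ((R.card : ℝ) / 2) * (2 * A) := by linarith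
    exact le_of_mul_le_mul_right h4 (by positivity)
  linarith

theorem sum_classes (𝒢 : Finset ℕ) (W N : ℕ) (h𝒢 : 𝒢 ⊆ range W) (P : ℕ → Prop) (mu : ℕ → ℝ)
    (hmu : ∀ n, 0 ≤ mu n) :
    ∑ a ∈ 𝒢, ∑ n ∈ ((Icc 1 N).filter (fun n => n ≡ a [MOD W])).filter P, mu n ≤
      ∑ n ∈ (Icc 1 N).filter P, mu n := by
  have h1 : ∀ a ∈ 𝒢, ∀ b ∈ 𝒢, a ≠ b → Disjoint
      (((Icc 1 N).filter (fun n => n ≡ a [MOD W])).filter P)
      (((Icc 1 N).filter (fun n => n ≡ b [MOD W])).filter P) := by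
    intro a ha b hb hab
    rw [Finset.disjoint_left]
    intro n hn hn'
    simp only [Finset.mem_filter] at hn hn'
    apply hab
    have h2 := hn.1.2.symm.trans hn'.1.2
    exact Nat.ModEq.eq_of_lt_of_lt h2 (Finset.mem_range.1 (h𝒢 ha)) (Finset.mem_range.1 (h𝒢 hb))
  rw [← Finset.sum_biUnion (fun a ha b hb hab => h1 a ha b hb hab)]
  apply Finset.sum_le_sum_of_subset_of_nonneg
  · intro n hn
    rw [Finset.mem_biUnion] at hn
    obtain ⟨a, _, hn⟩ := hn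
    simp only [Finset.mem_filter] at hn ⊢
    exact ⟨hn.1.1, hn.2⟩
  · intro n _ _
    exact hmu n

/-- few integers with a small value of a linear form -/
theorem few_small (a b : ℤ) (ha : a ≠ 0) (M : ℝ) (hM : 0 ≤ M) (N : ℕ) :
    (((Icc 1 N).filter (fun n : ℕ => |((a * (n:ℤ) + b : ℤ) : ℝ)| ≤ M)).card : ℝ) ≤ 2 * M + 1 := by
  have h1 : ((Icc 1 N).filter (fun n : ℕ => |((a * (n:ℤ) + b : ℤ) : ℝ)| ≤ M)).card ≤
      (Finset.Icc (-⌊M⌋) ⌊M⌋).card := by
    apply Finset.card_le_card_of_injOn (fun n : ℕ => a * (n:ℤ) + b)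
    · intro n hn
      rw [Finset.coe_filter, Set.mem_ofPred_eq] at hn
      rw [Finset.coe_Icc, Set.mem_Icc]
      have h2 := abs_le.1 hn.2
      constructor
      · have h3 : -(a * (n:ℤ) + b) ≤ ⌊M⌋ := by
          rw [Int.le_floor]
          push_cast at h2 ⊢
          linarith [h2.1]
        linarith
      · rw [Int.le_floor]
        exact h2.2
    · intro n _ m _ h
      simp only at h
      have h2 : a * (n:ℤ) = a * (m:ℤ) := by linarith
      have h3 := mul_left_cancel₀ ha h2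
      exact_mod_cast h3
  have h2 : ((Finset.Icc (-⌊M⌋) ⌊M⌋).card : ℝ) ≤ 2 * M + 1 := by
    rw [Int.card_Icc]
    have h3 : 0 ≤ ⌊M⌋ := Int.floor_nonneg.2 hM
    have h4 : ((⌊M⌋ + 1 - -⌊M⌋).toNat : ℤ) = 2 * ⌊M⌋ + 1 := by
      rw [Int.toNat_of_nonneg (by linarith)]
      ring
    have h5 : ((⌊M⌋ + 1 - -⌊M⌋).toNat : ℝ) = 2 * (⌊M⌋ : ℝ) + 1 := by exact_mod_cast h4
    rw [h5]
    have := Int.floor_le M
    linarith
  exact (by exact_mod_cast h1 : (_ : ℝ) ≤ ((Finset.Icc (-⌊M⌋) ⌊M⌋).card : ℝ)).trans h2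

theorem ev_main (lam δ η : ℝ) (hlam : 0 < lam) (hδ : 0 < δ) (hδ2 : δ ≤ 1 / 2) (hη : 0 < η) :
    ∃ X₀ : ℝ, ∀ X : ℝ, X₀ ≤ X → 4 ≤ X ∧ 1 ≤ Real.log X ∧ 1 ≤ Real.log (Real.log X) ∧
      Real.log X ≤ X ^ δ ∧ (lam * Real.log X) * (2 * X ^ δ + 1) ≤ η * (X / Real.log X) := by
  have h1 : ∀ᶠ X : ℝ in atTop, Real.log X ≤ X ^ δ := by
    have e := (isLittleO_log_rpow_atTop hδ).def (one_pos)
    filter_upwards [e, eventually_ge_atTop (1:ℝ)] with X hX hX1
    rwa [one_mul, Real.norm_of_nonneg (Real.log_nonneg hX1),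
      Real.norm_of_nonneg (Real.rpow_nonneg (by linarith) _)] at hX
  have h2 : ∀ᶠ X : ℝ in atTop, Real.log X ^ (2:ℝ) ≤ η / (3 * lam) * X ^ (1 / 2 : ℝ) := by
    have e := (isLittleO_log_rpow_rpow_atTop (s := 1 / 2) 2 (by norm_num)).def
      (show (0:ℝ) < η / (3 * lam) by positivity)
    filter_upwards [e, eventually_ge_atTop (1:ℝ)] with X hX hX1
    rwa [Real.norm_of_nonneg (Real.rpow_nonneg (Real.log_nonneg hX1) _),
      Real.norm_of_nonneg (Real.rpow_nonneg (by linarith) _)] at hX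
  have h3 := Real.tendsto_log_atTop.eventually_ge_atTop (1:ℝ)
  have h4 := (Real.tendsto_log_atTop.comp Real.tendsto_log_atTop).eventually_ge_atTop (1:ℝ)
  obtain ⟨X₀, hX₀⟩ := Filter.eventually_atTop.1
    (h1.and (h2.and (h3.and (h4.and (eventually_ge_atTop (4:ℝ))))))
  refine ⟨X₀, fun X hX => ?_⟩
  obtain ⟨g1, g2, g3, g4, g5⟩ := hX₀ X hX
  refine ⟨g5, g3, g4, g1, ?_⟩
  have hX0 : 0 < X := by linarith
  have hX1 : 1 ≤ X := by linarith
  have e1 : X ^ δ ≤ X ^ (1 / 2 : ℝ) := Real.rpow_le_rpow_of_exponent_le hX1 hδ2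
  have e2 : 1 ≤ X ^ (1 / 2 : ℝ) := Real.one_le_rpow hX1 (by norm_num)
  have e3 : X ^ (1 / 2 : ℝ) * X ^ (1 / 2 : ℝ) = X := by
    rw [← Real.rpow_add hX0]
    norm_num
  rw [Real.rpow_two] at g2
  set s := X ^ (1 / 2 : ℝ) with hs
  have hl : 0 < Real.log X := by linarith
  rw [← mul_div_assoc, le_div_iff₀ hl]
  have e4 : (lam * Real.log X) * (2 * X ^ δ + 1) ≤ (lam * Real.log X) * (3 * s) :=
    mul_le_mul_of_nonneg_left (by linarith) (by positivity)
  calc lam * Real.log X * (2 * X ^ δ + 1) * Real.log X ≤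
        (lam * Real.log X) * (3 * s) * Real.log X := mul_le_mul_of_nonneg_right e4 hl.le
    _ = 3 * lam * s * (Real.log X) ^ 2 := by ring
    _ ≤ 3 * lam * s * (η / (3 * lam) * s) := mul_le_mul_of_nonneg_left g2 (by positivity)
    _ = η * (s * s) := by field_simp
    _ = η * X := by rw [e3]

theorem main_thm : ∃ C : ℝ, 0 < C ∧ ∀ D lam δ : ℝ, 0 < D → 0 < lam → 0 < δ → δ ≤ 1 / 2 →
    ∃ X₀ : ℝ, ∀ X : ℝ, X₀ ≤ X → ∀ F : Finset (ℤ × ℤ), (∀ f ∈ F, f.1 ≠ 0 ∧ f.2 ≠ 0) →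
      (∀ f ∈ F, |(f.1 : ℝ)| ≤ Real.exp ((Real.log X) ^ D) ∧
        |(f.2 : ℝ)| ≤ Real.exp ((Real.log X) ^ D)) →
      wf F ≤ lam * Real.log X →
      Real.exp (-Real.exp (C * (1 + lam * (1 + D) + 1 / δ))) * (X / Real.log X) ≤
        (((Icc 1 ⌊3 * X⌋₊).filter (fun n : ℕ => n.Prime ∧ X < (n : ℝ) ∧ ∀ f ∈ F,
          X ^ δ < |((f.1 * (n : ℤ) + f.2 : ℤ) : ℝ)| ∧
          ∃ q : ℕ, q.Prime ∧ (q : ℝ) ≤ X ^ δ ∧ (q : ℤ) ∣ f.1 * (n : ℤ) + f.2)).card : ℝ) := by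
  obtain ⟨c, e₀, hc, he₀, hcls⟩ := class_thm
  obtain ⟨Z, C₇, hC₇, Xa, hXa⟩ := surv_avg2
  refine ⟨2 * e₀ + 24 * C₇ / c + 2, by positivity, fun D lam δ hD hlam hδ hδ2 => ?_⟩
  obtain ⟨e, he⟩ : ∃ e : ℝ, e = e₀ + 2 * C₇ * (lam * (D + 6)) / c + 1 / δ := ⟨_, rfl⟩
  have hp1 : 0 ≤ 2 * C₇ * (lam * (D + 6)) / c := by positivity
  have hp2 : 0 < 1 / δ := by positivity
  have hee₀ : e₀ ≤ e := by rw [he]; linarith
  have he1000 : 1000 ≤ e := he₀.trans hee₀
  have he0 : 0 < e := by linarith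
  obtain ⟨Xb, hXb⟩ := hcls D hD e hee₀
  obtain ⟨Xc, hXc⟩ := htr_of2 (2 * ⌈Real.exp e⌉₊ + 1)
    (4 * ⌈Real.exp e⌉₊ + 3) Z (2 ^ (2 * ⌈Real.exp e⌉₊ + 3)) (by positivity)
  obtain ⟨Xd, hXd⟩ := Filter.eventually_atTop.1 Pool.Agent.H378R2.LPhi_ge
  obtain ⟨Φ, hΦ⟩ : ∃ Φ : ℝ, Φ = Real.exp (e ^ 2 * Real.exp e) := ⟨_, rfl⟩
  have hΦ0 : 0 < Φ := by rw [hΦ]; exact Real.exp_pos _
  obtain ⟨Xe, hXe⟩ := count_of (1 / (1600 * Φ)) (by positivity)
  obtain ⟨Xf, hXf⟩ := ev_main lam δ (1 / (6400 * Φ)) hlam hδ hδ2 (by positivity)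
  refine ⟨max (max Xa Xb) (max (max Xc Xd) (max Xe Xf)), fun X hX F h0 hF hwf => ?_⟩
  have k1 : Xa ≤ X := ((le_max_left _ _).trans (le_max_left _ _)).trans hX
  have k2 : Xb ≤ X := ((le_max_right _ _).trans (le_max_left _ _)).trans hX
  have k3 : Xc ≤ X := (((le_max_left _ _).trans (le_max_left _ _)).trans (le_max_right _ _)).trans hX
  have k4 : Xd ≤ X := (((le_max_right _ _).trans (le_max_left _ _)).trans (le_max_right _ _)).trans hX
  have k5 : Xe ≤ X := (((le_max_left _ _).trans (le_max_right _ _)).trans (le_max_right _ _)).trans hX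
  have k6 : Xf ≤ X := (((le_max_right _ _).trans (le_max_right _ _)).trans (le_max_right _ _)).trans hX
  obtain ⟨g1, g2, g3, g4, g5⟩ := hXf X k6
  have hLP := hXd X k4
  have hX0 : 0 < X := by linarith
  obtain ⟨ps, S, hps1, hS, hps2, htr⟩ := hXc X k3
  obtain ⟨F', h0', hdet, hle, hcov, hw'⟩ := primitive_forms F h0
  set W : ℕ := Pool.Agent.H378R2.WW X S ps with hW
  have hWpos : 0 < W := Pool.Agent.H378R2.WW_pos X S ps
  have hsurv := hXa X k1 ps S hps1 hS F' h0'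
  rw [← hW] at hsurv
  set A : ℝ := C₇ / Real.log (Real.log X) * (lam * Real.log X) with hA
  have hA0 : 0 < A := by positivity
  set R : Finset ℕ := (range W).filter (fun a => a.Coprime W) with hR
  set g : ℕ → ℝ := fun a =>
    ((F'.filter (fun f => Int.gcd (f.1 * (a : ℤ) + f.2) (W : ℤ) = 1)).card : ℝ) with hg
  have hRc : R.card = Nat.totient W := by
    rw [hR, Nat.totient]
    congr 1
    apply Finset.filter_congr
    intro a _
    exact Nat.coprime_comm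
  have hgood := good_classes R g (fun a _ => Nat.cast_nonneg _) A hA0 (by
    rw [hRc]
    refine hsurv.trans ?_
    have e1 : wf F' ≤ lam * Real.log X := hw'.trans hwf
    have e2 : 0 ≤ (Nat.totient W : ℝ) * (C₇ / Real.log (Real.log X)) := by positivity
    calc (Nat.totient W : ℝ) * (C₇ / Real.log (Real.log X)) *
          ∑ f ∈ F', ((f.1 * f.2).natAbs : ℝ) / (Nat.totient (f.1 * f.2).natAbs : ℝ)
        ≤ (Nat.totient W : ℝ) * (C₇ / Real.log (Real.log X)) * (lam * Real.log X) :=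
          mul_le_mul_of_nonneg_left e1 e2
      _ = _ := by rw [hA]; ring)
  set 𝒢 : Finset ℕ := R.filter (fun a => g a ≤ 2 * A) with h𝒢
  obtain ⟨P, hP⟩ : ∃ P : ℕ → Prop, ∀ n, P n ↔ ∀ f ∈ F, ∃ q : ℕ, q.Prime ∧ (q : ℝ) ≤ X ^ δ ∧
    (q : ℤ) ∣ f.1 * (n : ℤ) + f.2 := ⟨_, fun n => Iff.rfl⟩
  set mu : ℕ → ℝ := fun n => Phi (n / X) * ArithmeticFunction.vonMangoldt n with hmu
  have hmu0 : ∀ n, 0 ≤ mu n := fun n =>
    mul_nonneg (Pool.Agent.H378R2.Phi_nonneg _) ArithmeticFunction.vonMangoldt_nonneg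
  have hlogX0 : 0 < Real.log X := by linarith
  have hF' : ∀ f ∈ F', |(f.1 : ℝ)| ≤ Real.exp ((Real.log X) ^ D) ∧
        |(f.2 : ℝ)| ≤ Real.exp ((Real.log X) ^ D) := by
    intro f hf
    obtain ⟨g', hg', h1, h2⟩ := hle f hf
    have h3 := hF g' hg'
    have h1' : |(f.1 : ℝ)| ≤ |(g'.1 : ℝ)| := by exact_mod_cast h1
    have h2' : |(f.2 : ℝ)| ≤ |(g'.2 : ℝ)| := by exact_mod_cast h2
    exact ⟨h1'.trans h3.1, h2'.trans h3.2⟩
  have hδe : Real.exp (Real.log X / (640000 * e)) ≤ X ^ δ := by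
    rw [Real.rpow_def_of_pos hX0]
    apply Real.exp_le_exp.2
    rw [div_le_iff₀ (by positivity)]
    have e1 : 1 ≤ δ * (640000 * e) := by
      have e2 : 1 / δ ≤ e := by rw [he]; linarith
      rw [div_le_iff₀ hδ] at e2
      have e3 : 0 < e * δ := by positivity
      linarith
    have e4 := mul_le_mul_of_nonneg_left e1 hlogX0.le
    linarith
  -- one class
  have hone : ∀ a ∈ 𝒢, 1 / 4 * (LPhi X / (Nat.totient W : ℝ)) ≤
      (∑ n ∈ ((Icc 1 ⌊3 * X⌋₊).filter (fun n => n ≡ a [MOD W])).filter P, mu n) * Φ := by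
    intro a ha
    rw [h𝒢, Finset.mem_filter] at ha
    have haR := ha.1
    rw [hR, Finset.mem_filter] at haR
    set Fa : Finset (ℤ × ℤ) := F'.filter (fun f => Int.gcd (f.1 * (a : ℤ) + f.2) (W : ℤ) = 1) with hFa
    have hsubF : ∀ f ∈ Fa, f ∈ F' := fun f hf => (Finset.mem_filter.1 hf).1
    have h1 := hXb X k2 ps S hps2 htr Fa (fun f hf => h0' f (hsubF f hf))
      (fun f hf => hF' f (hsubF f hf)) (fun f hf g hg => hdet f (hsubF f hf) g (hsubF g hg)) (by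
        have e1 : (Fa.card : ℝ) ≤ 2 * A := ha.2
        have e2 : 0 ≤ (D + 6) * Real.log (Real.log X) := by positivity
        have e3 := mul_le_mul_of_nonneg_right e1 e2
        have e4 : 2 * A * ((D + 6) * Real.log (Real.log X)) =
            (2 * C₇ * (lam * (D + 6)) / c) * (c * Real.log X) := by
          rw [hA]
          field_simp
        have e5 : 2 * C₇ * (lam * (D + 6)) / c ≤ e := by rw [he]; linarith
        have e6 := mul_le_mul_of_nonneg_right e5 (show 0 ≤ c * Real.log X by positivity)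
        linarith) a haR.2
    rw [← hW, ← hΦ] at h1
    refine h1.trans ?_
    apply mul_le_mul_of_nonneg_right _ hΦ0.le
    apply Finset.sum_le_sum_of_subset_of_nonneg
    · intro n hn
      rw [Finset.mem_filter] at hn ⊢
      refine ⟨hn.1, (hP n).2 fun f hf => ?_⟩
      obtain ⟨g', hg', t, ht1, ht2⟩ := hcov f hf
      have hfg : f.1 * (n : ℤ) + f.2 = t * (g'.1 * (n : ℤ) + g'.2) := by
        rw [ht1, ht2]; ring
      by_cases hga : g' ∈ Fa
      · obtain ⟨q, hq1, hq2, hq3⟩ := hn.2 g' hga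
        refine ⟨q, hq1, hq2.trans hδe, ?_⟩
        rw [hfg]
        exact Dvd.dvd.mul_left hq3 t
      · have hgcd : Int.gcd (g'.1 * (a : ℤ) + g'.2) (W : ℤ) ≠ 1 := by
          intro h
          exact hga (Finset.mem_filter.2 ⟨hg', h⟩)
        obtain ⟨q, hq1, hq2⟩ := Nat.exists_prime_and_dvd hgcd
        have hq3 : (q : ℤ) ∣ g'.1 * (a : ℤ) + g'.2 :=
          (Int.natCast_dvd_natCast.2 hq2).trans (Int.gcd_dvd_left _ _)
        have hq4 : q ∣ W := by
          have := (Int.natCast_dvd_natCast.2 hq2).trans (Int.gcd_dvd_right (g'.1 * (a : ℤ) + g'.2) (W:ℤ))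
          exact_mod_cast this
        refine ⟨q, hq1, ?_, ?_⟩
        · have h5 := (Pool.Agent.H378R2.prime_dvd_WW hq1).1 hq4
          have h6 := (Pool.Agent.H378R2.mem_PW.1 h5).1
          have h7 : (q : ℝ) ≤ (Pool.Agent.H378R2.yy X : ℝ) := by exact_mod_cast h6
          have h8 : (Pool.Agent.H378R2.yy X : ℝ) ≤ Real.log X / 1000 := by
            unfold Pool.Agent.H378R2.yy
            exact Nat.floor_le (by positivity)
          linarith
        · have h9 := (Finset.mem_filter.1 hn.1).2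
          have h10 : (n : ℤ) ≡ (a : ℤ) [ZMOD (q : ℤ)] :=
            (Int.natCast_modEq_iff.2 (h9.of_dvd hq4))
          have h11 : (q : ℤ) ∣ (n : ℤ) - a := h10.symm.dvd
          rw [hfg]
          apply Dvd.dvd.mul_left
          have h12 : g'.1 * (n : ℤ) + g'.2 = g'.1 * ((n : ℤ) - a) + (g'.1 * (a : ℤ) + g'.2) := by ring
          rw [h12]
          exact dvd_add (Dvd.dvd.mul_left h11 _) hq3
    · intro n _ _
      exact hmu0 n
  have h𝒢sub : 𝒢 ⊆ range W := by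
    intro a ha
    rw [h𝒢, Finset.mem_filter] at ha
    have haR := ha.1
    rw [hR, Finset.mem_filter] at haR
    exact haR.1
  have hsumc := sum_classes 𝒢 W ⌊3 * X⌋₊ h𝒢sub P mu hmu0
  have hsum : (𝒢.card : ℝ) * (1 / 4 * (LPhi X / (Nat.totient W : ℝ))) ≤
      (∑ n ∈ (Icc 1 ⌊3 * X⌋₊).filter P, mu n) * Φ := by
    calc (𝒢.card : ℝ) * (1 / 4 * (LPhi X / (Nat.totient W : ℝ))) =
          ∑ _a ∈ 𝒢, 1 / 4 * (LPhi X / (Nat.totient W : ℝ)) := by
          rw [Finset.sum_const, nsmul_eq_mul]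
      _ ≤ ∑ a ∈ 𝒢, (∑ n ∈ ((Icc 1 ⌊3 * X⌋₊).filter (fun n => n ≡ a [MOD W])).filter P, mu n) * Φ :=
          Finset.sum_le_sum hone
      _ = (∑ a ∈ 𝒢, ∑ n ∈ ((Icc 1 ⌊3 * X⌋₊).filter (fun n => n ≡ a [MOD W])).filter P, mu n) * Φ := by
          rw [Finset.sum_mul]
      _ ≤ _ := by
          exact mul_le_mul_of_nonneg_right hsumc hΦ0.le
  have hφ : (0:ℝ) < Nat.totient W := by exact_mod_cast Nat.totient_pos.2 hWpos
  have hlow : 1 / (1600 * Φ) * X ≤ ∑ n ∈ (Icc 1 ⌊3 * X⌋₊).filter P,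
      Phi (n / X) * ArithmeticFunction.vonMangoldt n := by
    rw [hRc] at hgood
    have e1 : LPhi X / 8 ≤ (𝒢.card : ℝ) * (1 / 4 * (LPhi X / (Nat.totient W : ℝ))) := by
      have hLP0 : 0 ≤ LPhi X := by
        have : 0 < X / 200 := by positivity
        linarith
      have e2 := mul_le_mul_of_nonneg_right hgood
        (show 0 ≤ 1 / 4 * (LPhi X / (Nat.totient W : ℝ)) by positivity)
      refine le_trans (le_of_eq ?_) e2
      field_simp
      ring
    have e2 : X / 1600 ≤ (∑ n ∈ (Icc 1 ⌊3 * X⌋₊).filter P, mu n) * Φ := by linarith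
    have e3 : 1 / (1600 * Φ) * X = X / 1600 / Φ := by field_simp
    rw [e3, div_le_iff₀ hΦ0]
    exact e2
  have hcnt := hXe X k5 P hlow
  -- remove the small values
  set T1 : Finset ℕ := (Icc 1 ⌊3 * X⌋₊).filter (fun n : ℕ => n.Prime ∧ X < (n : ℝ) ∧ P n) with hT1
  set T2 : Finset ℕ := (Icc 1 ⌊3 * X⌋₊).filter (fun n : ℕ => n.Prime ∧ X < (n : ℝ) ∧ ∀ f ∈ F,
          X ^ δ < |((f.1 * (n : ℤ) + f.2 : ℤ) : ℝ)| ∧
          ∃ q : ℕ, q.Prime ∧ (q : ℝ) ≤ X ^ δ ∧ (q : ℤ) ∣ f.1 * (n : ℤ) + f.2) with hT2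
  have hXδ0 : 0 ≤ X ^ δ := Real.rpow_nonneg hX0.le _
  have hsub : T1 ⊆ T2 ∪ F.biUnion (fun f => (Icc 1 ⌊3 * X⌋₊).filter
      (fun n : ℕ => |((f.1 * (n : ℤ) + f.2 : ℤ) : ℝ)| ≤ X ^ δ)) := by
    intro n hn
    rw [hT1, Finset.mem_filter] at hn
    rw [Finset.mem_union]
    by_cases hb : ∃ f ∈ F, |((f.1 * (n : ℤ) + f.2 : ℤ) : ℝ)| ≤ X ^ δ
    · right
      obtain ⟨f, hf, h⟩ := hb
      rw [Finset.mem_biUnion]
      exact ⟨f, hf, Finset.mem_filter.2 ⟨hn.1, h⟩⟩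
    · left
      push Not at hb
      rw [hT2, Finset.mem_filter]
      exact ⟨hn.1, hn.2.1, hn.2.2.1, fun f hf => ⟨hb f hf, (hP n).1 hn.2.2.2 f hf⟩⟩
  have hcardT : (T1.card : ℝ) ≤ (T2.card : ℝ) + (F.card : ℝ) * (2 * X ^ δ + 1) := by
    have e1 := (Finset.card_le_card hsub).trans (Finset.card_union_le _ _)
    have e2 : (T1.card : ℝ) ≤ (T2.card : ℝ) + ((F.biUnion (fun f => (Icc 1 ⌊3 * X⌋₊).filter
      (fun n : ℕ => |((f.1 * (n : ℤ) + f.2 : ℤ) : ℝ)| ≤ X ^ δ))).card : ℝ) := by exact_mod_cast e1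
    have e3 : ((F.biUnion (fun f => (Icc 1 ⌊3 * X⌋₊).filter
      (fun n : ℕ => |((f.1 * (n : ℤ) + f.2 : ℤ) : ℝ)| ≤ X ^ δ))).card : ℝ) ≤
      ∑ f ∈ F, (((Icc 1 ⌊3 * X⌋₊).filter
        (fun n : ℕ => |((f.1 * (n : ℤ) + f.2 : ℤ) : ℝ)| ≤ X ^ δ)).card : ℝ) := by
      exact_mod_cast Finset.card_biUnion_le
    have e4 : ∑ f ∈ F, (((Icc 1 ⌊3 * X⌋₊).filter
        (fun n : ℕ => |((f.1 * (n : ℤ) + f.2 : ℤ) : ℝ)| ≤ X ^ δ)).card : ℝ) ≤
        ∑ _f ∈ F, (2 * X ^ δ + 1) :=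
      Finset.sum_le_sum fun f hf => few_small f.1 f.2 (h0 f hf).1 _ hXδ0 _
    rw [Finset.sum_const, nsmul_eq_mul] at e4
    linarith
  have hFc : (F.card : ℝ) * (2 * X ^ δ + 1) ≤ 1 / (6400 * Φ) * (X / Real.log X) := by
    refine le_trans ?_ g5
    apply mul_le_mul_of_nonneg_right _ (by positivity)
    exact (wf_ge F h0).trans hwf
  have hXl : 0 ≤ X / Real.log X := by positivity
  have hconst : Real.exp (-Real.exp ((2 * e₀ + 24 * C₇ / c + 2) * (1 + lam * (1 + D) + 1 / δ))) ≤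
      1 / (6400 * Φ) := by
    have e1 : 2 * e ≤ (2 * e₀ + 24 * C₇ / c + 2) * (1 + lam * (1 + D) + 1 / δ) := by
      have a1 : 0 ≤ lam * (1 + D) := by positivity
      have a2 : 0 < 24 * C₇ / c := by positivity
      have a3 : 0 < e₀ := by linarith
      have a4 : 2 * (2 * C₇ * (lam * (D + 6)) / c) ≤ 24 * C₇ / c * (lam * (1 + D)) := by
        have : 2 * (2 * C₇ * (lam * (D + 6)) / c) = 4 * C₇ / c * (lam * (D + 6)) := by
          field_simp
          ring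
        rw [this]
        have a5 : 24 * C₇ / c * (lam * (1 + D)) = 4 * C₇ / c * (lam * (6 * (1 + D))) := by
          field_simp
          ring
        rw [a5]
        apply mul_le_mul_of_nonneg_left _ (by positivity)
        apply mul_le_mul_of_nonneg_left _ hlam.le
        linarith
      rw [he]
      have a6 : (2 * e₀ + 24 * C₇ / c + 2) * (1 + lam * (1 + D) + 1 / δ) =
          2 * e₀ + 24 * C₇ / c * (lam * (1 + D)) + 2 * (1 / δ) +
          ((2 * e₀ + 2) * (lam * (1 + D)) + (2 * e₀ + 24 * C₇ / c) * (1 / δ) + 24 * C₇ / c + 2) := by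
        ring
      rw [a6]
      have a7 : 0 ≤ (2 * e₀ + 2) * (lam * (1 + D)) := by positivity
      have a8 : 0 ≤ (2 * e₀ + 24 * C₇ / c) * (1 / δ) := by positivity
      linarith
    have e2 : Real.log 6400 + e ^ 2 * Real.exp e ≤ Real.exp (2 * e) := by
      have b1 : Real.log 6400 ≤ 9 := by
        rw [Real.log_le_iff_le_exp (by norm_num)]
        have b2 : (2.7182818283 : ℝ) ^ 9 ≤ Real.exp 9 := by
          have := Real.exp_one_gt_d9
          have b3 : Real.exp 9 = (Real.exp 1) ^ 9 := by rw [← Real.exp_nat_mul]; norm_num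
          rw [b3]
          exact pow_le_pow_left₀ (by norm_num) this.le 9
        refine le_trans ?_ b2
        norm_num
      have b4 : Real.exp (2 * e) = Real.exp e * Real.exp e := by rw [← Real.exp_add]; congr 1; ring
      have b5 : e ^ 3 / 6 ≤ Real.exp e := by
        have := Real.pow_div_factorial_le_exp e he0.le 3
        norm_num [Nat.factorial] at this
        exact this
      have b6 : e ^ 2 + 9 ≤ Real.exp e := by nlinarith
      have b7 : 1 ≤ Real.exp e := Real.one_le_exp he0.le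
      rw [b4]
      nlinarith
    have e3 : 1 / (6400 * Φ) = Real.exp (-(Real.log 6400 + e ^ 2 * Real.exp e)) := by
      rw [Real.exp_neg, Real.exp_add, Real.exp_log (by norm_num), hΦ, one_div]
    rw [e3]
    apply Real.exp_le_exp.2
    have e4 := Real.exp_le_exp.2 e1
    linarith
  have hfin := mul_le_mul_of_nonneg_right hconst hXl
  have e9 : 1 / (1600 * Φ) / 2 * (X / Real.log X) =
      2 * (1 / (6400 * Φ) * (X / Real.log X)) := by
    field_simp
    ring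
  rw [e9] at hcnt
  linarith

end Pool.Agent.L5helper1.IS
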