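import Pool.Agent.L5helper1.AS.Blk

set_option autoImplicit false
set_option linter.unusedSectionVars false
set_option linter.unusedVariables false
set_option maxHeartbeats 4000000

/-! # Combinations of elementary events with pointwise bounds for the coefficients -/

namespace Pool.Agent.L5helper1.IS

open Finset Pool.Agent.H256R2.SC Pool.Agent.Y831.RC

variable {n n₁ n₂ : ℕ} {κ : Type} [Fintype κ] [DecidableEq κ]

/-- `F` is a combination of elementary events `D` with `P D` and coefficients at most `M ∏ (c i - 1)` -/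
def Rep (c : Fin n → ℝ) (M : ℝ) (P : Col n κ → Prop) (F : Col n κ → ℝ) : Prop :=
  ∃ f : Col n κ → ℝ, (∀ x, F x = ∑ D, f D * ind D x) ∧
    (∀ D, |f D| ≤ M * nu (fun i => c i - 1) D) ∧ ∀ D, f D ≠ 0 → P D

theorem nu_nn {g : Fin n → ℝ} (hg : ∀ i, 0 ≤ g i) (D : Col n κ) : 0 ≤ nu g D := by
  unfold nu
  apply Finset.prod_nonneg
  intro i _
  cases D i with
  | none => simp [nu1]
  | some k => simpa [nu1] using hg i

theorem nu_le {g g' : Fin n → ℝ} (hg : ∀ i, 0 ≤ g i) (h : ∀ i, g i ≤ g' i) (D : Col n κ) :
    nu g D ≤ nu g' D := by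
  unfold nu
  apply Finset.prod_le_prod
  · intro i _
    cases D i with
    | none => simp [nu1]
    | some k => simpa [nu1] using hg i
  · intro i _
    cases D i with
    | none => simp [nu1]
    | some k => simpa [nu1] using h i

theorem nu_noneD (g : Fin n → ℝ) : nu g (fun _ => none : Col n κ) = 1 := by
  simp [nu, nu1]

theorem Rep_mono {c c' : Fin n → ℝ} {M M' : ℝ} {P P' : Col n κ → Prop} {F : Col n κ → ℝ}
    (hc : ∀ i, 1 ≤ c i) (hcc : ∀ i, c i ≤ c' i) (hM : 0 ≤ M) (hMM : M ≤ M')
    (hP : ∀ D, P D → P' D) (h : Rep c M P F) : Rep c' M' P' F := by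
  obtain ⟨f, h1, h2, h3⟩ := h
  refine ⟨f, h1, fun D => (h2 D).trans ?_, fun D hD => hP D (h3 D hD)⟩
  have e1 : nu (fun i => c i - 1) D ≤ nu (fun i => c' i - 1) D :=
    nu_le (fun i => by linarith [hc i]) (fun i => by linarith [hcc i]) D
  have e2 : 0 ≤ nu (fun i => c i - 1) D := nu_nn (fun i => by linarith [hc i]) D
  exact mul_le_mul hMM e1 e2 (hM.trans hMM)

theorem Rep_const (c : Fin n → ℝ) (a : ℝ) (P : Col n κ → Prop) (hP : P (fun _ => none)) (hc : ∀ i, 1 ≤ c i) :
    Rep c |a| P (fun _ : Col n κ => a) := by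
  refine ⟨fun D => if D = (fun _ => none) then a else 0, fun x => ?_, fun D => ?_, fun D hD => ?_⟩
  · rw [Finset.sum_eq_single (fun _ => none : Col n κ)]
    · simp [ind]
    · intro D _ hD
      simp [hD]
    · intro h
      exact absurd (mem_univ _) h
  · beta_reduce
    by_cases h : D = (fun _ => none)
    · subst h
      rw [if_pos rfl, nu_noneD, mul_one]
    · rw [if_neg h, abs_zero]
      exact mul_nonneg (abs_nonneg _) (nu_nn (fun i => by linarith [hc i]) D)
  · have h : D = (fun _ => none) := by
      by_contra h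
      exact hD (if_neg h)
    rw [h]
    exact hP

theorem Rep_sum {ι : Type} (S : Finset ι) (c : Fin n → ℝ) (M : ℝ) (P : Col n κ → Prop)
    (F : ι → Col n κ → ℝ) (hF : ∀ j ∈ S, Rep c M P (F j)) :
    Rep c ((S.card : ℝ) * M) P (fun x => ∑ j ∈ S, F j x) := by
  classical
  choose! f hf1 hf2 hf3 using hF
  refine ⟨fun D => ∑ j ∈ S, f j D, fun x => ?_, fun D => ?_, fun D hD => ?_⟩
  · simp_rw [Finset.sum_mul]
    rw [Finset.sum_comm]
    exact Finset.sum_congr rfl fun j hj => hf1 j hj x
  · refine (Finset.abs_sum_le_sum_abs _ _).trans ?_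
    refine (Finset.sum_le_sum fun j hj => hf2 j hj D).trans (le_of_eq ?_)
    rw [Finset.sum_const, nsmul_eq_mul]
    ring
  · obtain ⟨j, hj, hj2⟩ := Finset.exists_ne_zero_of_sum_ne_zero hD
    exact hf3 j hj D hj2

theorem Rep_add {c : Fin n → ℝ} {M M' : ℝ} {P : Col n κ → Prop} {F G : Col n κ → ℝ}
    (hF : Rep c M P F) (hG : Rep c M' P G) : Rep c (M + M') P (fun x => F x + G x) := by
  obtain ⟨f, h1, h2, h3⟩ := hF
  obtain ⟨f', h1', h2', h3'⟩ := hG
  refine ⟨fun D => f D + f' D, fun x => ?_, fun D => ?_, fun D hD => ?_⟩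
  · change F x + G x = _
    rw [h1, h1', ← Finset.sum_add_distrib]
    exact Finset.sum_congr rfl fun D _ => by ring
  · refine (abs_add_le _ _).trans ?_
    linarith [h2 D, h2' D]
  · by_cases h : f D = 0
    · exact h3' D fun h' => hD (by simp only [h, h', add_zero])
    · exact h3 D h

theorem Rep_neg {c : Fin n → ℝ} {M : ℝ} {P : Col n κ → Prop} {F : Col n κ → ℝ}
    (hF : Rep c M P F) : Rep c M P (fun x => - F x) := by
  obtain ⟨f, h1, h2, h3⟩ := hF
  refine ⟨fun D => - f D, fun x => ?_, fun D => ?_, fun D hD => ?_⟩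
  · change - F x = _
    rw [h1, ← Finset.sum_neg_distrib]
    exact Finset.sum_congr rfl fun D _ => by ring
  · rw [abs_neg]
    exact h2 D
  · exact h3 D fun h => hD (by simp only [h, neg_zero])

theorem Rep_sub {c : Fin n → ℝ} {M M' : ℝ} {P : Col n κ → Prop} {F G : Col n κ → ℝ}
    (hF : Rep c M P F) (hG : Rep c M' P G) : Rep c (M + M') P (fun x => F x - G x) := by
  have := Rep_add hF (Rep_neg hG)
  simpa only [sub_eq_add_neg] using this

theorem Rep_ind (c : Fin n → ℝ) (P : Col n κ → Prop) (D : Col n κ) (hP : P D)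
    (hc : ∀ i, 1 ≤ c i) (hD : ∀ i, D i ≠ none → 2 ≤ c i) : Rep c 1 P (fun x => ind D x) := by
  refine ⟨fun E => if D = E then 1 else 0, fun x => ?_, fun E => ?_, fun E hE => ?_⟩
  · simp
  · beta_reduce
    by_cases h : D = E
    · subst h
      rw [if_pos rfl, abs_one, one_mul]
      unfold nu
      calc (1:ℝ) = ∏ _i : Fin n, (1:ℝ) := by simp
        _ ≤ _ := Finset.prod_le_prod (fun _ _ => zero_le_one) fun i _ => ?_
      cases hDi : D i with
      | none => simp [nu1]
      | some k =>
        simp only [nu1]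
        linarith [hD i (by rw [hDi]; simp)]
    · rw [if_neg h, abs_zero, one_mul]
      exact nu_nn (fun i => by linarith [hc i]) E
  · by_cases h : D = E
    · exact h ▸ hP
    · exact absurd (if_neg h) hE

/-- the local identity for products -/
theorem loc_prod (s t : ℝ) (hs : 0 ≤ s) (ht : 0 ≤ t) (e : Option κ) :
    ∑ p : Option κ × Option κ, (if (p.1 ≠ none → p.2 ≠ none → p.1 = p.2) ∧
      (match p.1 with | none => p.2 | some k => some k) = e then nu1 s p.1 * nu1 t p.2 else 0) ≤
      nu1 ((s + 1) * (t + 1) - 1) e := by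
  classical
  cases e with
  | none =>
    rw [Finset.sum_eq_single (none, none)]
    · simp [nu1]
    · rintro ⟨a, b⟩ _ h
      rw [if_neg]
      rintro ⟨_, h2⟩
      cases a with
      | none => exact h (by simp only at h2; rw [h2])
      | some k => simp at h2
    · intro h
      exact absurd (Finset.mem_univ _) h
  | some k =>
    have h1 : ∀ p : Option κ × Option κ, (if (p.1 ≠ none → p.2 ≠ none → p.1 = p.2) ∧
      (match p.1 with | none => p.2 | some k => some k) = some k then nu1 s p.1 * nu1 t p.2 else 0) =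
      (if p = (none, some k) then t else 0) + (if p = (some k, none) then s else 0) +
        (if p = (some k, some k) then s * t else 0) := by
      rintro ⟨a, b⟩
      cases a with
      | none =>
        cases b with
        | none => simp
        | some l =>
          by_cases hl : l = k
          · subst hl
            simp [nu1]
          · simp [hl, nu1]
      | some l =>
        cases b with
        | none =>
          by_cases hl : l = k
          · subst hl
            simp [nu1]
          · simp [hl, nu1]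
        | some m =>
          by_cases hl : l = k
          · subst hl
            by_cases hm : m = l
            · subst hm
              simp [nu1]
            · have hm' : ¬ l = m := fun h => hm h.symm
              simp [hm, hm', nu1]
          · simp [hl, nu1]
    rw [Finset.sum_congr rfl fun p _ => h1 p, Finset.sum_add_distrib, Finset.sum_add_distrib]
    simp only [Finset.sum_ite_eq', Finset.mem_univ, if_true, nu1]
    nlinarith

theorem Rep_mul {c c' : Fin n → ℝ} {M M' : ℝ} {P P' P'' : Col n κ → Prop} {F G : Col n κ → ℝ}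
    (hc : ∀ i, 1 ≤ c i) (hc' : ∀ i, 1 ≤ c' i) (hM : 0 ≤ M) (hM' : 0 ≤ M')
    (hP : ∀ D D', P D → P' D' → P'' (un D D'))
    (hF : Rep c M P F) (hG : Rep c' M' P' G) :
    Rep (fun i => c i * c' i) (M * M') P'' (fun x => F x * G x) := by
  classical
  obtain ⟨f, h1, h2, h3⟩ := hF
  obtain ⟨f', h1', h2', h3'⟩ := hG
  refine ⟨fun E => ∑ p : Col n κ × Col n κ, if Cmp p.1 p.2 ∧ un p.1 p.2 = E then
    f p.1 * f' p.2 else 0, fun x => ?_, fun E => ?_, fun E hE => ?_⟩
  · have e1 : ∑ E : Col n κ, (∑ P : Col n κ × Col n κ, if Cmp P.1 P.2 ∧ un P.1 P.2 = E then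
        f P.1 * f' P.2 else 0) * ind E x =
        ∑ P : Col n κ × Col n κ, ∑ E : Col n κ, (if Cmp P.1 P.2 ∧ un P.1 P.2 = E then
        f P.1 * f' P.2 else 0) * ind E x := by
      simp_rw [Finset.sum_mul]
      exact Finset.sum_comm
    rw [e1]
    change F x * G x = _
    rw [h1, h1', Finset.sum_mul_sum, ← Finset.univ_product_univ, Finset.sum_product]
    refine Finset.sum_congr rfl fun D _ => Finset.sum_congr rfl fun D' _ => ?_
    have e2 : f D * ind D x * (f' D' * ind D' x) = f D * f' D' * (ind D x * ind D' x) := by ring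
    rw [e2, ind_mul]
    by_cases hc : Cmp D D'
    · rw [if_pos hc, Finset.sum_eq_single (un D D')]
      · rw [if_pos ⟨hc, rfl⟩]
      · intro E _ hE
        rw [if_neg fun h => hE h.2.symm, zero_mul]
      · intro h
        exact absurd (mem_univ _) h
    · rw [if_neg hc, mul_zero]
      symm
      apply Finset.sum_eq_zero
      intro E _
      rw [if_neg fun h => hc h.1, zero_mul]
  · set s : Fin n → ℝ := fun i => c i - 1 with hs
    set t : Fin n → ℝ := fun i => c' i - 1 with ht
    have hs0 : ∀ i, 0 ≤ s i := fun i => by simp only [hs]; linarith [hc i]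
    have ht0 : ∀ i, 0 ≤ t i := fun i => by simp only [ht]; linarith [hc' i]
    have e1 : |∑ p : Col n κ × Col n κ, if Cmp p.1 p.2 ∧ un p.1 p.2 = E then
        f p.1 * f' p.2 else 0| ≤ ∑ p : Col n κ × Col n κ, if Cmp p.1 p.2 ∧ un p.1 p.2 = E then
        (M * M') * (nu s p.1 * nu t p.2) else 0 := by
      refine (Finset.abs_sum_le_sum_abs _ _).trans (Finset.sum_le_sum fun p _ => ?_)
      split_ifs
      · rw [abs_mul]
        calc |f p.1| * |f' p.2| ≤ (M * nu s p.1) * (M' * nu t p.2) :=
              mul_le_mul (h2 _) (h2' _) (abs_nonneg _) (mul_nonneg hM (nu_nn hs0 _))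
          _ = _ := by ring
      · simp
    refine e1.trans ?_
    have e2 : ∑ p : Col n κ × Col n κ, (if Cmp p.1 p.2 ∧ un p.1 p.2 = E then
        (M * M') * (nu s p.1 * nu t p.2) else 0) =
        (M * M') * ∑ p : Col n κ × Col n κ, (if Cmp p.1 p.2 ∧ un p.1 p.2 = E then
          nu s p.1 * nu t p.2 else 0) := by
      rw [Finset.mul_sum]
      refine Finset.sum_congr rfl fun p _ => ?_
      split_ifs <;> simp
    rw [e2]
    apply mul_le_mul_of_nonneg_left _ (mul_nonneg hM hM')
    -- product structure
    have e3 : ∑ p : Col n κ × Col n κ, (if Cmp p.1 p.2 ∧ un p.1 p.2 = E then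
          nu s p.1 * nu t p.2 else 0) =
        ∑ r : Fin n → Option κ × Option κ, ∏ i, (if ((r i).1 ≠ none → (r i).2 ≠ none → (r i).1 = (r i).2) ∧
      (match (r i).1 with | none => (r i).2 | some k => some k) = E i then
        nu1 (s i) (r i).1 * nu1 (t i) (r i).2 else 0) := by
      refine Fintype.sum_equiv (Equiv.arrowProdEquivProdArrow (Fin n) (fun _ => Option κ)
        (fun _ => Option κ)).symm _ _ fun p => ?_
      simp only [Equiv.arrowProdEquivProdArrow, Equiv.coe_fn_symm_mk]
      by_cases h : Cmp p.1 p.2 ∧ un p.1 p.2 = E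
      · rw [if_pos h]
        unfold nu
        rw [← Finset.prod_mul_distrib]
        refine Finset.prod_congr rfl fun i _ => ?_
        rw [if_pos]
        refine ⟨fun h5 h6 => h.1 i h5 h6, ?_⟩
        have := congrFun h.2 i
        unfold un at this
        exact this
      · rw [if_neg h]
        symm
        have h5 : ∃ i, ¬ ((p.1 i ≠ none → p.2 i ≠ none → p.1 i = p.2 i) ∧
            (match p.1 i with | none => p.2 i | some k => some k) = E i) := by
          by_contra hcon
          push Not at hcon
          apply h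
          refine ⟨fun i h6 h7 => (hcon i).1 h6 h7, ?_⟩
          funext i
          unfold un
          exact (hcon i).2
        obtain ⟨i, hi⟩ := h5
        exact Finset.prod_eq_zero (Finset.mem_univ i) (if_neg hi)
    rw [e3]
    have e4 := Finset.prod_univ_sum (fun _ : Fin n => (univ : Finset (Option κ × Option κ)))
      (fun i p => (if (p.1 ≠ none → p.2 ≠ none → p.1 = p.2) ∧
      (match p.1 with | none => p.2 | some k => some k) = E i then
        nu1 (s i) p.1 * nu1 (t i) p.2 else 0))
    rw [Fintype.piFinset_univ] at e4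
    rw [← e4]
    unfold nu
    apply Finset.prod_le_prod
    · intro i _
      apply Finset.sum_nonneg
      intro p _
      split_ifs
      · apply mul_nonneg
        · cases p.1 with
          | none => simp [nu1]
          | some k => simpa [nu1] using hs0 i
        · cases p.2 with
          | none => simp [nu1]
          | some k => simpa [nu1] using ht0 i
      · exact le_rfl
    · intro i _
      refine (loc_prod (s i) (t i) (hs0 i) (ht0 i) (E i)).trans (le_of_eq ?_)
      congr 1
      simp only [hs, ht]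
      ring
  · obtain ⟨p, _, hp⟩ := Finset.exists_ne_zero_of_sum_ne_zero hE
    have hp1 : Cmp p.1 p.2 ∧ un p.1 p.2 = E := by
      by_contra h
      exact hp (if_neg h)
    rw [if_pos hp1] at hp
    rw [← hp1.2]
    exact hP _ _ (h3 _ (left_ne_zero_of_mul hp)) (h3' _ (right_ne_zero_of_mul hp))

end Pool.Agent.L5helper1.IS
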